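import Pool.Agent.Y662.TR.Sht

/-! The sum of the squares and the decay of the Green function of one sheet. -/

set_option autoImplicit false
set_option linter.unusedSectionVars false

open scoped BigOperators InnerProductSpace Topology
open MeasureTheory Filter

namespace Pool.Agent.Y662.TR

open Pool.Agent.TH369.AN (Rz rz_eq rz_uniq rz_norm)
open Pool.Agent.W788.LD.Spec (S)

variable {d : ℕ}

theorem root_inj : Function.Injective fun x : Fin d → ℤ => (([], x) : Vt d) := by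
  intro x y h
  simpa using h

/-- the norm of the Green function of one sheet -/
theorem ps_norm (B lam : ℝ) (z : ℂ) (hz : 0 < z.im) (v : (Fin d → ℤ) → ℝ) (a : Fin d → ℤ) :
    ∑' x, ‖Ps B lam z v a x‖ ^ 2 ≤ (1 / z.im) ^ 2 := by
  have h1 := comp_tsum (fun x : Fin d → ℤ => (([], x) : Vt d)) root_inj
    (Rz (TT B (Vr lam v) (fun _ => 0)) z (dv ([], a)))
  refine h1.trans ?_
  have h2 := rz_norm _ (TT_sa B (Vr lam v) (fun _ => 0)) z hz.ne' (dv (([], a) : Vt d))
  rw [norm_dv, abs_of_pos hz] at h2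
  gcongr

/-- the energy identity of one sheet: `Im G(a,a) = Im z ∑ |G(a,x)|²` -/
theorem ps_ward (B lam : ℝ) (z : ℂ) (hz : 0 < z.im) (v : (Fin d → ℤ) → ℝ) (a : Fin d → ℤ) :
    z.im * ∑' x, ‖Ps B lam z v a x‖ ^ 2 = (Ps B lam z v a a).im := by
  have h1 := energy (fun x => 2 * d + clp B (lam * v x)) z (fun _ => 0) 0 (fun x => by simp)
    (Ps B lam z v a) (fun x => if x = a then 1 else 0) (coord_sq B _ _ z a) (dl_sq a)
    (fun x => by
      rw [← ps_eq B lam z hz.ne' v a x]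
      ring)
  simp only [Complex.zero_im, add_zero] at h1
  rw [tsum_mul_left] at h1
  rw [h1, tsum_dl (fun x => (starRingEnd ℂ) (Ps B lam z v a x)) a, Complex.conj_im, neg_neg]

/-- the difference of two Green functions of one sheet -/
theorem ps_diff (B lam : ℝ) (w z : ℂ) (hw : 0 < w.im) (hz : 0 < z.im) (v : (Fin d → ℤ) → ℝ)
    (a : Fin d → ℤ) :
    Ps B lam w v a a - Ps B lam z v a a =
      (w - z) * ∑' x, Ps B lam z v a x * Ps B lam w v a x := by
  have h1 := bil (fun x => 2 * d + clp B (lam * v x)) 0 (fun _ => w) (fun _ => z) ‖w - z‖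
    (fun x => le_rfl) (Ps B lam w v a) (Ps B lam z v a) (fun x => if x = a then 1 else 0)
    (fun x => if x = a then 1 else 0) (coord_sq B _ _ w a) (coord_sq B _ _ z a) (dl_sq a)
    (dl_sq a) (fun x => by
      rw [← ps_eq B lam w hw.ne' v a x]
      ring) (fun x => by
      rw [← ps_eq B lam z hz.ne' v a x]
      ring)
  rw [tsum_dl, tsum_dl] at h1
  rw [h1, ← tsum_mul_left]
  refine tsum_congr fun x => ?_
  ring

/-- the resolvents at two points -/
theorem rz_two {X : Type} [NormedAddCommGroup X] [InnerProductSpace ℂ X] [CompleteSpace X]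
    (T : X →L[ℂ] X) (hT : IsSelfAdjoint T) (w z : ℂ) (hw : 0 < w.im) (hz : 0 < z.im) (φ : X) :
    ‖Rz T w φ - Rz T z φ‖ ≤ ‖w - z‖ * ‖Rz T z φ‖ / w.im := by
  have h1 : Rz T w φ - Rz T z φ = Rz T w ((w - z) • Rz T z φ) := by
    apply rz_uniq T hT w hw.ne'
    have e1 := rz_eq T hT w hw.ne' φ
    have e2 := rz_eq T hT z hz.ne' φ
    have e3 : T (Rz T w φ) = φ + w • Rz T w φ := sub_eq_iff_eq_add.1 e1
    have e4 : T (Rz T z φ) = φ + z • Rz T z φ := sub_eq_iff_eq_add.1 e2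
    rw [map_sub, e3, e4, smul_sub, sub_smul]
    abel
  rw [h1]
  refine (rz_norm T hT w hw.ne' _).trans ?_
  rw [norm_smul, abs_of_pos hw]

/-- **the sum of the squares** -/
theorem sum_sq (B lam : ℝ) (z : ℂ) (hz : 0 < z.im) (v : (Fin d → ℤ) → ℝ) (a : Fin d → ℤ)
    (r : ℝ) (hr : 0 < r) (e K : ℝ)
    (h1 : ‖Ps B lam (z + (r : ℂ) * Complex.I) v a a - Ps B lam z v a a‖ ≤ e)
    (h2 : ‖Ps B lam z v a a‖ ≤ K) :
    ‖∑' x, Ps B lam z v a x ^ 2‖ ≤ e / r + r * (1 / z.im) ^ 2 * K := by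
  obtain ⟨w, hw⟩ : ∃ w, w = z + (r : ℂ) * Complex.I := ⟨_, rfl⟩
  have hwi : w.im = z.im + r := by rw [hw]; simp
  have hw0 : 0 < w.im := by rw [hwi]; linarith
  have hwz : w - z = (r : ℂ) * Complex.I := by rw [hw]; ring
  have hnwz : ‖w - z‖ = r := by
    rw [hwz, norm_mul, Complex.norm_I, mul_one, Complex.norm_real, Real.norm_of_nonneg hr.le]
  rw [← hw] at h1
  obtain ⟨N2, hN2⟩ : ∃ N2, N2 = ∑' x, ‖Ps B lam z v a x‖ ^ 2 := ⟨_, rfl⟩
  have hN0 : 0 ≤ N2 := by rw [hN2]; exact tsum_nonneg fun x => by positivity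
  have hsz := coord_sq B (Vr lam v) (fun _ => 0) z a
  have hsw := coord_sq B (Vr lam v) (fun _ => 0) w a
  -- the difference
  have hdiff : ∑' x, ‖Ps B lam w v a x - Ps B lam z v a x‖ ^ 2 ≤
      (r * ‖Rz (TT B (Vr lam v) (fun _ => 0)) z (dv (([], a) : Vt d))‖ / w.im) ^ 2 := by
    have k1 := comp_tsum (fun x : Fin d → ℤ => (([], x) : Vt d)) root_inj
      (Rz (TT B (Vr lam v) (fun _ => 0)) w (dv ([], a)) -
        Rz (TT B (Vr lam v) (fun _ => 0)) z (dv ([], a)))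
    refine k1.trans ?_
    have k2 := rz_two _ (TT_sa B (Vr lam v) (fun _ => 0)) w z hw0 hz (dv (([], a) : Vt d))
    rw [hnwz] at k2
    gcongr
  have hn : ‖Rz (TT B (Vr lam v) (fun _ => 0)) z (dv (([], a) : Vt d))‖ ^ 2 =
      (Ps B lam z v a a).im / z.im := by
    have k1 := GG_im B (Vr lam v) (fun _ => 0) z hz.ne' (([], a) : Vt d)
    unfold Ps
    rw [k1]
    field_simp
  have hN2b : N2 = (Ps B lam z v a a).im / z.im := by
    rw [hN2, ← ps_ward B lam z hz v a]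
    field_simp
  have hK0 : 0 ≤ K := (norm_nonneg _).trans h2
  have him : (Ps B lam z v a a).im ≤ K := (Complex.im_le_norm _).trans h2
  have him0 : 0 ≤ (Ps B lam z v a a).im := by
    rw [← ps_ward B lam z hz v a, ← hN2]
    positivity
  -- Cauchy-Schwarz
  have hs1 : Summable fun x => ‖Ps B lam z v a x‖ ^ 2 := hsz
  have hs3 : Summable fun x => ‖Ps B lam w v a x‖ ^ 2 := hsw
  have hs2 : Summable fun x => ‖Ps B lam w v a x - Ps B lam z v a x‖ ^ 2 := by
    refine Summable.of_nonneg_of_le (fun x => by positivity) (fun x => ?_)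
      ((hs3.mul_left 2).add (hs1.mul_left 2))
    have h1 := norm_sub_le (Ps B lam w v a x) (Ps B lam z v a x)
    have h2 : ‖Ps B lam w v a x - Ps B lam z v a x‖ ^ 2 ≤
        (‖Ps B lam w v a x‖ + ‖Ps B lam z v a x‖) ^ 2 := by gcongr
    nlinarith [sq_nonneg (‖Ps B lam w v a x‖ - ‖Ps B lam z v a x‖)]
  obtain ⟨c1, c2⟩ := cs_tsum (f := fun x => ‖Ps B lam z v a x‖)
    (g := fun x => ‖Ps B lam w v a x - Ps B lam z v a x‖) hs1 hs2
  obtain ⟨c3, c4⟩ := cs_tsum (f := fun x => ‖Ps B lam z v a x‖)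
    (g := fun x => ‖Ps B lam w v a x‖) hs1 hs3
  obtain ⟨c5, c6⟩ := cs_tsum (f := fun x => ‖Ps B lam z v a x‖)
    (g := fun x => ‖Ps B lam z v a x‖) hs1 hs1
  have hp1 : Summable fun x => Ps B lam z v a x * Ps B lam w v a x :=
    Summable.of_norm (by simpa only [norm_mul] using c3)
  have hp2 : Summable fun x => Ps B lam z v a x *
      (Ps B lam w v a x - Ps B lam z v a x) := by
    refine Summable.of_norm ?_
    simpa only [norm_mul] using c1
  have hsplit : ∑' x, Ps B lam z v a x ^ 2 = ∑' x, Ps B lam z v a x * Ps B lam w v a x -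
      ∑' x, Ps B lam z v a x * (Ps B lam w v a x - Ps B lam z v a x) := by
    rw [← hp1.tsum_sub hp2]
    refine tsum_congr fun x => ?_
    ring
  have hfirst : ‖∑' x, Ps B lam z v a x * Ps B lam w v a x‖ ≤ e / r := by
    have k1 := ps_diff B lam w z hw0 hz v a
    rw [k1, norm_mul, hnwz] at h1
    rw [le_div_iff₀ hr, mul_comm]
    exact h1
  have hsecond : ‖∑' x, Ps B lam z v a x * (Ps B lam w v a x - Ps B lam z v a x)‖ ≤
      r * (1 / z.im) ^ 2 * K := by
    have k1 : ‖∑' x, Ps B lam z v a x * (Ps B lam w v a x - Ps B lam z v a x)‖ ≤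
        ∑' x, ‖Ps B lam z v a x‖ * ‖Ps B lam w v a x - Ps B lam z v a x‖ := by
      refine (norm_tsum_le_tsum_norm hp2.norm).trans (le_of_eq ?_)
      exact tsum_congr fun x => norm_mul _ _
    refine k1.trans ?_
    have k3 : (∑' x, ‖Ps B lam z v a x‖ * ‖Ps B lam w v a x - Ps B lam z v a x‖) ^ 2 ≤
        (r * (1 / z.im) ^ 2 * K) ^ 2 := by
      refine c2.trans ?_
      rw [← hN2]
      calc N2 * ∑' x, ‖Ps B lam w v a x - Ps B lam z v a x‖ ^ 2 ≤
          N2 * (r * ‖Rz (TT B (Vr lam v) (fun _ => 0)) z (dv (([], a) : Vt d))‖ / w.im) ^ 2 := by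
            gcongr
        _ = ((Ps B lam z v a a).im / z.im) * (r ^ 2 * ((Ps B lam z v a a).im / z.im) /
            w.im ^ 2) := by
            rw [div_pow, mul_pow, hn, hN2b]
        _ ≤ (K / z.im) * (r ^ 2 * (K / z.im) / z.im ^ 2) := by
            have : z.im ≤ w.im := by rw [hwi]; linarith
            gcongr
        _ = _ := by
            field_simp
    exact (pow_le_pow_iff_left₀ (tsum_nonneg fun x => by positivity) (by positivity)
      two_ne_zero).1 k3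
  rw [hsplit]
  exact (norm_sub_le _ _).trans (add_le_add hfirst hsecond)

/-- **decay** -/
theorem decay (B lam : ℝ) (z : ℂ) (hz : 0 < z.im) (v : (Fin d → ℤ) → ℝ) (a y : Fin d → ℤ)
    (i : Fin d) : |((y i - a i : ℤ) : ℝ)| * ‖Ps B lam z v a y‖ ≤ 2 / z.im ^ 2 := by
  obtain ⟨N, hN⟩ : ∃ N : ℝ, N = |((y i - a i : ℤ) : ℝ)| := ⟨_, rfl⟩
  have hN0 : 0 ≤ N := by rw [hN]; positivity
  obtain ⟨f, hf⟩ : ∃ f : ℝ → ℝ, f = clp N := ⟨_, rfl⟩
  have hflip : ∀ s t : ℝ, |f s - f t| ≤ |s - t| := by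
    intro s t
    rw [hf]
    unfold clp
    refine (abs_max_sub_max_le_max _ _ _ _).trans ?_
    rw [sub_self, abs_zero]
    refine max_le (abs_nonneg _) ?_
    refine (abs_min_sub_min_le_max _ _ _ _).trans ?_
    rw [sub_self, abs_zero]
    exact max_le (abs_nonneg _) le_rfl
  have hfb : ∀ s, |f s| ≤ N := by
    intro s
    rw [hf]
    have := clp_abs N s
    rwa [abs_of_nonneg hN0] at this
  have hf0 : f 0 = 0 := by rw [hf]; exact clp_zero N
  obtain ⟨u, hu⟩ : ∃ u, u = Ps B lam z v a := ⟨_, rfl⟩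
  have hus : Summable fun x => ‖u x‖ ^ 2 := by rw [hu]; exact coord_sq B _ _ z a
  obtain ⟨p, hp⟩ : ∃ p : (Fin d → ℤ) → ℝ, p = fun x => f ((x i - a i : ℤ) : ℝ) := ⟨_, rfl⟩
  obtain ⟨χ, hχ⟩ : ∃ χ : (Fin d → ℤ) → ℂ, χ = fun x => ((p x : ℝ) : ℂ) * u x := ⟨_, rfl⟩
  obtain ⟨Fx, hFx⟩ : ∃ Fx : (Fin d → ℤ) → ℂ, Fx = fun x =>
    ((p x - p (x + Pi.single i 1) : ℝ) : ℂ) * u (x + Pi.single i 1) +
    ((p x - p (x - Pi.single i 1) : ℝ) : ℂ) * u (x - Pi.single i 1) := ⟨_, rfl⟩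
  have hχs : Summable fun x => ‖χ x‖ ^ 2 := by
    refine Summable.of_nonneg_of_le (fun x => by positivity) (fun x => ?_) (hus.mul_left (N ^ 2))
    rw [hχ]
    simp only
    rw [norm_mul, mul_pow, Complex.norm_real, Real.norm_eq_abs, hp]
    have := hfb ((x i - a i : ℤ) : ℝ)
    gcongr
  have hp1 : ∀ x, |p x - p (x + Pi.single i 1)| ≤ 1 := by
    intro x
    rw [hp]
    refine (hflip _ _).trans (le_of_eq ?_)
    simp
  have hp2 : ∀ x, |p x - p (x - Pi.single i 1)| ≤ 1 := by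
    intro x
    rw [hp]
    refine (hflip _ _).trans (le_of_eq ?_)
    simp
  have hFb : ∀ x, ‖Fx x‖ ^ 2 ≤ 2 * ‖u (x + Pi.single i 1)‖ ^ 2 + 2 * ‖u (x - Pi.single i 1)‖ ^ 2 := by
    intro x
    have k1 : ‖Fx x‖ ≤ ‖u (x + Pi.single i 1)‖ + ‖u (x - Pi.single i 1)‖ := by
      rw [hFx]
      refine (norm_add_le _ _).trans (add_le_add ?_ ?_)
      · rw [norm_mul, Complex.norm_real, Real.norm_eq_abs]
        have := hp1 x
        nlinarith [norm_nonneg (u (x + Pi.single i 1))]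
      · rw [norm_mul, Complex.norm_real, Real.norm_eq_abs]
        have := hp2 x
        nlinarith [norm_nonneg (u (x - Pi.single i 1))]
    have k2 : ‖Fx x‖ ^ 2 ≤ (‖u (x + Pi.single i 1)‖ + ‖u (x - Pi.single i 1)‖) ^ 2 := by gcongr
    nlinarith [sq_nonneg (‖u (x + Pi.single i 1)‖ - ‖u (x - Pi.single i 1)‖)]
  have hup : Summable fun x : Fin d → ℤ => ‖u (x + Pi.single i 1)‖ ^ 2 :=
    hus.comp_injective (add_left_injective (Pi.single i 1 : Fin d → ℤ))
  have hum : Summable fun x : Fin d → ℤ => ‖u (x - Pi.single i 1)‖ ^ 2 :=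
    hus.comp_injective (sub_left_injective (b := (Pi.single i 1 : Fin d → ℤ)))
  have hFs : Summable fun x => ‖Fx x‖ ^ 2 :=
    Summable.of_nonneg_of_le (fun x => by positivity) hFb ((hup.mul_left 2).add (hum.mul_left 2))
  have heq : ∀ x, -S χ x + (((2 * d + clp B (lam * v x) : ℝ) : ℂ) - z - (fun _ => (0 : ℂ)) x) * χ x =
      Fx x := by
    intro x
    have h1 := ps_eq B lam z hz.ne' v a x
    rw [← hu] at h1
    have hpa : ((p x : ℝ) : ℂ) * (if x = a then (1 : ℂ) else 0) = 0 := by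
      split_ifs with hx
      · subst hx
        rw [hp]
        simp [hf0]
      · simp
    have hS : S χ x = ((p x : ℝ) : ℂ) * S u x - Fx x := by
      unfold S
      have hj : ∀ j : Fin d, j ≠ i → p (x + Pi.single j 1) = p x ∧ p (x - Pi.single j 1) = p x := by
        intro j hji
        rw [hp]
        simp [Pi.single_eq_of_ne hji.symm]
      rw [Finset.mul_sum, ← Finset.add_sum_erase _ _ (Finset.mem_univ i),
        ← Finset.add_sum_erase _ _ (Finset.mem_univ i)]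
      have hrest : ∑ j ∈ Finset.univ.erase i, (χ (x + Pi.single j 1) + χ (x - Pi.single j 1)) =
          ∑ j ∈ Finset.univ.erase i, ((p x : ℝ) : ℂ) *
            (u (x + Pi.single j 1) + u (x - Pi.single j 1)) := by
        refine Finset.sum_congr rfl fun j hj' => ?_
        obtain ⟨k1, k2⟩ := hj j (Finset.ne_of_mem_erase hj')
        rw [hχ]
        simp only
        rw [k1, k2]
        ring
      rw [hrest, hFx, hχ]
      push_cast
      ring
    have hχx : χ x = ((p x : ℝ) : ℂ) * u x := by rw [hχ]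
    rw [hS, hχx]
    linear_combination ((p x : ℝ) : ℂ) * h1 + hpa
  have hen := energy (fun x => 2 * d + clp B (lam * v x)) z (fun _ => 0) 0 (fun x => by simp)
    χ Fx hχs hFs heq
  simp only [Complex.zero_im, add_zero] at hen
  rw [tsum_mul_left] at hen
  obtain ⟨X2, hX2⟩ : ∃ X2, X2 = ∑' x, ‖χ x‖ ^ 2 := ⟨_, rfl⟩
  obtain ⟨F2, hF2⟩ : ∃ F2, F2 = ∑' x, ‖Fx x‖ ^ 2 := ⟨_, rfl⟩
  have hX0 : 0 ≤ X2 := by rw [hX2]; exact tsum_nonneg fun x => by positivity
  have hF20 : 0 ≤ F2 := by rw [hF2]; exact tsum_nonneg fun x => by positivity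
  have hF2b : F2 ≤ 4 * (1 / z.im) ^ 2 := by
    have k1 := hFs.tsum_le_tsum hFb ((hup.mul_left 2).add (hum.mul_left 2))
    rw [Summable.tsum_add (hup.mul_left 2) (hum.mul_left 2), tsum_mul_left, tsum_mul_left] at k1
    have k2 : ∑' x : Fin d → ℤ, ‖u (x + Pi.single i 1)‖ ^ 2 = ∑' x, ‖u x‖ ^ 2 :=
      (Equiv.addRight (Pi.single i 1 : Fin d → ℤ)).tsum_eq fun x => ‖u x‖ ^ 2
    have k3 : ∑' x : Fin d → ℤ, ‖u (x - Pi.single i 1)‖ ^ 2 = ∑' x, ‖u x‖ ^ 2 :=
      (Equiv.subRight (Pi.single i 1 : Fin d → ℤ)).tsum_eq fun x => ‖u x‖ ^ 2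
    have k4 := ps_norm B lam z hz v a
    rw [← hu] at k4
    rw [k2, k3] at k1
    rw [hF2]
    linarith
  have hcs : z.im * X2 ≤ Real.sqrt (X2 * F2) := by
    rw [hX2, hen]
    obtain ⟨c1, c2⟩ := cs_tsum (f := fun x => ‖χ x‖) (g := fun x => ‖Fx x‖) hχs hFs
    rw [← hX2, ← hF2] at c2
    rw [← hX2]
    refine (neg_le_abs _).trans ((Complex.abs_im_le_norm _).trans ?_)
    have k1 : ‖∑' x, (starRingEnd ℂ) (χ x) * Fx x‖ ≤ ∑' x, ‖χ x‖ * ‖Fx x‖ := by
      refine (norm_tsum_le_tsum_norm (by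
        simpa only [norm_mul, Complex.norm_conj] using c1)).trans (le_of_eq ?_)
      refine tsum_congr fun x => ?_
      rw [norm_mul, Complex.norm_conj]
    refine k1.trans ?_
    exact Real.le_sqrt_of_sq_le c2
  have hX2b : X2 ≤ (2 / z.im ^ 2) ^ 2 := by
    have k1 : (z.im * X2) ^ 2 ≤ X2 * F2 := by
      have := pow_le_pow_left₀ (by positivity) hcs 2
      rwa [Real.sq_sqrt (by positivity)] at this
    rcases hX0.eq_or_lt with h0 | h0
    · rw [← h0]
      positivity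
    · have k2 : X2 * (z.im ^ 2 * X2) ≤ X2 * F2 := by
        calc X2 * (z.im ^ 2 * X2) = (z.im * X2) ^ 2 := by ring
          _ ≤ _ := k1
      have k3 := le_of_mul_le_mul_left k2 h0
      have k4 : z.im ^ 2 * X2 ≤ 4 * (1 / z.im) ^ 2 := k3.trans hF2b
      have k5 : X2 ≤ 4 * (1 / z.im) ^ 2 / z.im ^ 2 := by
        rw [le_div_iff₀ (by positivity)]
        linarith
      refine k5.trans (le_of_eq ?_)
      field_simp
      norm_num
  have hfin : ‖χ y‖ ^ 2 ≤ (2 / z.im ^ 2) ^ 2 := by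
    refine le_trans ?_ hX2b
    rw [hX2]
    exact hχs.le_tsum y (fun x _ => by positivity)
  have hχy : ‖χ y‖ = N * ‖u y‖ := by
    rw [hχ]
    simp only
    rw [norm_mul, Complex.norm_real, Real.norm_eq_abs, hp]
    simp only
    rw [hf, clp_eq (by rw [← hN, abs_of_nonneg hN0]), hN]
  rw [hχy] at hfin
  rw [← hN, ← hu]
  exact (pow_le_pow_iff_left₀ (by positivity) (by positivity) two_ne_zero).1 hfin

end Pool.Agent.Y662.TR
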