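import Mathlib

/-! The hyperbolic functional `|a - b|² / (Im a Im b)` of two points of the upper half-plane. -/

set_option autoImplicit false

open scoped BigOperators

namespace Pool.Agent.Y662.TR

/-- `|a - b|² / (Im a Im b)` -/
noncomputable def hu (a b : ℂ) : ℝ := ‖a - b‖ ^ 2 / (a.im * b.im)

theorem hu_nonneg {a b : ℂ} (ha : 0 < a.im) (hb : 0 < b.im) : 0 ≤ hu a b := by
  unfold hu
  positivity

theorem hu_self (a : ℂ) : hu a a = 0 := by
  unfold hu
  simp

theorem hu_comm (a b : ℂ) : hu a b = hu b a := by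
  unfold hu
  rw [norm_sub_rev, mul_comm]

theorem hu_mul {a b : ℂ} (ha : 0 < a.im) (hb : 0 < b.im) :
    ‖a - b‖ ^ 2 = hu a b * (a.im * b.im) := by
  unfold hu
  field_simp

theorem im_sub_sq (a b : ℂ) : (a.im - b.im) ^ 2 ≤ ‖a - b‖ ^ 2 := by
  have h := Complex.abs_im_le_norm (a - b)
  rw [Complex.sub_im] at h
  rw [← sq_abs (a.im - b.im)]
  exact pow_le_pow_left₀ (abs_nonneg _) h 2

theorem hu_im {a b : ℂ} (ha : 0 < a.im) (hb : 0 < b.im) : a.im ≤ (hu a b + 2) * b.im := by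
  have h1 := im_sub_sq a b
  rw [hu_mul ha hb] at h1
  have h2 : a.im ^ 2 ≤ (hu a b + 2) * b.im * a.im := by nlinarith [sq_nonneg b.im]
  have h3 : a.im * a.im ≤ (hu a b + 2) * b.im * a.im := by
    calc a.im * a.im = a.im ^ 2 := by ring
      _ ≤ _ := h2
  exact le_of_mul_le_mul_right h3 ha

theorem hu_sq {a b : ℂ} (ha : 0 < a.im) (hb : 0 < b.im) :
    ‖a - b‖ ^ 2 ≤ hu a b * (hu a b + 2) * b.im ^ 2 := by
  rw [hu_mul ha hb]
  have h1 := hu_im ha hb
  have h2 := hu_nonneg ha hb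
  calc hu a b * (a.im * b.im) ≤ hu a b * (((hu a b + 2) * b.im) * b.im) := by gcongr
    _ = _ := by ring

/-- the exponential of the hyperbolic distance -/
noncomputable def kd (a b : UpperHalfPlane) : ℝ := Real.exp (dist a b)

theorem cosh_hu (a b : UpperHalfPlane) : Real.cosh (dist a b) = 1 + hu a b / 2 := by
  rw [UpperHalfPlane.cosh_dist]
  unfold hu
  rw [Complex.dist_eq]
  have h1 := a.im_pos
  have h2 := b.im_pos
  rw [UpperHalfPlane.coe_im, UpperHalfPlane.coe_im]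
  field_simp

theorem tri (a b c : UpperHalfPlane) :
    hu a c ≤ Real.exp (dist b c) * hu a b + 2 * (Real.exp (dist b c) - 1) := by
  have h1 := cosh_hu a c
  have h2 := cosh_hu a b
  have h3 : Real.cosh (dist a c) ≤ Real.cosh (dist a b + dist b c) := by
    rw [Real.cosh_le_cosh, abs_of_nonneg dist_nonneg, abs_of_nonneg (by positivity)]
    exact dist_triangle a b c
  have h4 : Real.cosh (dist a b + dist b c) ≤ Real.cosh (dist a b) * Real.exp (dist b c) := by
    rw [Real.cosh_add, ← Real.cosh_add_sinh (dist b c), mul_add]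
    have h5 : Real.sinh (dist a b) ≤ Real.cosh (dist a b) := (Real.sinh_lt_cosh _).le
    have h6 : 0 ≤ Real.sinh (dist b c) := Real.sinh_nonneg_iff.2 dist_nonneg
    nlinarith
  rw [h1] at h3
  rw [h2] at h4
  nlinarith

theorem exp_le (b c : UpperHalfPlane) : Real.exp (dist b c) ≤ 2 + hu b c := by
  have h1 := cosh_hu b c
  rw [Real.cosh_eq] at h1
  have h2 := Real.exp_pos (-dist b c)
  linarith

theorem exp_sub_le {b c : UpperHalfPlane} (h : hu b c ≤ 1) :
    Real.exp (dist b c) - 1 ≤ 2 * Real.sqrt (hu b c) := by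
  have h0 : 0 ≤ hu b c := hu_nonneg b.im_pos c.im_pos
  have h1 := cosh_hu b c
  have h2 := Real.cosh_sq (dist b c)
  have h3 : Real.sinh (dist b c) ^ 2 = hu b c * (1 + hu b c / 4) := by
    rw [h1] at h2
    nlinarith
  have h4 : 0 ≤ Real.sinh (dist b c) := Real.sinh_nonneg_iff.2 dist_nonneg
  have h5 := Real.sq_sqrt h0
  have h6 := Real.sqrt_nonneg (hu b c)
  have h7 : Real.sqrt (hu b c) ≤ 1 := by
    have := Real.sqrt_le_sqrt h
    rwa [Real.sqrt_one] at this
  have h8 : Real.sinh (dist b c) ≤ (3 / 2) * Real.sqrt (hu b c) := by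
    apply le_of_sq_le_sq _ (by positivity)
    rw [h3, mul_pow, h5]
    nlinarith
  have h9 : Real.exp (dist b c) = Real.cosh (dist b c) + Real.sinh (dist b c) :=
    (Real.cosh_add_sinh _).symm
  rw [h9, h1]
  nlinarith

/-- the triangle inequality near a point -/
theorem tri_near {a b c : ℂ} (ha : 0 < a.im) (hb : 0 < b.im) (hc : 0 < c.im) {ε : ℝ}
    (hε : 0 ≤ ε) (hε1 : ε ≤ 1) (h : hu b c ≤ ε ^ 2) :
    hu a c ≤ (1 + 2 * ε) * hu a b + 4 * ε := by
  have h1 := tri ⟨a, ha⟩ ⟨b, hb⟩ ⟨c, hc⟩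
  have h2 := exp_sub_le (b := ⟨b, hb⟩) (c := ⟨c, hc⟩) (le_trans h (by nlinarith))
  have h3 : Real.sqrt (hu b c) ≤ ε := by
    rw [Real.sqrt_le_left hε]
    exact h
  have h0 := hu_nonneg ha hb
  simp only at h1 h2
  nlinarith

/-- the crude triangle inequality -/
theorem tri_far {a b c : ℂ} (ha : 0 < a.im) (hb : 0 < b.im) (hc : 0 < c.im) :
    hu a c ≤ (2 + hu b c) * (hu a b + 2) := by
  have h1 := tri ⟨a, ha⟩ ⟨b, hb⟩ ⟨c, hc⟩
  have h2 := exp_le ⟨b, hb⟩ ⟨c, hc⟩
  have h0 := hu_nonneg ha hb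
  simp only at h1 h2
  nlinarith

end Pool.Agent.Y662.TR
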