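import Mathlib

/-! Composition and multiplication operators on `ℓ²(ι)`. -/

set_option autoImplicit false
set_option linter.unusedSectionVars false

open scoped BigOperators InnerProductSpace Topology
open Filter

namespace Pool.Agent.Y662.TR

/-- the Hilbert space `ℓ²(ι)` -/
abbrev LL (ι : Type) : Type := lp (fun _ : ι => ℂ) 2

section basic

variable {ι : Type}

theorem ll_sum (u : LL ι) : HasSum (fun x => ‖u x‖ ^ 2) (‖u‖ ^ 2) := by
  have h := lp.hasSum_norm (p := 2) (by norm_num) u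
  simpa using h

theorem ll_summable (u : LL ι) : Summable fun x => ‖u x‖ ^ 2 := (ll_sum u).summable

theorem ll_mem (u : ι → ℂ) (h : Summable fun x => ‖u x‖ ^ 2) : Memℓp u 2 := by
  rw [memℓp_gen_iff (by norm_num)]
  simpa using h

/-- an element of `ℓ²(ι)` -/
def lmk (u : ι → ℂ) (h : Summable fun x => ‖u x‖ ^ 2) : LL ι := ⟨u, ll_mem u h⟩

theorem lmk_apply (u : ι → ℂ) (h : Summable fun x => ‖u x‖ ^ 2) (x : ι) : lmk u h x = u x := rfl

theorem lmk_norm (u : ι → ℂ) (h : Summable fun x => ‖u x‖ ^ 2) :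
    ‖lmk u h‖ ^ 2 = ∑' x, ‖u x‖ ^ 2 := (ll_sum (lmk u h)).tsum_eq.symm

theorem lmk_le (u : ι → ℂ) (h : Summable fun x => ‖u x‖ ^ 2) (C : ℝ) (hC : 0 ≤ C)
    (h2 : ∑' x, ‖u x‖ ^ 2 ≤ C ^ 2) : ‖lmk u h‖ ≤ C := by
  rw [← lmk_norm u h] at h2
  exact (pow_le_pow_iff_left₀ (norm_nonneg _) hC two_ne_zero).1 h2

theorem ll_inner (u v : LL ι) : HasSum (fun x => (starRingEnd ℂ) (u x) * v x) ⟪u, v⟫_ℂ := by
  have h := lp.hasSum_inner (𝕜 := ℂ) u v
  have h2 : (fun x => ⟪u x, v x⟫_ℂ) = fun x => (starRingEnd ℂ) (u x) * v x := by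
    funext x
    rw [RCLike.inner_apply, mul_comm]
  rw [h2] at h
  exact h

theorem ll_coord (u : LL ι) (x : ι) : ‖u x‖ ≤ ‖u‖ := lp.norm_apply_le_norm (by norm_num) u x

/-- evaluation -/
noncomputable def ev (x : ι) : LL ι →L[ℂ] ℂ :=
  LinearMap.mkContinuous
    { toFun := fun u => u x
      map_add' := fun _ _ => rfl
      map_smul' := fun _ _ => rfl } 1 (fun u => by
      rw [one_mul]
      exact ll_coord u x)

theorem ev_apply (x : ι) (u : LL ι) : ev x u = u x := rfl

theorem add_coord (u v : LL ι) (x : ι) : (u + v : LL ι) x = u x + v x := rfl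
theorem sub_coord (u v : LL ι) (x : ι) : (u - v : LL ι) x = u x - v x := rfl
theorem neg_coord (u : LL ι) (x : ι) : (-u : LL ι) x = -u x := rfl
theorem smul_coord (c : ℂ) (u : LL ι) (x : ι) : (c • u : LL ι) x = c * u x := rfl

theorem ll_ext {u v : LL ι} (h : ∀ x, u x = v x) : u = v := by
  apply lp.ext
  funext x
  exact h x

open Classical in
/-- the unit vector -/
noncomputable def dv (a : ι) : LL ι := lp.single (E := fun _ : ι => ℂ) 2 a (1 : ℂ)

open Classical in
theorem inner_dv (a : ι) (u : LL ι) : ⟪dv a, u⟫_ℂ = u a := by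
  unfold dv
  rw [lp.inner_single_left]
  simp

open Classical in
theorem dv_apply (a x : ι) : dv a x = if x = a then 1 else 0 := by
  unfold dv
  rw [lp.single_apply]
  by_cases h : x = a
  · subst h
    simp
  · rw [if_neg h, Pi.single_eq_of_ne h]

theorem dv_self (a : ι) : dv a a = 1 := by
  rw [dv_apply, if_pos rfl]

theorem dv_ne {a x : ι} (h : x ≠ a) : dv a x = 0 := by
  rw [dv_apply, if_neg h]

theorem norm_dv (a : ι) : ‖dv a‖ = 1 := by
  have h := inner_self_eq_norm_sq_to_K (𝕜 := ℂ) (dv a)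
  rw [inner_dv, dv_self] at h
  have h2 : ((‖dv a‖ ^ 2 : ℝ) : ℂ) = ((1 : ℝ) : ℂ) := by
    push_cast
    exact h.symm
  have h3 : ‖dv a‖ ^ 2 = 1 := by exact_mod_cast h2
  have h4 : ‖dv a‖ ^ 2 = 1 ^ 2 := by rw [h3]; norm_num
  exact (pow_left_inj₀ (norm_nonneg _) zero_le_one two_ne_zero).1 h4

end basic

section comp

variable {ι κ : Type}

theorem comp_sum (f : κ → ι) (hf : Function.Injective f) (u : LL ι) :
    Summable fun x => ‖u (f x)‖ ^ 2 := (ll_summable u).comp_injective hf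

theorem comp_tsum (f : κ → ι) (hf : Function.Injective f) (u : LL ι) :
    ∑' x, ‖u (f x)‖ ^ 2 ≤ ‖u‖ ^ 2 := by
  rw [← (ll_sum u).tsum_eq]
  exact tsum_comp_le_tsum_of_inj (ll_summable u) (fun x => by positivity) hf

/-- composition with an injective map -/
noncomputable def Cf (f : κ → ι) (hf : Function.Injective f) : LL ι →L[ℂ] LL κ :=
  LinearMap.mkContinuous
    { toFun := fun u => lmk (fun x => u (f x)) (comp_sum f hf u)
      map_add' := fun u v => rfl
      map_smul' := fun c u => rfl } 1 (fun u => by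
      rw [one_mul]
      exact lmk_le _ (comp_sum f hf u) _ (norm_nonneg _) (comp_tsum f hf u))

theorem Cf_apply (f : κ → ι) (hf : Function.Injective f) (u : LL ι) (x : κ) :
    Cf f hf u x = u (f x) := rfl

theorem Cf_norm (f : κ → ι) (hf : Function.Injective f) : ‖Cf f hf‖ ≤ 1 :=
  LinearMap.mkContinuous_norm_le _ zero_le_one _

theorem Cf_dv (f : κ → ι) (hf : Function.Injective f) (a : κ) : Cf f hf (dv (f a)) = dv a := by
  apply ll_ext
  intro x
  rw [Cf_apply]
  by_cases h : x = a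
  · subst h
    rw [dv_self, dv_self]
  · rw [dv_ne h, dv_ne (fun h2 => h (hf h2))]

theorem Cf_dv_ne (f : κ → ι) (hf : Function.Injective f) (b : ι) (hb : ∀ a, f a ≠ b) :
    Cf f hf (dv b) = 0 := by
  apply ll_ext
  intro x
  rw [Cf_apply, dv_ne (hb x)]
  rfl

/-- the adjoint, at a point of the range -/
theorem Cf_adj (f : κ → ι) (hf : Function.Injective f) (u : LL κ) (a : κ) :
    ContinuousLinearMap.adjoint (Cf f hf) u (f a) = u a := by
  rw [← inner_dv (f a), ContinuousLinearMap.adjoint_inner_right, Cf_dv, inner_dv]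

/-- the adjoint, outside of the range -/
theorem Cf_adj_ne (f : κ → ι) (hf : Function.Injective f) (u : LL κ) (b : ι)
    (hb : ∀ a, f a ≠ b) : ContinuousLinearMap.adjoint (Cf f hf) u b = 0 := by
  rw [← inner_dv b, ContinuousLinearMap.adjoint_inner_right, Cf_dv_ne f hf b hb, inner_zero_left]

theorem Cf_adj_norm (f : κ → ι) (hf : Function.Injective f) :
    ‖ContinuousLinearMap.adjoint (Cf f hf)‖ ≤ 1 := by
  rw [LinearIsometryEquiv.norm_map]
  exact Cf_norm f hf

end comp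

section mult

variable {ι : Type}

/-- the number `x` clipped to `[-|B|, |B|]` -/
noncomputable def clp (B x : ℝ) : ℝ := max (-|B|) (min |B| x)

theorem clp_abs (B x : ℝ) : |clp B x| ≤ |B| := by
  have h := abs_nonneg B
  unfold clp
  rw [abs_le]
  constructor
  · exact le_max_left _ _
  · exact max_le (by linarith) (min_le_left _ _)

theorem clp_eq {B x : ℝ} (h : |x| ≤ |B|) : clp B x = x := by
  obtain ⟨h1, h2⟩ := abs_le.1 h
  unfold clp
  rw [min_eq_right h2, max_eq_right h1]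

theorem clp_cont (B : ℝ) : Continuous (clp B) := by
  unfold clp
  fun_prop

theorem mul_sum (B : ℝ) (w : ι → ℝ) (u : LL ι) :
    Summable (fun x => ‖((clp B (w x) : ℝ) : ℂ) * u x‖ ^ 2) ∧
      ∑' x, ‖((clp B (w x) : ℝ) : ℂ) * u x‖ ^ 2 ≤ (|B| * ‖u‖) ^ 2 := by
  have h0 : ∀ x, ‖((clp B (w x) : ℝ) : ℂ) * u x‖ ^ 2 ≤ |B| ^ 2 * ‖u x‖ ^ 2 := by
    intro x
    rw [norm_mul, mul_pow, Complex.norm_real, Real.norm_eq_abs]
    have := clp_abs B (w x)
    gcongr
  have h1 : Summable fun x => |B| ^ 2 * ‖u x‖ ^ 2 := (ll_summable u).mul_left _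
  have h2 : Summable fun x => ‖((clp B (w x) : ℝ) : ℂ) * u x‖ ^ 2 :=
    Summable.of_nonneg_of_le (fun x => by positivity) h0 h1
  refine ⟨h2, (h2.tsum_le_tsum h0 h1).trans (le_of_eq ?_)⟩
  rw [tsum_mul_left, (ll_sum u).tsum_eq, mul_pow]

/-- multiplication with the clipped function -/
noncomputable def Mw (B : ℝ) (w : ι → ℝ) : LL ι →L[ℂ] LL ι :=
  LinearMap.mkContinuous
    { toFun := fun u => lmk (fun x => ((clp B (w x) : ℝ) : ℂ) * u x) (mul_sum B w u).1
      map_add' := fun u v => by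
        ext x
        change ((clp B (w x) : ℝ) : ℂ) * (u x + v x) =
          ((clp B (w x) : ℝ) : ℂ) * u x + ((clp B (w x) : ℝ) : ℂ) * v x
        ring
      map_smul' := fun c u => by
        ext x
        change ((clp B (w x) : ℝ) : ℂ) * (c * u x) = c * (((clp B (w x) : ℝ) : ℂ) * u x)
        ring } |B| (fun u => by
      exact lmk_le _ (mul_sum B w u).1 _ (by positivity) (mul_sum B w u).2)

theorem Mw_apply (B : ℝ) (w : ι → ℝ) (u : LL ι) (x : ι) :
    Mw B w u x = ((clp B (w x) : ℝ) : ℂ) * u x := rfl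

theorem Mw_norm (B : ℝ) (w : ι → ℝ) : ‖Mw B w‖ ≤ |B| :=
  LinearMap.mkContinuous_norm_le _ (abs_nonneg B) _

theorem Mw_sa (B : ℝ) (w : ι → ℝ) : IsSelfAdjoint (Mw B w) := by
  rw [ContinuousLinearMap.isSelfAdjoint_iff_isSymmetric]
  intro u v
  refine (ll_inner (Mw B w u) v).unique ?_
  have h := ll_inner u (Mw B w v)
  have h2 : (fun x => (starRingEnd ℂ) (Mw B w u x) * v x) =
      fun x => (starRingEnd ℂ) (u x) * Mw B w v x := by
    funext x
    rw [Mw_apply, Mw_apply, map_mul, Complex.conj_ofReal]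
    ring
  rw [h2]
  exact h

/-- strong continuity -/
theorem Mw_tendsto {α : Type*} {F : Filter α} (B : ℝ) (w : α → ι → ℝ) (w0 : ι → ℝ)
    (h : ∀ x, Tendsto (fun k => w k x) F (𝓝 (w0 x))) (u : LL ι) :
    Tendsto (fun k => Mw B (w k) u) F (𝓝 (Mw B w0 u)) := by
  rw [tendsto_iff_norm_sub_tendsto_zero]
  have h1 : ∀ k, ‖Mw B (w k) u - Mw B w0 u‖ ^ 2 =
      ∑' x, ‖((clp B (w k x) - clp B (w0 x) : ℝ) : ℂ) * u x‖ ^ 2 := by
    intro k
    rw [← (ll_sum (Mw B (w k) u - Mw B w0 u)).tsum_eq]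
    refine tsum_congr fun x => ?_
    rw [sub_coord, Mw_apply, Mw_apply]
    push_cast
    rw [sub_mul]
  have h2 : Tendsto (fun k => ‖Mw B (w k) u - Mw B w0 u‖ ^ 2) F (𝓝 0) := by
    simp only [h1]
    have h3 := tendsto_tsum_of_dominated_convergence (𝓕 := F)
      (f := fun k x => ‖((clp B (w k x) - clp B (w0 x) : ℝ) : ℂ) * u x‖ ^ 2)
      (g := fun _ => (0 : ℝ)) (bound := fun x => (2 * |B|) ^ 2 * ‖u x‖ ^ 2)
      ((ll_summable u).mul_left _) (fun x => ?_) (Eventually.of_forall fun k x => ?_)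
    · simpa using h3
    · have h4 : Tendsto (fun k => clp B (w k x) - clp B (w0 x)) F (𝓝 0) := by
        have h5 := (((clp_cont B).tendsto (w0 x)).comp (h x)).sub_const (clp B (w0 x))
        simpa using h5
      have h6 : Tendsto (fun k => ‖((clp B (w k x) - clp B (w0 x) : ℝ) : ℂ) * u x‖ ^ 2) F
          (𝓝 (‖((0 : ℝ) : ℂ) * u x‖ ^ 2)) :=
        ((((Complex.continuous_ofReal.tendsto 0).comp h4).mul_const (u x)).norm).pow 2
      simpa using h6
    · rw [Real.norm_of_nonneg (by positivity), norm_mul, mul_pow, Complex.norm_real,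
        Real.norm_eq_abs]
      have h7 := clp_abs B (w k x)
      have h8 := clp_abs B (w0 x)
      have h9 : |clp B (w k x) - clp B (w0 x)| ≤ 2 * |B| := by
        refine (abs_sub _ _).trans ?_
        linarith
      gcongr
  have h3 := h2.sqrt
  rw [Real.sqrt_zero] at h3
  refine h3.congr fun k => ?_
  rw [Real.sqrt_sq (norm_nonneg _)]

end mult

end Pool.Agent.Y662.TR
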