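import Pool.Agent.Y662.TR.Crit
import Pool.Agent.Y662.TR.L2
import Pool.Agent.Y662.TR.Hp
import Pool.Agent.Y662.TR.Der

/-! From moment bounds to absolutely continuous spectrum. -/

set_option autoImplicit false
set_option linter.unusedSectionVars false

open scoped BigOperators InnerProductSpace Topology ENNReal
open MeasureTheory Filter

namespace Pool.Agent.Y662.TR

open Pool.Agent.TH369.AN (Rz rz_eq rz_uniq rz_norm)
open Pool.Agent.TH369.MU (SpM ep zk qk Fk qk_sq qk_add qk_sum qk_nonneg spm_exists poisson_ae)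
open Pool.Agent.TH369.MU.PO2 (ep_pos ep_tendsto)
open Pool.Agent.W883.LL (P P_nonneg P_cont)
open Pool.Agent.TH794.LL2 (Po Po_int Po_im)

section det

variable {X : Type} [NormedAddCommGroup X] [InnerProductSpace ℂ X] [CompleteSpace X]

theorem zk_eq (E : ℝ) (k : ℕ) : zk E k = (E : ℂ) + (ep k : ℂ) * Complex.I := rfl

/-- the seminorms are Poisson integrals -/
theorem qk_po (T : X →L[ℂ] X) (hT : IsSelfAdjoint T) (φ : X) (m : Measure ℝ) (hm : SpM T φ m)
    (E : ℝ) (k : ℕ) : qk T E k φ ^ 2 = Po m E (ep k) := by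
  haveI := hm.1
  rw [qk_sq T hT E k φ]
  unfold Fk
  rw [hm.2 _ (by rw [zk_eq]; simp [(ep_pos k).ne']), zk_eq, Po_im m E (ep k) (ep_pos k)]

theorem spm_mass (T : X →L[ℂ] X) (hT : IsSelfAdjoint T) (φ : X) :
    ∃ m : Measure ℝ, SpM T φ m ∧ m.real Set.univ = ‖φ‖ ^ 2 := by
  obtain ⟨m, hm, hu⟩ := spm_exists T hT φ
  refine ⟨m, hm, ?_⟩
  rw [measureReal_def, hu, ENNReal.toReal_ofReal (by positivity)]

/-- measurability in the energy -/
theorem qk_ae (T : X →L[ℂ] X) (hT : IsSelfAdjoint T) (φ : X) (k : ℕ) (U : Set ℝ) :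
    AEMeasurable (fun E => ENNReal.ofReal (qk T E k φ ^ 2)) (volume.restrict U) := by
  obtain ⟨m, hm, hu⟩ := spm_mass T hT φ
  haveI := hm.1
  simp only [qk_po T hT φ m hm]
  have := (po_mass m (ep k) (ep_pos k)).1.aestronglyMeasurable.aemeasurable.ennreal_ofReal
  exact this.restrict

/-- the total mass -/
theorem qk_mass (T : X →L[ℂ] X) (hT : IsSelfAdjoint T) (φ : X) (k : ℕ) (U : Set ℝ) :
    ∫⁻ E in U, ENNReal.ofReal (qk T E k φ ^ 2) ≤ ENNReal.ofReal (4 * ‖φ‖ ^ 2) := by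
  obtain ⟨m, hm, hu⟩ := spm_mass T hT φ
  haveI := hm.1
  simp only [qk_po T hT φ m hm]
  obtain ⟨h1, h2⟩ := po_mass m (ep k) (ep_pos k)
  refine (setLIntegral_le_lintegral _ _).trans ?_
  rw [← ofReal_integral_eq_lintegral_ofReal h1
    (Eventually.of_forall fun E => po_nonneg m E (ep k) (ep_pos k)), h2, hu]
  have := Real.pi_lt_four
  gcongr

/-- Hölder -/
theorem holder_half (f : ℝ → ENNReal) (U : Set ℝ) (hf : AEMeasurable f (volume.restrict U))
    (C : ENNReal) (h : ∫⁻ E in U, f E ^ 2 ≤ C) :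
    ∫⁻ E in U, f E ≤ C ^ (1 / 2 : ℝ) * (volume U) ^ (1 / 2 : ℝ) := by
  have h1 := ENNReal.lintegral_mul_le_Lp_mul_Lq (volume.restrict U) Real.HolderConjugate.two_two
    hf (aemeasurable_const (b := (1 : ENNReal)))
  simp only [Pi.mul_apply, mul_one, ENNReal.one_rpow, lintegral_const, one_mul,
    Measure.restrict_apply_univ] at h1
  refine h1.trans ?_
  gcongr
  refine le_trans (le_of_eq ?_) h
  refine lintegral_congr fun E => ?_
  rw [← ENNReal.rpow_natCast]
  norm_num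

end det

section vec

variable {ι : Type}

theorem approx (g : LL ι) (ε : ℝ) (hε : 0 < ε) :
    ∃ s : Finset ι, ‖g - ∑ x ∈ s, g x • dv x‖ ≤ ε := by
  classical
  have h1 : HasSum (fun x : ι => g x • dv x) g := by
    have h2 := lp.hasSum_single (p := 2) (by norm_num) g
    have h0 : (fun x : ι => g x • dv x) = fun x : ι => lp.single 2 x (g x) := by
      funext x
      apply ll_ext
      intro y
      rw [smul_coord]
      by_cases hy : y = x
      · subst hy
        rw [dv_self, mul_one, lp.single_apply_self]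
      · rw [dv_ne hy, mul_zero, lp.single_apply, Pi.single_eq_of_ne hy]
    rw [h0]
    exact h2
  obtain ⟨s, hs⟩ := (Metric.tendsto_atTop.1 h1) ε hε
  refine ⟨s, ?_⟩
  have h4 := hs s le_rfl
  rw [dist_comm, dist_eq_norm] at h4
  exact h4.le

/-- **from the sites to all vectors** -/
theorem all_vec (T : LL ι →L[ℂ] LL ι) (hT : IsSelfAdjoint T) (α β : ℝ)
    (h : ∀ s : Finset ι, ∃ C : ENNReal, C ≠ ∞ ∧ ∃ᶠ k in atTop, ∀ v ∈ s,
      ∫⁻ E in Set.Ioo α β, ENNReal.ofReal (qk T E k (dv v) ^ 2) ^ 2 ≤ C)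
    (φ : LL ι) (m : Measure ℝ) (hm : SpM T φ m) (A : Set ℝ) (hA : A ⊆ Set.Ioo α β)
    (h0 : volume A = 0) : m A = 0 := by
  haveI := hm.1
  have key : ∀ δ : ℝ, 0 < δ → m A ≤ ENNReal.ofReal (8 * δ ^ 2) := by
    intro δ hδ
    obtain ⟨s, hs⟩ := approx φ δ hδ
    obtain ⟨C, hC, hfreq⟩ := h s
    obtain ⟨r, hr⟩ : ∃ r, r = φ - ∑ x ∈ s, φ x • dv x := ⟨_, rfl⟩
    rw [← hr] at hs
    obtain ⟨N, hN⟩ : ∃ N, N = 2 * ∑ x ∈ s, ‖φ x‖ ^ 2 := ⟨_, rfl⟩
    have hN0 : 0 ≤ N := by rw [hN]; positivity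
    refine crit m α β (ENNReal.ofReal N * (s.card * C ^ (1 / 2 : ℝ))) _
      (ENNReal.mul_ne_top ENNReal.ofReal_ne_top (ENNReal.mul_ne_top (ENNReal.natCast_ne_top _)
        (ENNReal.rpow_ne_top_of_nonneg (by norm_num) hC))) ?_ A hA h0
    refine hfreq.mono fun k hk U hUo hU => ?_
    have hpt : ∀ E, qk T E k φ ^ 2 ≤ N * ∑ x ∈ s, qk T E k (dv x) ^ 2 + 2 * qk T E k r ^ 2 := by
      intro E
      have h1 : φ = (∑ x ∈ s, φ x • dv x) + r := by rw [hr]; abel
      have h2 := qk_add T E k (∑ x ∈ s, φ x • dv x) r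
      rw [← h1] at h2
      have h3 := qk_sum T E k s (fun x => φ x) dv
      have h4 : qk T E k φ ≤ (∑ x ∈ s, ‖φ x‖ * qk T E k (dv x)) + qk T E k r := by linarith
      have h5 : qk T E k φ ^ 2 ≤ ((∑ x ∈ s, ‖φ x‖ * qk T E k (dv x)) + qk T E k r) ^ 2 :=
        pow_le_pow_left₀ (qk_nonneg _ _ _ _) h4 2
      have h6 := Finset.sum_mul_sq_le_sq_mul_sq s (fun x => ‖φ x‖) (fun x => qk T E k (dv x))
      rw [hN]
      nlinarith [sq_nonneg ((∑ x ∈ s, ‖φ x‖ * qk T E k (dv x)) - qk T E k r)]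
    calc ∫⁻ E in U, ENNReal.ofReal (Po m E (ep k)) =
          ∫⁻ E in U, ENNReal.ofReal (qk T E k φ ^ 2) := by
            simp only [qk_po T hT φ m hm]
      _ ≤ ∫⁻ E in U, (ENNReal.ofReal N * ∑ x ∈ s, ENNReal.ofReal (qk T E k (dv x) ^ 2) +
            2 * ENNReal.ofReal (qk T E k r ^ 2)) := by
            refine lintegral_mono fun E => ?_
            refine (ENNReal.ofReal_le_ofReal (hpt E)).trans (le_of_eq ?_)
            rw [ENNReal.ofReal_add (mul_nonneg hN0 (Finset.sum_nonneg fun x _ => sq_nonneg _))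
              (by positivity), ENNReal.ofReal_mul hN0, ENNReal.ofReal_mul (by norm_num),
              ENNReal.ofReal_sum_of_nonneg (fun x _ => sq_nonneg _)]
            norm_num
      _ = ENNReal.ofReal N * ∑ x ∈ s, (∫⁻ E in U, ENNReal.ofReal (qk T E k (dv x) ^ 2)) +
            2 * ∫⁻ E in U, ENNReal.ofReal (qk T E k r ^ 2) := by
            have m1 : AEMeasurable (fun E => ∑ x ∈ s, ENNReal.ofReal (qk T E k (dv x) ^ 2))
                (volume.restrict U) :=
              Finset.aemeasurable_fun_sum s fun x _ => qk_ae T hT (dv x) k U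
            rw [lintegral_add_left' (m1.const_mul _), lintegral_const_mul'' _ m1,
              lintegral_finsetSum' s fun x _ => qk_ae T hT (dv x) k U,
              lintegral_const_mul'' _ (qk_ae T hT r k U)]
      _ ≤ ENNReal.ofReal N * ∑ x ∈ s, C ^ (1 / 2 : ℝ) * (volume U) ^ (1 / 2 : ℝ) +
            2 * ENNReal.ofReal (4 * ‖r‖ ^ 2) := by
            gcongr with x hx
            · refine holder_half _ U (qk_ae T hT (dv x) k U) C ?_
              exact (lintegral_mono_set hU).trans (hk x hx)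
            · exact qk_mass T hT r k U
      _ ≤ ENNReal.ofReal N * (s.card * C ^ (1 / 2 : ℝ)) * (volume U) ^ (1 / 2 : ℝ) +
            ENNReal.ofReal (8 * δ ^ 2) := by
            rw [Finset.sum_const, nsmul_eq_mul]
            refine add_le_add (le_of_eq (by ring)) ?_
            have h7 : ‖r‖ ^ 2 ≤ δ ^ 2 := by gcongr
            have h8 : ∀ x : ℝ, 2 * ENNReal.ofReal x = ENNReal.ofReal (2 * x) := by
              intro x
              rw [ENNReal.ofReal_mul (by norm_num)]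
              norm_num
            rw [h8]
            apply ENNReal.ofReal_le_ofReal
            linarith
  have h2 : Tendsto (fun n : ℕ => ENNReal.ofReal (8 * (1 / ((n : ℝ) + 1)) ^ 2)) atTop
      (𝓝 (ENNReal.ofReal (8 * 0 ^ 2))) :=
    (ENNReal.continuous_ofReal.tendsto _).comp
      ((tendsto_one_div_add_atTop_nhds_zero_nat.pow 2).const_mul 8)
  have h3 := ge_of_tendsto' h2 (fun n => key _ (by positivity))
  simpa using h3

end vec

section prob

variable {Ω : Type} [MeasurableSpace Ω]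

/-- Fatou's lemma in the environment -/
theorem fatou_om (P : Measure Ω) [IsProbabilityMeasure P] (f : ℕ → ℝ → Ω → ENNReal)
    (hf : ∀ k, Measurable (Function.uncurry (f k))) (I : Set ℝ) (hI : MeasurableSet I)
    (hIv : volume I ≠ ∞) (C : ENNReal) (hC : C ≠ ∞) (k0 : ℕ)
    (h : ∀ k, k0 ≤ k → ∀ E ∈ I, ∫⁻ ω, f k E ω ∂P ≤ C) :
    ∀ᵐ ω ∂P, liminf (fun k => ∫⁻ E in I, f k E ω) atTop < ∞ := by
  have hm : ∀ k, Measurable fun ω => ∫⁻ E in I, f k E ω := by
    intro k
    exact Measurable.lintegral_prod_left' (hf k)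
  have h1 : ∫⁻ ω, liminf (fun k => ∫⁻ E in I, f k E ω) atTop ∂P ≤ C * volume I := by
    refine (lintegral_liminf_le (μ := P) (u := atTop) (f := fun k ω => ∫⁻ E in I, f k E ω)
      hm).trans ?_
    refine liminf_le_of_frequently_le' (Filter.Eventually.frequently ?_)
    filter_upwards [eventually_ge_atTop k0] with k hk
    have h2 : ∫⁻ ω, (∫⁻ E in I, f k E ω) ∂P = ∫⁻ E in I, (∫⁻ ω, f k E ω ∂P) :=
      (lintegral_lintegral_swap (μ := volume.restrict I) (ν := P) (f := f k)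
        (hf k).aemeasurable).symm
    rw [h2]
    calc ∫⁻ E in I, (∫⁻ ω, f k E ω ∂P) ≤ ∫⁻ _ in I, C :=
          setLIntegral_mono' hI fun E hE => h k hk E hE
      _ = C * volume I := by rw [setLIntegral_const]
  have h3 : ∫⁻ ω, liminf (fun k => ∫⁻ E in I, f k E ω) atTop ∂P ≠ ∞ :=
    (h1.trans_lt (ENNReal.mul_lt_top hC.lt_top hIv.lt_top)).ne
  refine ae_lt_top ?_ h3
  exact Measurable.liminf hm

end prob

end Pool.Agent.Y662.TR
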