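import Pool.Agent.Y662.TR.Mod

/-! The tree of sheets: the resolvent. -/

set_option autoImplicit false
set_option linter.unusedSectionVars false

open scoped BigOperators InnerProductSpace Topology
open Filter

namespace Pool.Agent.Y662.TR

open Pool.Agent.TH369.AN (Rz rz_eq rz_uniq rz_norm)

section cont

variable {d : ℕ}

theorem KK_tendsto {α : Type*} {F : Filter α} (B : ℝ) (w : α → Vt d → ℝ) (w0 : Vt d → ℝ)
    (h : ∀ x, Tendsto (fun k => w k x) F (𝓝 (w0 x))) (u : LL (Vt d)) :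
    Tendsto (fun k => KK B (w k) u) F (𝓝 (KK B w0 u)) :=
  Mw_tendsto B w w0 h (Cf ch ch_inj u)

theorem KK_adj_tendsto {α : Type*} {F : Filter α} (B : ℝ) (w : α → Vt d → ℝ) (w0 : Vt d → ℝ)
    (h : ∀ x, Tendsto (fun k => w k x) F (𝓝 (w0 x))) (u : LL (Vt d)) :
    Tendsto (fun k => ContinuousLinearMap.adjoint (KK B (w k)) u) F
      (𝓝 (ContinuousLinearMap.adjoint (KK B w0) u)) := by
  simp only [KK_adj]
  exact ((ContinuousLinearMap.adjoint (Cf (ch (d := d)) ch_inj)).continuous.tendsto _).comp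
    (Mw_tendsto B w w0 h u)

/-- strong continuity of the operator in the environment -/
theorem TT_tendsto {α : Type*} {F : Filter α} (B : ℝ) (V τ : α → Vt d → ℝ) (V0 τ0 : Vt d → ℝ)
    (hV : ∀ x, Tendsto (fun k => V k x) F (𝓝 (V0 x)))
    (hτ : ∀ x, Tendsto (fun k => τ k x) F (𝓝 (τ0 x))) (u : LL (Vt d)) :
    Tendsto (fun k => TT B (V k) (τ k) u) F (𝓝 (TT B V0 τ0 u)) := by
  unfold TT
  simp only [ContinuousLinearMap.add_apply, ContinuousLinearMap.sub_apply]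
  exact (((tendsto_const_nhds).add (Mw_tendsto B V V0 hV u)).sub tendsto_const_nhds).add
    ((KK_tendsto B τ τ0 hτ u).add (KK_adj_tendsto B τ τ0 hτ u))

theorem rz_sub (A : LL (Vt d) →L[ℂ] LL (Vt d)) (hA : IsSelfAdjoint A)
    (A' : LL (Vt d) →L[ℂ] LL (Vt d)) (hA' : IsSelfAdjoint A') (z : ℂ) (hz : z.im ≠ 0)
    (u : LL (Vt d)) : Rz A z u - Rz A' z u = Rz A z (A' (Rz A' z u) - A (Rz A' z u)) := by
  apply rz_uniq A hA z hz
  have h1 := rz_eq A hA z hz u
  have h2 := rz_eq A' hA' z hz u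
  rw [map_sub, smul_sub]
  have h4 : A' (Rz A' z u) = u + z • Rz A' z u := sub_eq_iff_eq_add.1 h2
  rw [h4]
  have h5 : A (Rz A z u) = u + z • Rz A z u := sub_eq_iff_eq_add.1 h1
  rw [h5]
  abel

/-- strong continuity of the resolvent in the environment -/
theorem Rz_tendsto {α : Type*} {F : Filter α} (B : ℝ) (V τ : α → Vt d → ℝ) (V0 τ0 : Vt d → ℝ)
    (hV : ∀ x, Tendsto (fun k => V k x) F (𝓝 (V0 x)))
    (hτ : ∀ x, Tendsto (fun k => τ k x) F (𝓝 (τ0 x))) (z : ℂ) (hz : z.im ≠ 0) (u : LL (Vt d)) :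
    Tendsto (fun k => Rz (TT B (V k) (τ k)) z u) F (𝓝 (Rz (TT B V0 τ0) z u)) := by
  rw [tendsto_iff_norm_sub_tendsto_zero]
  have h1 := TT_tendsto B V τ V0 τ0 hV hτ (Rz (TT B V0 τ0) z u)
  rw [tendsto_iff_norm_sub_tendsto_zero] at h1
  have h2 := h1.div_const |z.im|
  rw [zero_div] at h2
  refine squeeze_zero (fun k => norm_nonneg _) (fun k => ?_) h2
  rw [rz_sub _ (TT_sa _ _ _) _ (TT_sa _ _ _) z hz u]
  refine (rz_norm _ (TT_sa _ _ _) z hz _).trans (le_of_eq ?_)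
  rw [norm_sub_rev]

end cont

section green

variable {d : ℕ}

/-- the Green function -/
noncomputable def GG (B : ℝ) (V τ : Vt d → ℝ) (z : ℂ) (v w : Vt d) : ℂ :=
  Rz (TT B V τ) z (dv w) v

theorem GG_tendsto {α : Type*} {F : Filter α} (B : ℝ) (V τ : α → Vt d → ℝ) (V0 τ0 : Vt d → ℝ)
    (hV : ∀ x, Tendsto (fun k => V k x) F (𝓝 (V0 x)))
    (hτ : ∀ x, Tendsto (fun k => τ k x) F (𝓝 (τ0 x))) (z : ℂ) (hz : z.im ≠ 0) (v w : Vt d) :
    Tendsto (fun k => GG B (V k) (τ k) z v w) F (𝓝 (GG B V0 τ0 z v w)) := by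
  unfold GG
  simp only [← ev_apply v]
  exact ((ev v).continuous.tendsto _).comp (Rz_tendsto B V τ V0 τ0 hV hτ z hz (dv w))

/-- the bilinear form is symmetric -/
theorem bil_symm (B : ℝ) (V τ : Vt d → ℝ) (u v : LL (Vt d)) :
    ∑' x, TT B V τ u x * v x = ∑' x, u x * TT B V τ v x := by
  obtain ⟨w, hw⟩ : ∃ w : LL (Vt d), ∀ x, w x = (starRingEnd ℂ) (u x) :=
    ⟨lmk (fun x => (starRingEnd ℂ) (u x)) (by
      simpa only [Complex.norm_conj] using ll_summable u), fun x => rfl⟩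
  have h1 : ∀ x, TT B V τ w x = (starRingEnd ℂ) (TT B V τ u x) := by
    intro x
    rw [TT_apply, TT_apply]
    have h2 : par B τ (fun y => w y) x = (starRingEnd ℂ) (par B τ (fun y => u y) x) := by
      obtain ⟨l, y⟩ := x
      cases l with
      | nil =>
        unfold par
        simp
      | cons p l =>
        unfold par
        by_cases hy : y = 0
        · simp only [hy, if_true, map_mul, Complex.conj_ofReal, hw]
        · simp [hy]
    rw [h2]
    simp only [hw, map_add, map_neg, map_mul, map_sum, Complex.conj_ofReal]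
  have h2 := (ll_inner (TT B V τ w) v).tsum_eq
  have h3 := (ll_inner w (TT B V τ v)).tsum_eq
  have h4 : ⟪TT B V τ w, v⟫_ℂ = ⟪w, TT B V τ v⟫_ℂ :=
    (TT_sa B V τ).isSymmetric w v
  rw [← h2, ← h3] at h4
  simp only [h1, hw, Complex.conj_conj] at h4
  exact h4

theorem tsum_dv (u : Vt d → ℂ) (a : Vt d) : ∑' x, u x * dv a x = u a := by
  rw [tsum_eq_single a]
  · rw [dv_self, mul_one]
  · intro x hx
    rw [dv_ne hx, mul_zero]

theorem mul_summable (u v : LL (Vt d)) : Summable fun x => u x * v x := by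
  refine Summable.of_norm_bounded (g := fun x => ‖u x‖ ^ 2 + ‖v x‖ ^ 2)
    ((ll_summable u).add (ll_summable v)) fun x => ?_
  rw [norm_mul]
  nlinarith [sq_nonneg (‖u x‖ + ‖v x‖), sq_nonneg (‖u x‖ - ‖v x‖), sq_nonneg (‖u x‖),
    sq_nonneg ‖v x‖]

/-- the Green function is symmetric -/
theorem GG_symm (B : ℝ) (V τ : Vt d → ℝ) (z : ℂ) (hz : z.im ≠ 0) (v w : Vt d) :
    GG B V τ z v w = GG B V τ z w v := by
  obtain ⟨a, ha⟩ : ∃ a, a = Rz (TT B V τ) z (dv v) := ⟨_, rfl⟩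
  obtain ⟨b, hb⟩ : ∃ b, b = Rz (TT B V τ) z (dv w) := ⟨_, rfl⟩
  have h1 : TT B V τ a - z • a = dv v := by rw [ha]; exact rz_eq _ (TT_sa _ _ _) z hz _
  have h2 : TT B V τ b - z • b = dv w := by rw [hb]; exact rz_eq _ (TT_sa _ _ _) z hz _
  have h3 : ∀ x, TT B V τ a x = dv v x + z * a x := by
    intro x
    rw [← h1, sub_coord, smul_coord]
    ring
  have h4 : ∀ x, TT B V τ b x = dv w x + z * b x := by
    intro x
    rw [← h2, sub_coord, smul_coord]
    ring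
  have h5 := bil_symm B V τ a b
  have e1 : ∑' x, TT B V τ a x * b x = b v + z * ∑' x, a x * b x := by
    have : ∀ x, TT B V τ a x * b x = b x * dv v x + z * (a x * b x) := by
      intro x
      rw [h3]
      ring
    rw [tsum_congr this, Summable.tsum_add (mul_summable b (dv v))
      ((mul_summable a b).mul_left z), tsum_dv (fun x => b x), tsum_mul_left]
  have e2 : ∑' x, a x * TT B V τ b x = a w + z * ∑' x, a x * b x := by
    have : ∀ x, a x * TT B V τ b x = a x * dv w x + z * (a x * b x) := by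
      intro x
      rw [h4]
      ring
    rw [tsum_congr this, Summable.tsum_add (mul_summable a (dv w))
      ((mul_summable a b).mul_left z), tsum_dv (fun x => a x), tsum_mul_left]
  rw [e1, e2] at h5
  have h6 : b v = a w := add_right_cancel h5
  unfold GG
  rw [← ha, ← hb]
  exact h6

theorem GG_im (B : ℝ) (V τ : Vt d → ℝ) (z : ℂ) (hz : z.im ≠ 0) (v : Vt d) :
    (GG B V τ z v v).im = z.im * ‖Rz (TT B V τ) z (dv v)‖ ^ 2 := by
  have h : (inner ℂ (dv v) (Rz (TT B V τ) z (dv v))).im =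
      z.im * ‖Rz (TT B V τ) z (dv v)‖ ^ 2 :=
    Pool.Agent.H12R2.And.im_inner (TT_sa B V τ) hz (dv v)
  rw [inner_dv] at h
  exact h

/-- the constant in the lower bound of the Green function -/
noncomputable def cG (d : ℕ) (B : ℝ) (z : ℂ) : ℝ := z.im / (4 * d + 3 * |B| + ‖z‖) ^ 2

theorem norm_z_pos {z : ℂ} (hz : 0 < z.im) : 0 < ‖z‖ :=
  hz.trans_le (Complex.im_le_norm z)

theorem cG_pos (d : ℕ) (B : ℝ) {z : ℂ} (hz : 0 < z.im) : 0 < cG d B z := by
  unfold cG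
  have := norm_z_pos hz
  positivity

theorem GG_im_lower (B : ℝ) (V τ : Vt d → ℝ) (z : ℂ) (hz : 0 < z.im) (v : Vt d) :
    cG d B z ≤ (GG B V τ z v v).im := by
  rw [GG_im B V τ z hz.ne' v]
  have h1 := rz_eq _ (TT_sa B V τ) z hz.ne' (dv v)
  have h2 : 1 ≤ (4 * d + 3 * |B| + ‖z‖) * ‖Rz (TT B V τ) z (dv v)‖ := by
    rw [← norm_dv v]
    conv_lhs => rw [← h1]
    refine (norm_sub_le _ _).trans ?_
    rw [add_mul, norm_smul]
    gcongr
    refine ((TT B V τ).le_opNorm _).trans ?_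
    gcongr
    exact TT_norm B V τ
  have h3 : 0 < 4 * d + 3 * |B| + ‖z‖ := by
    have := norm_z_pos hz
    positivity
  unfold cG
  rw [div_eq_mul_one_div]
  have h4 : 1 / (4 * d + 3 * |B| + ‖z‖) ^ 2 ≤ ‖Rz (TT B V τ) z (dv v)‖ ^ 2 := by
    rw [div_le_iff₀ (by positivity)]
    calc (1 : ℝ) = 1 ^ 2 := by norm_num
      _ ≤ ((4 * d + 3 * |B| + ‖z‖) * ‖Rz (TT B V τ) z (dv v)‖) ^ 2 := by gcongr
      _ = _ := by ring
  gcongr

theorem GG_im_pos (B : ℝ) (V τ : Vt d → ℝ) (z : ℂ) (hz : 0 < z.im) (v : Vt d) :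
    0 < (GG B V τ z v v).im := (cG_pos d B hz).trans_le (GG_im_lower B V τ z hz v)

theorem GG_le (B : ℝ) (V τ : Vt d → ℝ) (z : ℂ) (hz : 0 < z.im) (v w : Vt d) :
    ‖GG B V τ z v w‖ ≤ 1 / z.im := by
  unfold GG
  refine (ll_coord _ v).trans ?_
  have h := rz_norm _ (TT_sa B V τ) z hz.ne' (dv w)
  rwa [norm_dv, abs_of_pos hz] at h

end green

section child

variable {d : ℕ}

/-- the resolvent restricted to a subtree -/
theorem rz_sub_apply (B : ℝ) (V τ : Vt d → ℝ) (z : ℂ) (hz : z.im ≠ 0) (y : Fin d → ℤ)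
    (l0 : List (Fin d → ℤ)) (f : LL (Vt d)) :
    Cf (jp (y :: l0)) (jp_inj _) (Rz (TT B V τ) z f) =
      Rz (TT B (V ∘ jp (y :: l0)) (τ ∘ jp (y :: l0))) z (Cf (jp (y :: l0)) (jp_inj _) f) -
      (((clp B (τ (l0, y)) : ℝ) : ℂ) * Rz (TT B V τ) z f (l0, y)) •
        Rz (TT B (V ∘ jp (y :: l0)) (τ ∘ jp (y :: l0))) z (dv (oo d)) := by
  obtain ⟨T', hT'⟩ : ∃ T', T' = TT B (V ∘ jp (y :: l0)) (τ ∘ jp (y :: l0)) := ⟨_, rfl⟩
  obtain ⟨u, hu⟩ : ∃ u, u = Rz (TT B V τ) z f := ⟨_, rfl⟩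
  obtain ⟨c, hc⟩ : ∃ c : ℂ, c = ((clp B (τ (l0, y)) : ℝ) : ℂ) * u (l0, y) := ⟨_, rfl⟩
  have hsa : IsSelfAdjoint T' := by rw [hT']; exact TT_sa _ _ _
  rw [← hT', ← hu, ← hc, ← map_smul, ← map_sub]
  apply rz_uniq T' hsa z hz
  apply ll_ext
  intro v
  rw [sub_coord, smul_coord, sub_coord, smul_coord, hT', sub_apply, ← hc]
  have h1 := rz_eq _ (TT_sa B V τ) z hz f
  rw [← hu] at h1
  have h2 : TT B V τ u (jp (y :: l0) v) - z * u (jp (y :: l0) v) = f (jp (y :: l0) v) := by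
    rw [← h1, sub_coord, smul_coord]
  rw [Cf_apply, Cf_apply, ← h2]
  ring

/-- the Green function of the subtree of the sheet attached to `(l0, y)`, at its origin -/
noncomputable def Gc (B : ℝ) (V τ : Vt d → ℝ) (z : ℂ) (l0 : List (Fin d → ℤ)) (y : Fin d → ℤ) : ℂ :=
  GG B (V ∘ jp (y :: l0)) (τ ∘ jp (y :: l0)) z (oo d) (oo d)

theorem ch_eq (l0 : List (Fin d → ℤ)) (y : Fin d → ℤ) :
    ch ((l0, y) : Vt d) = jp (y :: l0) (oo d) := rfl

/-- the value at the origin of an attached sheet, when the source is elsewhere -/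
theorem rz_child (B : ℝ) (V τ : Vt d → ℝ) (z : ℂ) (hz : z.im ≠ 0) (y : Fin d → ℤ)
    (l0 : List (Fin d → ℤ)) (a : Vt d) (ha : ∀ v, jp (y :: l0) v ≠ a) :
    Rz (TT B V τ) z (dv a) (ch (l0, y)) =
      -(((clp B (τ (l0, y)) : ℝ) : ℂ) * Rz (TT B V τ) z (dv a) (l0, y)) * Gc B V τ z l0 y := by
  have h1 := rz_sub_apply B V τ z hz y l0 (dv a)
  rw [Cf_dv_ne _ _ a ha, map_zero, zero_sub] at h1
  have h2 := congrArg (fun u : LL (Vt d) => u (oo d)) h1
  simp only [Cf_apply, neg_coord, smul_coord] at h2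
  rw [ch_eq, h2]
  unfold Gc GG
  ring

/-- **the equation of the root sheet** -/
theorem root_eq (B : ℝ) (V τ : Vt d → ℝ) (z : ℂ) (hz : z.im ≠ 0) (a x : Fin d → ℤ) :
    -∑ i : Fin d, (GG B V τ z ([], x + Pi.single i 1) ([], a) +
        GG B V τ z ([], x - Pi.single i 1) ([], a)) +
      (((2 * d + clp B (V ([], x)) : ℝ) : ℂ) - z -
        ((clp B (τ ([], x)) : ℝ) : ℂ) ^ 2 * Gc B V τ z [] x) * GG B V τ z ([], x) ([], a) =
      if x = a then 1 else 0 := by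
  have h1 := rz_eq _ (TT_sa B V τ) z hz (dv (([], a) : Vt d))
  have h2 : TT B V τ (Rz (TT B V τ) z (dv ([], a))) ([], x) -
      z * Rz (TT B V τ) z (dv ([], a)) ([], x) = dv (([], a) : Vt d) ([], x) := by
    conv_rhs => rw [← h1, sub_coord, smul_coord]
  rw [TT_apply, rz_child B V τ z hz x [] ([], a) (by
    rintro ⟨l, x'⟩ h
    unfold jp at h
    simp at h)] at h2
  have h3 : dv (([], a) : Vt d) ([], x) = if x = a then (1 : ℂ) else 0 := by
    by_cases hx : x = a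
    · subst hx
      rw [dv_self, if_pos rfl]
    · rw [dv_ne (by
        intro h
        simp only [Prod.mk.injEq, true_and] at h
        exact hx h), if_neg hx]
  rw [← h3, ← h2]
  have h4 : par B τ (fun w => Rz (TT B V τ) z (dv ([], a)) w) (([], x) : Vt d) = 0 := rfl
  rw [h4]
  unfold GG
  ring

end child

end Pool.Agent.Y662.TR
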