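import Pool.Agent.Y662.TR.Res

/-! Deeper vertices, truncated trees and the convergence of the truncations. -/

set_option autoImplicit false
set_option linter.unusedSectionVars false

open scoped BigOperators InnerProductSpace Topology
open Filter

namespace Pool.Agent.Y662.TR

open Pool.Agent.TH369.AN (Rz rz_eq rz_uniq rz_norm)

variable {d : ℕ}

theorem im_form {X : Type} [NormedAddCommGroup X] [InnerProductSpace ℂ X] [CompleteSpace X]
    (T : X →L[ℂ] X) (hT : IsSelfAdjoint T) (z : ℂ) (f h : X) (hf : T f - z • f = h) :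
    (⟪h, f⟫_ℂ).im = z.im * ‖f‖ ^ 2 := by
  have h1 : (⟪T f, f⟫_ℂ).im = 0 := by
    have h2 := hT.isSymmetric f f
    have h3 : (starRingEnd ℂ) ⟪T f, f⟫_ℂ = ⟪T f, f⟫_ℂ := by
      rw [inner_conj_symm]
      exact h2.symm
    exact Complex.conj_eq_iff_im.mp h3
  rw [← hf, inner_sub_left, inner_smul_left, inner_self_eq_norm_sq_to_K, Complex.sub_im, h1]
  have h4 : ((‖f‖ : ℂ) ^ 2) = ((‖f‖ ^ 2 : ℝ) : ℂ) := by push_cast; rfl
  have h5 : ((RCLike.ofReal ‖f‖ : ℂ) ^ 2) = ((‖f‖ ^ 2 : ℝ) : ℂ) := by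
    rw [← h4]
    rfl
  rw [h5, Complex.im_mul_ofReal, Complex.conj_im]
  ring

/-- the energy in an attached subtree, when the source is elsewhere -/
theorem child_energy (B : ℝ) (V τ : Vt d → ℝ) (z : ℂ) (hz : 0 < z.im) (y : Fin d → ℤ)
    (l0 : List (Fin d → ℤ)) (a : Vt d) (ha : ∀ v, jp (y :: l0) v ≠ a) :
    clp B (τ (l0, y)) ^ 2 * ‖GG B V τ z (l0, y) a‖ ^ 2 * (Gc B V τ z l0 y).im ≤
      (GG B V τ z a a).im := by
  have h1 := rz_sub_apply B V τ z hz.ne' y l0 (dv a)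
  rw [Cf_dv_ne _ _ a ha, map_zero, zero_sub] at h1
  have h2 : ‖Cf (jp (y :: l0)) (jp_inj _) (Rz (TT B V τ) z (dv a))‖ ≤ ‖Rz (TT B V τ) z (dv a)‖ := by
    refine (ContinuousLinearMap.le_opNorm _ _).trans ?_
    have := Cf_norm (jp (y :: l0)) (jp_inj (d := d) _)
    nlinarith [norm_nonneg (Rz (TT B V τ) z (dv a))]
  rw [h1, norm_neg, norm_smul, norm_mul, Complex.norm_real, Real.norm_eq_abs] at h2
  have h3 := GG_im B V τ z hz.ne' a
  have h4 := GG_im B (V ∘ jp (y :: l0)) (τ ∘ jp (y :: l0)) z hz.ne' (oo d)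
  have h5 := pow_le_pow_left₀ (by positivity) h2 2
  rw [mul_pow, mul_pow, sq_abs] at h5
  unfold Gc
  rw [h3, h4]
  unfold GG
  calc _ = z.im * (clp B (τ (l0, y)) ^ 2 * ‖Rz (TT B V τ) z (dv a) (l0, y)‖ ^ 2 *
        ‖Rz (TT B (V ∘ jp (y :: l0)) (τ ∘ jp (y :: l0))) z (dv (oo d))‖ ^ 2) := by ring
    _ ≤ _ := by gcongr

/-- the Green function of a vertex in a subtree -/
theorem in_sub (B : ℝ) (V τ : Vt d → ℝ) (z : ℂ) (hz : 0 < z.im) (y : Fin d → ℤ)
    (l0 : List (Fin d → ℤ)) (v : Vt d) :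
    ‖GG B V τ z (jp (y :: l0) v) (jp (y :: l0) v)‖ ≤
      ‖GG B (V ∘ jp (y :: l0)) (τ ∘ jp (y :: l0)) z v v‖ +
      ‖GG B (V ∘ jp (y :: l0)) (τ ∘ jp (y :: l0)) z v (oo d)‖ ^ 2 / (Gc B V τ z l0 y).im := by
  obtain ⟨T', hT'⟩ : ∃ T', T' = TT B (V ∘ jp (y :: l0)) (τ ∘ jp (y :: l0)) := ⟨_, rfl⟩
  obtain ⟨u, hu⟩ : ∃ u, u = Rz (TT B V τ) z (dv (jp (y :: l0) v)) := ⟨_, rfl⟩
  obtain ⟨s, hs⟩ : ∃ s : ℂ, s = -(((clp B (τ (l0, y)) : ℝ) : ℂ) * u (l0, y)) := ⟨_, rfl⟩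
  obtain ⟨f, hf⟩ : ∃ f, f = Cf (jp (y :: l0)) (jp_inj _) u := ⟨_, rfl⟩
  have hsa : IsSelfAdjoint T' := by rw [hT']; exact TT_sa _ _ _
  have h1 : f = Rz T' z (dv v) + s • Rz T' z (dv (oo d)) := by
    rw [hf, hu, rz_sub_apply B V τ z hz.ne' y l0, Cf_dv, ← hu, ← hT', hs, neg_smul]
    abel
  have h2 : T' f - z • f = dv v + s • dv (oo d) := by
    have e1 := rz_eq T' hsa z hz.ne' (dv v)
    have e2 := rz_eq T' hsa z hz.ne' (dv (oo d))
    rw [h1, map_add, map_smul, smul_add]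
    calc _ = (T' (Rz T' z (dv v)) - z • Rz T' z (dv v)) +
          s • (T' (Rz T' z (dv (oo d))) - z • Rz T' z (dv (oo d))) := by
            rw [smul_sub, smul_comm z s]
            abel
      _ = _ := by rw [e1, e2]
  have h3 := im_form T' hsa z f _ h2
  rw [inner_add_left, inner_smul_left, inner_dv, inner_dv] at h3
  have h4 := im_form (TT B V τ) (TT_sa B V τ) z u (dv (jp (y :: l0) v)) (by
    rw [hu]
    exact rz_eq _ (TT_sa B V τ) z hz.ne' _)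
  rw [inner_dv] at h4
  have h5 : f v = u (jp (y :: l0) v) := by rw [hf, Cf_apply]
  have h6 : ‖f‖ ≤ ‖u‖ := by
    rw [hf]
    refine (ContinuousLinearMap.le_opNorm _ _).trans ?_
    have := Cf_norm (jp (y :: l0)) (jp_inj (d := d) _)
    nlinarith [norm_nonneg u]
  have h7 : ((starRingEnd ℂ) s * f (oo d)).im ≤ 0 := by
    rw [Complex.add_im, h5, h4] at h3
    have h8 : ‖f‖ ^ 2 ≤ ‖u‖ ^ 2 := by gcongr
    nlinarith
  have h8 : f (oo d) = Rz T' z (dv v) (oo d) + s * Rz T' z (dv (oo d)) (oo d) := by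
    rw [h1, add_coord, smul_coord]
  have hG : Rz T' z (dv (oo d)) (oo d) = Gc B V τ z l0 y := by
    unfold Gc GG
    rw [hT']
  have hpos : 0 < (Gc B V τ z l0 y).im := by
    unfold Gc
    exact GG_im_pos _ _ _ _ hz _
  have h9 : ‖s‖ * (Gc B V τ z l0 y).im ≤ ‖Rz T' z (dv v) (oo d)‖ := by
    rw [h8, hG, mul_add, Complex.add_im] at h7
    have e1 : ((starRingEnd ℂ) s * (s * Gc B V τ z l0 y)).im = ‖s‖ ^ 2 * (Gc B V τ z l0 y).im := by
      rw [← mul_assoc, ← Complex.normSq_eq_conj_mul_self, Complex.im_ofReal_mul,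
        Complex.normSq_eq_norm_sq]
    rw [e1] at h7
    have e2 : -((starRingEnd ℂ) s * Rz T' z (dv v) (oo d)).im ≤ ‖s‖ * ‖Rz T' z (dv v) (oo d)‖ := by
      refine (neg_le_abs _).trans ((Complex.abs_im_le_norm _).trans ?_)
      rw [norm_mul, Complex.norm_conj]
    rcases (norm_nonneg s).eq_or_lt with h0 | h0
    · rw [← h0, zero_mul]
      exact norm_nonneg _
    · have e3 : ‖s‖ * (‖s‖ * (Gc B V τ z l0 y).im) ≤ ‖s‖ * ‖Rz T' z (dv v) (oo d)‖ := by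
        calc _ = ‖s‖ ^ 2 * (Gc B V τ z l0 y).im := by ring
          _ ≤ _ := by linarith
      exact le_of_mul_le_mul_left e3 h0
  have h10 : GG B V τ z (jp (y :: l0) v) (jp (y :: l0) v) =
      GG B (V ∘ jp (y :: l0)) (τ ∘ jp (y :: l0)) z v v +
      s * GG B (V ∘ jp (y :: l0)) (τ ∘ jp (y :: l0)) z v (oo d) := by
    unfold GG
    rw [← hu, ← h5, h1, add_coord, smul_coord, hT']
  have h11 : Rz T' z (dv v) (oo d) = GG B (V ∘ jp (y :: l0)) (τ ∘ jp (y :: l0)) z v (oo d) := by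
    rw [GG_symm _ _ _ _ hz.ne']
    unfold GG
    rw [hT']
  rw [h10]
  refine (norm_add_le _ _).trans (add_le_add le_rfl ?_)
  rw [norm_mul, le_div_iff₀ hpos]
  rw [h11] at h9
  obtain ⟨r, hr⟩ : ∃ r, r = ‖GG B (V ∘ jp (y :: l0)) (τ ∘ jp (y :: l0)) z v (oo d)‖ := ⟨_, rfl⟩
  rw [← hr] at h9 ⊢
  have hr0 : 0 ≤ r := by rw [hr]; exact norm_nonneg _
  nlinarith

/-- **the Green function of a deeper vertex** -/
theorem deep (B : ℝ) (V τ : Vt d → ℝ) (z : ℂ) (hz : 0 < z.im) (y : Fin d → ℤ)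
    (l0 : List (Fin d → ℤ)) (x : Fin d → ℤ) (hτ : clp B (τ (y :: l0, x)) ≠ 0) :
    ‖GG B V τ z (y :: l0, x) (y :: l0, x)‖ ≤
      ‖GG B (V ∘ jp (y :: l0)) (τ ∘ jp (y :: l0)) z ([], x) ([], x)‖ +
      1 / (clp B (τ (y :: l0, x)) ^ 2 *
        (Gc B (V ∘ jp (y :: l0)) (τ ∘ jp (y :: l0)) z [] x).im) := by
  have h1 := in_sub B V τ z hz y l0 ([], x)
  have h2 : jp (y :: l0) (([], x) : Vt d) = (y :: l0, x) := rfl
  rw [h2] at h1
  refine h1.trans (add_le_add le_rfl ?_)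
  have h3 := child_energy B (V ∘ jp (y :: l0)) (τ ∘ jp (y :: l0)) z hz x [] (oo d) (by
    rintro ⟨l, x'⟩ h
    unfold jp oo at h
    simp at h)
  have h4 : (τ ∘ jp (y :: l0)) (([], x) : Vt d) = τ (y :: l0, x) := rfl
  rw [h4] at h3
  have hp1 : 0 < (Gc B V τ z l0 y).im := by
    unfold Gc
    exact GG_im_pos _ _ _ _ hz _
  have hp2 : 0 < (Gc B (V ∘ jp (y :: l0)) (τ ∘ jp (y :: l0)) z [] x).im := by
    unfold Gc
    exact GG_im_pos _ _ _ _ hz _
  have h5 : (GG B (V ∘ jp (y :: l0)) (τ ∘ jp (y :: l0)) z (oo d) (oo d)).im =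
      (Gc B V τ z l0 y).im := rfl
  rw [h5] at h3
  rw [div_le_div_iff₀ hp1 (by positivity), one_mul]
  calc _ = clp B (τ (y :: l0, x)) ^ 2 *
        ‖GG B (V ∘ jp (y :: l0)) (τ ∘ jp (y :: l0)) z ([], x) (oo d)‖ ^ 2 *
        (Gc B (V ∘ jp (y :: l0)) (τ ∘ jp (y :: l0)) z [] x).im := by ring
    _ ≤ _ := h3

/-! ### Truncation -/

/-- the truncated potential -/
noncomputable def Vn (n : ℕ) (lam : ℝ) (ω : Vt d → ℝ) (v : Vt d) : ℝ :=
  if v.1.length < n then lam * ω v else 0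

/-- the truncated hopping -/
noncomputable def τn (d : ℕ) (n : ℕ) (t : ℝ) (v : Vt d) : ℝ := if v.1.length < n then t else 0

theorem Vn_sub (n : ℕ) (lam : ℝ) (ω : Vt d → ℝ) (y : Fin d → ℤ) :
    Vn (n + 1) lam ω ∘ jp [y] = Vn n lam (ω ∘ jp [y]) := by
  funext v
  unfold Vn jp
  simp

theorem τn_sub (n : ℕ) (t : ℝ) (y : Fin d → ℤ) : τn d (n + 1) t ∘ jp [y] = τn d n t := by
  funext v
  unfold τn jp
  simp

/-- the root Green function of the truncated tree -/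
noncomputable def Gn (B lam t : ℝ) (z : ℂ) (n : ℕ) (ω : Vt d → ℝ) : ℂ :=
  GG B (Vn n lam ω) (τn d n t) z (oo d) (oo d)

/-- the root Green function -/
noncomputable def Gf (B lam t : ℝ) (z : ℂ) (ω : Vt d → ℝ) : ℂ :=
  GG B (fun v => lam * ω v) (fun _ => t) z (oo d) (oo d)

theorem Gn_tendsto (B lam t : ℝ) (z : ℂ) (hz : z.im ≠ 0) (ω : Vt d → ℝ) :
    Tendsto (fun n => Gn B lam t z n ω) atTop (𝓝 (Gf B lam t z ω)) := by
  unfold Gn Gf
  refine GG_tendsto B _ _ _ _ (fun v => ?_) (fun v => ?_) z hz _ _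
  · refine tendsto_const_nhds.congr' ?_
    filter_upwards [eventually_gt_atTop v.1.length] with n hn
    unfold Vn
    rw [if_pos hn]
  · refine tendsto_const_nhds.congr' ?_
    filter_upwards [eventually_gt_atTop v.1.length] with n hn
    unfold τn
    rw [if_pos hn]

theorem Gn_zero (B lam t : ℝ) (z : ℂ) (ω : Vt d → ℝ) :
    Gn B lam t z 0 ω = GG B (fun _ => 0) (fun _ => 0) z (oo d) (oo d) := by
  have h1 : Vn 0 lam ω = fun _ => 0 := by
    funext v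
    unfold Vn
    simp
  have h2 : τn d 0 t = fun _ => 0 := by
    funext v
    unfold τn
    simp
  unfold Gn
  rw [h1, h2]

/-- continuity in the environment -/
theorem GG_cont {α : Type*} [TopologicalSpace α] (B : ℝ) (V τ : α → Vt d → ℝ) (hV : Continuous V)
    (hτ : Continuous τ) (z : ℂ) (hz : z.im ≠ 0) (v w : Vt d) :
    Continuous fun a => GG B (V a) (τ a) z v w := by
  rw [continuous_iff_continuousAt]
  intro a
  exact GG_tendsto B _ _ _ _ (fun x => (((continuous_apply x).comp hV).tendsto a))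
    (fun x => (((continuous_apply x).comp hτ).tendsto a)) z hz v w

theorem Gn_cont (B lam t : ℝ) (z : ℂ) (hz : z.im ≠ 0) (n : ℕ) :
    Continuous fun ω : Vt d → ℝ => Gn B lam t z n ω := by
  unfold Gn
  refine GG_cont B _ _ ?_ continuous_const z hz _ _
  rw [continuous_pi_iff]
  intro v
  unfold Vn
  split_ifs
  · fun_prop
  · exact continuous_const

theorem Gf_cont (B lam t : ℝ) (z : ℂ) (hz : z.im ≠ 0) :
    Continuous fun ω : Vt d → ℝ => Gf B lam t z ω := by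
  unfold Gf
  refine GG_cont B _ _ ?_ continuous_const z hz _ _
  fun_prop

end Pool.Agent.Y662.TR
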