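import Mathlib

/-! The product measure over the vertices of the tree of sheets, split at the root sheet. -/

set_option autoImplicit false
set_option linter.unusedSectionVars false

open scoped BigOperators Topology ENNReal
open MeasureTheory Filter ProbabilityTheory

namespace Pool.Agent.Y662.TR.Split

variable {d : ℕ}

/-- the vertices -/
abbrev V2 (d : ℕ) : Type := List (Fin d → ℤ) × (Fin d → ℤ)

/-- the vertices of the root sheet -/
def f0 (x : Fin d → ℤ) : V2 d := ([], x)

/-- the other vertices -/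
def f1 (p : (Fin d → ℤ) × V2 d) : V2 d := (p.2.1 ++ [p.1], p.2.2)

theorem f0_inj : Function.Injective (f0 (d := d)) := by
  intro x y h
  unfold f0 at h
  simpa using h

theorem f1_inj : Function.Injective (f1 (d := d)) := by
  rintro ⟨y, l, x⟩ ⟨y', l', x'⟩ h
  unfold f1 at h
  simp only [Prod.mk.injEq] at h
  have h1 := List.append_inj' h.1 rfl
  simp only [List.cons.injEq, and_true] at h1
  simp [h1.1, h1.2, h.2]

open Classical in
/-- the environment with the root sheet `v` and the subtrees `w` -/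
noncomputable def glue (v : (Fin d → ℤ) → ℝ) (w : (Fin d → ℤ) → V2 d → ℝ) (a : V2 d) : ℝ :=
  if a.1 = [] then v a.2 else w (a.1.getLastD 0) (a.1.dropLast, a.2)

theorem glue_f0 (v : (Fin d → ℤ) → ℝ) (w : (Fin d → ℤ) → V2 d → ℝ) (x : Fin d → ℤ) :
    glue v w ([], x) = v x := by
  unfold glue
  simp

theorem glue_f1 (v : (Fin d → ℤ) → ℝ) (w : (Fin d → ℤ) → V2 d → ℝ) (y : Fin d → ℤ)
    (l : List (Fin d → ℤ)) (x : Fin d → ℤ) : glue v w (l ++ [y], x) = w y (l, x) := by
  unfold glue
  simp

theorem cover (a : V2 d) : a ∈ Set.range (f0 (d := d)) ∨ a ∈ Set.range (f1 (d := d)) := by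
  obtain ⟨l, x⟩ := a
  rcases List.eq_nil_or_concat l with h | ⟨l', y, h⟩
  · left
    exact ⟨x, by unfold f0; rw [h]⟩
  · right
    exact ⟨(y, (l', x)), by unfold f1; rw [h]; simp⟩

theorem f0_ne_f1 (x : Fin d → ℤ) (p : (Fin d → ℤ) × V2 d) : f0 x ≠ f1 p := by
  unfold f0 f1
  intro h
  simp at h

theorem glue_meas : Measurable fun p : ((Fin d → ℤ) → ℝ) × ((Fin d → ℤ) → V2 d → ℝ) =>
    glue p.1 p.2 := by
  rw [measurable_pi_iff]
  intro a
  unfold glue
  split_ifs
  · fun_prop
  · fun_prop

/-- **the splitting** -/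
theorem split (μ : Measure ℝ) [IsProbabilityMeasure μ] :
    ((Measure.infinitePi fun _ : Fin d → ℤ => μ).prod
      (Measure.infinitePi fun _ : Fin d → ℤ => Measure.infinitePi fun _ : V2 d => μ)).map
      (fun p => glue p.1 p.2) = Measure.infinitePi fun _ : V2 d => μ := by
  classical
  refine Measure.eq_infinitePi _ fun s t ht => ?_
  rw [Measure.map_apply glue_meas (MeasurableSet.pi s.countable_toSet fun i _ => ht i)]
  obtain ⟨s0, hs0⟩ : ∃ s0, s0 = s.preimage f0 f0_inj.injOn := ⟨_, rfl⟩
  obtain ⟨s1, hs1⟩ : ∃ s1, s1 = s.preimage f1 f1_inj.injOn := ⟨_, rfl⟩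
  have h1 : (fun p : ((Fin d → ℤ) → ℝ) × ((Fin d → ℤ) → V2 d → ℝ) => glue p.1 p.2) ⁻¹'
      ((s : Set (V2 d)).pi t) =
      ((s0 : Set (Fin d → ℤ)).pi fun x => t (f0 x)) ×ˢ
        ((MeasurableEquiv.curry (Fin d → ℤ) (V2 d) ℝ).symm ⁻¹'
          ((s1 : Set ((Fin d → ℤ) × V2 d)).pi fun p => t (f1 p))) := by
    ext ⟨v, w⟩
    simp only [Set.mem_preimage, Set.mem_pi, Set.mem_prod, Finset.mem_coe]
    constructor
    · intro h
      refine ⟨fun x hx => ?_, fun p hp => ?_⟩
      · rw [hs0, Finset.mem_preimage] at hx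
        have := h _ hx
        rwa [show f0 x = ([], x) from rfl, glue_f0] at this
      · rw [hs1, Finset.mem_preimage] at hp
        have := h _ hp
        obtain ⟨y, l, x⟩ := p
        rw [show f1 (y, (l, x)) = (l ++ [y], x) from rfl, glue_f1] at this
        exact this
    · rintro ⟨h2, h3⟩ a ha
      rcases cover a with ⟨x, hx⟩ | ⟨⟨y, l, x⟩, hp⟩
      · subst hx
        have := h2 x (by rw [hs0, Finset.mem_preimage]; exact ha)
        rw [show f0 x = ([], x) from rfl, glue_f0]
        exact this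
      · subst hp
        have := h3 (y, (l, x)) (by rw [hs1, Finset.mem_preimage]; exact ha)
        rw [show f1 (y, (l, x)) = (l ++ [y], x) from rfl, glue_f1]
        exact this
  rw [h1, Measure.prod_prod, Measure.infinitePi_pi _ fun i _ => ht _]
  have h2 : (Measure.infinitePi fun _ : Fin d → ℤ => Measure.infinitePi fun _ : V2 d => μ)
      ((MeasurableEquiv.curry (Fin d → ℤ) (V2 d) ℝ).symm ⁻¹'
          ((s1 : Set ((Fin d → ℤ) × V2 d)).pi fun p => t (f1 p))) =
      ∏ p ∈ s1, μ (t (f1 p)) := by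
    have h3 := Measure.infinitePi_map_curry_symm (ι := Fin d → ℤ) (κ := V2 d) (fun _ _ => μ)
    rw [← Measure.map_apply (MeasurableEquiv.measurable _)
      (MeasurableSet.pi s1.countable_toSet fun i _ => ht _), h3,
      Measure.infinitePi_pi _ fun i _ => ht _]
  rw [h2]
  have h3 : ∀ a : V2 d, μ (t a) = (if a.1 = [] then μ (t a) else 1) *
      (if a.1 = [] then 1 else μ (t a)) := by
    intro a
    split_ifs <;> simp
  rw [Finset.prod_congr rfl fun a _ => h3 a, Finset.prod_mul_distrib, hs0, hs1]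
  congr 1
  · rw [← Finset.prod_preimage f0 s f0_inj.injOn (fun a => if a.1 = [] then μ (t a) else 1)]
    · refine Finset.prod_congr rfl fun x _ => ?_
      rw [if_pos (by rfl)]
    · intro a _ hr
      rcases cover a with h | ⟨⟨y, l, x⟩, hp⟩
      · exact absurd h hr
      · subst hp
        rw [if_neg]
        unfold f1
        simp
  · rw [← Finset.prod_preimage f1 s f1_inj.injOn (fun a => if a.1 = [] then 1 else μ (t a))]
    · refine Finset.prod_congr rfl fun p _ => ?_
      rw [if_neg]
      unfold f1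
      simp
    · intro a _ hr
      rcases cover a with ⟨x, hx⟩ | h
      · subst hx
        rw [if_pos (by rfl)]
      · exact absurd h hr

end Pool.Agent.Y662.TR.Split
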