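import Pool.Agent.Y662.TR.Step2
import Pool.Agent.Y662.TR.Split
import Pool.Agent.Y662.TR.Deep

/-! The recursion for the moments of the root Green function. -/

set_option autoImplicit false
set_option linter.unusedSectionVars false

open scoped BigOperators Topology ENNReal
open MeasureTheory Filter ProbabilityTheory

namespace Pool.Agent.Y662.TR

open Pool.Agent.W788.LD.Spec (S)
open Split (glue glue_f0 glue_f1 glue_meas split)

variable {d : ℕ}

/-- integration over a product, with a good and a bad set -/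
theorem int_two {X Y : Type} [MeasurableSpace X] [MeasurableSpace Y] (P : Measure X)
    [IsProbabilityMeasure P] (Q : Measure Y) [IsProbabilityMeasure Q] (F : X × Y → ℝ)
    (hF : Integrable F (P.prod Q)) (G : Set X) (hG : MeasurableSet G) (a b : ℝ) (ha : 0 ≤ a)
    (hb : 0 ≤ b) (h1 : ∀ x ∈ G, ∫ y, F (x, y) ∂Q ≤ a) (h2 : ∀ x, ∫ y, F (x, y) ∂Q ≤ b) :
    ∫ p, F p ∂(P.prod Q) ≤ a + P.real Gᶜ * b := by
  rw [integral_prod F hF]
  have h3 : ∀ x, ∫ y, F (x, y) ∂Q ≤ a + Gᶜ.indicator (fun _ => b) x := by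
    intro x
    by_cases hx : x ∈ G
    · rw [Set.indicator_of_notMem (by simpa using hx), add_zero]
      exact h1 x hx
    · rw [Set.indicator_of_mem (by simpa using hx)]
      have := h2 x
      linarith
  have i1 : Integrable (fun x => a + Gᶜ.indicator (fun _ => b) x) P :=
    (integrable_const a).add ((integrable_const b).indicator hG.compl)
  refine (integral_mono hF.integral_prod_left i1 h3).trans (le_of_eq ?_)
  rw [integral_add (integrable_const a) ((integrable_const b).indicator hG.compl),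
    integral_indicator hG.compl, integral_const, setIntegral_const]
  simp

/-- the free Green function -/
noncomputable def gg (d : ℕ) (B : ℝ) (z : ℂ) : ℂ := GG B (fun _ => 0) (fun _ => 0) z (oo d) (oo d)

/-- the root sheet alone -/
noncomputable def Vr (lam : ℝ) (v : (Fin d → ℤ) → ℝ) (a : Vt d) : ℝ :=
  if a.1 = [] then lam * v a.2 else 0

/-- the Green function of one sheet -/
noncomputable def Ps (B lam : ℝ) (ζ : ℂ) (v : (Fin d → ℤ) → ℝ) (a x : Fin d → ℤ) : ℂ :=
  GG B (Vr lam v) (fun _ => 0) ζ ([], x) ([], a)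

theorem coord_sq (B : ℝ) (V τ : Vt d → ℝ) (z : ℂ) (a : Fin d → ℤ) :
    Summable fun x => ‖GG B V τ z ([], x) ([], a)‖ ^ 2 := by
  unfold GG
  exact (ll_summable (Pool.Agent.TH369.AN.Rz (TT B V τ) z (dv ([], a)))).comp_injective
    (i := fun x : Fin d → ℤ => (([], x) : Vt d)) (fun x y h => by simpa using h)

theorem clp_zero (B : ℝ) : clp B 0 = 0 := clp_eq (by rw [abs_zero]; exact abs_nonneg B)

theorem ps_eq (B lam : ℝ) (ζ : ℂ) (hζ : ζ.im ≠ 0) (v : (Fin d → ℤ) → ℝ) (a x : Fin d → ℤ) :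
    -S (Ps B lam ζ v a) x + (((2 * d + clp B (lam * v x) : ℝ) : ℂ) - ζ) * Ps B lam ζ v a x =
      if x = a then 1 else 0 := by
  have h := root_eq B (Vr lam v) (fun _ => 0) ζ hζ a x
  rw [clp_zero] at h
  have h2 : Vr lam v (([], x) : Vt d) = lam * v x := by
    unfold Vr
    simp
  rw [h2] at h
  rw [← h]
  unfold S Ps
  push_cast
  ring

/-- the data of the recursion -/
structure Dat (d : ℕ) (B lam t : ℝ) (z : ℂ) : Prop where
  z0 : 0 < z.im
  t0 : 0 < t
  tB : t ≤ B

theorem Dat.gpos {B lam t : ℝ} {z : ℂ} (h : Dat d B lam t z) : 0 < (gg d B z).im :=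
  GG_im_pos B _ _ z h.z0 _

theorem Dat.ζpos {B lam t : ℝ} {z : ℂ} (h : Dat d B lam t z) :
    0 < (z + (t : ℂ) ^ 2 * gg d B z).im := by
  rw [Complex.add_im, t2_im]
  have h1 := h.gpos
  have h2 := h.z0
  positivity

/-- a sheet whose children have arbitrary self-energies of the correct form -/
theorem shd_gen {B lam t : ℝ} {z : ℂ} (h : Dat d B lam t z) (V τ : Vt d → ℝ)
    (v : (Fin d → ℤ) → ℝ) (hV : ∀ x, V ([], x) = lam * v x) (hτ : ∀ x, τ ([], x) = t)
    (a : Fin d → ℤ) :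
    Shd d (fun x => 2 * d + clp B (lam * v x)) z t (fun x => Gc B V τ z [] x) (gg d B z) a
      (1 / z.im) (cG d B z) (fun x => GG B V τ z ([], x) ([], a))
      (Ps B lam (z + (t : ℂ) ^ 2 * gg d B z) v a) := by
  refine ⟨h.z0, h.t0, h.gpos, cG_pos d B h.z0, fun x => ?_, fun x => ?_, coord_sq B V τ z a,
    coord_sq B _ _ _ a, fun x => ?_, fun x => ?_⟩
  · exact GG_le B _ _ z h.z0 _ _
  · exact GG_im_lower B _ _ z h.z0 _
  · have h1 := root_eq B V τ z h.z0.ne' a x
    rw [hV, hτ, clp_eq (B := B) (x := t) (by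
      rw [abs_of_pos h.t0]
      exact h.tB.trans (le_abs_self B))] at h1
    rw [← h1]
    unfold S
    rfl
  · have h1 := ps_eq B lam (z + (t : ℂ) ^ 2 * gg d B z) h.ζpos.ne' v a x
    rw [← h1]
    push_cast
    ring

/-- the sheet of the truncated tree -/
theorem shd_n {B lam t : ℝ} {z : ℂ} (h : Dat d B lam t z) (n : ℕ) (v : (Fin d → ℤ) → ℝ)
    (w : (Fin d → ℤ) → Vt d → ℝ) :
    Shd d (fun x => 2 * d + clp B (lam * v x)) z t (fun x => Gn B lam t z n (w x)) (gg d B z) 0
      (1 / z.im) (cG d B z)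
      (fun x => GG B (Vn (n + 1) lam (glue v w)) (τn d (n + 1) t) z ([], x) ([], 0))
      (Ps B lam (z + (t : ℂ) ^ 2 * gg d B z) v 0) := by
  have h1 := shd_gen h (Vn (n + 1) lam (glue v w)) (τn d (n + 1) t) v (fun x => by
    unfold Vn
    rw [if_pos (by simp), glue_f0]) (fun x => by
    unfold τn
    rw [if_pos (by simp)]) 0
  have h2 : (fun x => Gc B (Vn (n + 1) lam (glue v w)) (τn d (n + 1) t) z [] x) =
      fun x => Gn B lam t z n (w x) := by
    funext x
    unfold Gc Gn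
    rw [Vn_sub, τn_sub]
    have h3 : glue v w ∘ jp [x] = w x := by
      funext a
      obtain ⟨l, y⟩ := a
      unfold jp Function.comp
      exact glue_f1 v w x l y
    rw [h3]
  rw [h2] at h1
  exact h1

theorem rv_n {B lam t : ℝ} {z : ℂ} (h : Dat d B lam t z) (n : ℕ) (P : Measure (Vt d → ℝ)) :
    RV P (Gn B lam t z n) (gg d B z) (1 / z.im) (cG d B z) :=
  ⟨(Gn_cont B lam t z h.z0.ne' n).measurable, fun ω => GG_le B _ _ z h.z0 _ _,
    fun ω => GG_im_lower B _ _ z h.z0 _, cG_pos d B h.z0, h.gpos⟩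

/-- the measure on the environments -/
noncomputable def PP (d : ℕ) (μ : Measure ℝ) : Measure (Vt d → ℝ) :=
  Measure.infinitePi fun _ : Vt d => μ

instance (μ : Measure ℝ) [IsProbabilityMeasure μ] : IsProbabilityMeasure (PP d μ) := by
  unfold PP
  infer_instance

/-- the measure on the environments of one sheet -/
noncomputable def P1 (d : ℕ) (μ : Measure ℝ) : Measure ((Fin d → ℤ) → ℝ) :=
  Measure.infinitePi fun _ : Fin d → ℤ => μ

instance (μ : Measure ℝ) [IsProbabilityMeasure μ] : IsProbabilityMeasure (P1 d μ) := by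
  unfold P1
  infer_instance

/-- **the induction** -/
theorem ind {B lam t : ℝ} {z : ℂ} (h : Dat d B lam t z) (μ : Measure ℝ) [IsProbabilityMeasure μ]
    (m ε Hb : ℝ) (hHb0 : 0 ≤ Hb) (G : Set ((Fin d → ℤ) → ℝ)) (hG : MeasurableSet G)
    (hgood : ∀ v ∈ G, Gd t (gg d B z) m ε (Ps B lam (z + (t : ℂ) ^ 2 * gg d B z) v 0))
    (hbad : ∀ v : (Fin d → ℤ) → ℝ, hu (Ps B lam (z + (t : ℂ) ^ 2 * gg d B z) v 0 0) (gg d B z) ≤ Hb)
    (hP : (P1 d μ).real Gᶜ * (13 * (2 + Hb) ^ 2) ≤ 1 / 1000) (n : ℕ) :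
    ∫ ω, hu (Gn B lam t z n ω) (gg d B z) ∂(PP d μ) ≤ 1 / 100 ∧
    ∫ ω, hu (Gn B lam t z n ω) (gg d B z) ^ 2 ∂(PP d μ) ≤ 1 := by
  induction n with
  | zero =>
    have h1 : ∀ ω : Vt d → ℝ, Gn B lam t z 0 ω = gg d B z := fun ω => Gn_zero B lam t z ω
    simp only [h1, hu_self]
    simp
  | succ n ih =>
    obtain ⟨m1, m2⟩ := ih
    have hR := rv_n h n (PP d μ)
    have hR1 := rv_n h (n + 1) (PP d μ)
    obtain ⟨Q, hQ⟩ : ∃ Q, Q = Measure.infinitePi fun _ : Fin d → ℤ => PP d μ := ⟨_, rfl⟩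
    have hQp : IsProbabilityMeasure Q := by rw [hQ]; infer_instance
    have hsplit : ((P1 d μ).prod Q).map (fun p => glue p.1 p.2) = PP d μ := by
      rw [hQ]
      exact split μ
    have hgm : Measurable (fun p : ((Fin d → ℤ) → ℝ) × ((Fin d → ℤ) → Vt d → ℝ) =>
        glue p.1 p.2) := glue_meas
    have hφm : ∀ v : (Fin d → ℤ) → ℝ, Measurable fun w : (Fin d → ℤ) → Vt d → ℝ =>
        GG B (Vn (n + 1) lam (glue v w)) (τn d (n + 1) t) z ([], 0) ([], 0) := by
      intro v
      exact hR1.meas.comp (hgm.comp (measurable_const.prodMk measurable_id))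
    have hGn1 : ∀ p : ((Fin d → ℤ) → ℝ) × ((Fin d → ℤ) → Vt d → ℝ),
        Gn B lam t z (n + 1) (glue p.1 p.2) =
        GG B (Vn (n + 1) lam (glue p.1 p.2)) (τn d (n + 1) t) z ([], 0) ([], 0) := fun p => rfl
    -- transfer of the integrals
    have tr1 : ∫ ω, hu (Gn B lam t z (n + 1) ω) (gg d B z) ∂(PP d μ) =
        ∫ p, hu (Gn B lam t z (n + 1) (glue p.1 p.2)) (gg d B z) ∂((P1 d μ).prod Q) := by
      rw [← hsplit, integral_map hgm.aemeasurable]
      rw [hsplit]
      exact hR1.int1.aestronglyMeasurable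
    have tr2 : ∫ ω, hu (Gn B lam t z (n + 1) ω) (gg d B z) ^ 2 ∂(PP d μ) =
        ∫ p, hu (Gn B lam t z (n + 1) (glue p.1 p.2)) (gg d B z) ^ 2 ∂((P1 d μ).prod Q) := by
      rw [← hsplit, integral_map hgm.aemeasurable]
      rw [hsplit]
      exact hR1.int2.aestronglyMeasurable
    have j1 : Integrable (fun p : ((Fin d → ℤ) → ℝ) × ((Fin d → ℤ) → Vt d → ℝ) =>
        hu (Gn B lam t z (n + 1) (glue p.1 p.2)) (gg d B z)) ((P1 d μ).prod Q) := by
      have := hR1.int1
      rw [← hsplit] at this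
      exact this.comp_measurable hgm
    have j2 : Integrable (fun p : ((Fin d → ℤ) → ℝ) × ((Fin d → ℤ) → Vt d → ℝ) =>
        hu (Gn B lam t z (n + 1) (glue p.1 p.2)) (gg d B z) ^ 2) ((P1 d μ).prod Q) := by
      have := hR1.int2
      rw [← hsplit] at this
      exact this.comp_measurable hgm
    have hS : ∀ v, ∀ w : (Fin d → ℤ) → Vt d → ℝ, Shd d (fun x => 2 * d + clp B (lam * v x)) z t
        (fun x => Gn B lam t z n (w x)) (gg d B z) 0 (1 / z.im) (cG d B z)
        ((fun w x => GG B (Vn (n + 1) lam (glue v w)) (τn d (n + 1) t) z ([], x) ([], 0)) w)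
        (Ps B lam (z + (t : ℂ) ^ 2 * gg d B z) v 0) := fun v w => shd_n h n v w
    have bad2 : ∀ v, ∫ w, hu (Gn B lam t z (n + 1) (glue v w)) (gg d B z) ^ 2 ∂Q ≤
        12 * (2 + Hb) ^ 2 := by
      intro v
      rw [hQ]
      exact int_bad hR (hS v) Hb (hbad v) (fun _ _ => 0) m1 m2
    have bad1 : ∀ v, ∫ w, hu (Gn B lam t z (n + 1) (glue v w)) (gg d B z) ∂Q ≤
        13 * (2 + Hb) ^ 2 := by
      intro v
      have hm : Measurable fun w : (Fin d → ℤ) → Vt d → ℝ =>
          hu (Gn B lam t z (n + 1) (glue v w)) (gg d B z) := (hu_meas _).comp (hφm v)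
      have i1 : Integrable (fun w : (Fin d → ℤ) → Vt d → ℝ =>
          hu (Gn B lam t z (n + 1) (glue v w)) (gg d B z)) Q :=
        bdd_int_real Q _ hm (UU (gg d B z) (1 / z.im) (cG d B z)) fun w => hR1.abs _
      have i2 : Integrable (fun w : (Fin d → ℤ) → Vt d → ℝ =>
          hu (Gn B lam t z (n + 1) (glue v w)) (gg d B z) ^ 2) Q :=
        bdd_int_real Q _ (hm.pow_const 2) (UU (gg d B z) (1 / z.im) (cG d B z) ^ 2) fun w => by
          rw [abs_of_nonneg (sq_nonneg _)]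
          have := hR1.nonneg (glue v w)
          have := hR1.huU (glue v w)
          gcongr
      have h1 : ∀ w : (Fin d → ℤ) → Vt d → ℝ, hu (Gn B lam t z (n + 1) (glue v w)) (gg d B z) ≤
          1 + hu (Gn B lam t z (n + 1) (glue v w)) (gg d B z) ^ 2 := by
        intro w
        nlinarith [sq_nonneg (hu (Gn B lam t z (n + 1) (glue v w)) (gg d B z) - 1),
          sq_nonneg (hu (Gn B lam t z (n + 1) (glue v w)) (gg d B z))]
      have i3 : Integrable (fun w : (Fin d → ℤ) → Vt d → ℝ =>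
          1 + hu (Gn B lam t z (n + 1) (glue v w)) (gg d B z) ^ 2) Q :=
        (integrable_const (1 : ℝ)).add i2
      have h2 := integral_mono i1 i3 h1
      have h3 : ∫ w, (1 + hu (Gn B lam t z (n + 1) (glue v w)) (gg d B z) ^ 2) ∂Q =
          1 + ∫ w, hu (Gn B lam t z (n + 1) (glue v w)) (gg d B z) ^ 2 ∂Q := by
        rw [integral_add (integrable_const (1 : ℝ)) i2, integral_const]
        simp
      rw [h3] at h2
      have := bad2 v
      nlinarith
    have good : ∀ v ∈ G, ∫ w, hu (Gn B lam t z (n + 1) (glue v w)) (gg d B z) ∂Q ≤ 6 / 1000 ∧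
        ∫ w, hu (Gn B lam t z (n + 1) (glue v w)) (gg d B z) ^ 2 ∂Q ≤ 1 / 10 := by
      intro v hv
      rw [hQ]
      exact int_good hR (hS v) (hgood v hv) (fun _ _ => 0) (hφm v) m1 m2
    constructor
    · rw [tr1]
      have h1 := int_two (P1 d μ) Q _ j1 G hG (6 / 1000) (13 * (2 + Hb) ^ 2) (by norm_num)
        (by positivity) (fun v hv => (good v hv).1) bad1
      linarith
    · rw [tr2]
      have h1 := int_two (P1 d μ) Q _ j2 G hG (1 / 10) (13 * (2 + Hb) ^ 2) (by norm_num)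
        (by positivity) (fun v hv => (good v hv).2) (fun v => (bad2 v).trans (by
          nlinarith [sq_nonneg (2 + Hb)]))
      linarith

/-- the moments of the root Green function of the infinite tree -/
theorem ind_full {B lam t : ℝ} {z : ℂ} (h : Dat d B lam t z) (μ : Measure ℝ)
    [IsProbabilityMeasure μ]
    (m ε Hb : ℝ) (hHb0 : 0 ≤ Hb) (G : Set ((Fin d → ℤ) → ℝ)) (hG : MeasurableSet G)
    (hgood : ∀ v ∈ G, Gd t (gg d B z) m ε (Ps B lam (z + (t : ℂ) ^ 2 * gg d B z) v 0))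
    (hbad : ∀ v : (Fin d → ℤ) → ℝ, hu (Ps B lam (z + (t : ℂ) ^ 2 * gg d B z) v 0 0) (gg d B z) ≤ Hb)
    (hP : (P1 d μ).real Gᶜ * (13 * (2 + Hb) ^ 2) ≤ 1 / 1000) :
    ∫ ω, hu (Gf B lam t z ω) (gg d B z) ^ 2 ∂(PP d μ) ≤ 1 := by
  have h1 := fun n => (ind h μ m ε Hb hHb0 G hG hgood hbad hP n).2
  refine le_of_tendsto' (f := fun n => ∫ ω, hu (Gn B lam t z n ω) (gg d B z) ^ 2 ∂(PP d μ))
    (x := atTop) ?_ h1
  refine tendsto_integral_of_dominated_convergence
    (fun _ => UU (gg d B z) (1 / z.im) (cG d B z) ^ 2) (fun n => ?_) (integrable_const _)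
    (fun n => Eventually.of_forall fun ω => ?_) (Eventually.of_forall fun ω => ?_)
  · exact (rv_n h n (PP d μ)).int2.aestronglyMeasurable
  · rw [Real.norm_eq_abs, abs_of_nonneg (sq_nonneg _)]
    have := (rv_n h n (PP d μ)).nonneg ω
    have := (rv_n h n (PP d μ)).huU ω
    gcongr
  · have h2 := Gn_tendsto B lam t z h.z0.ne' ω
    have hpos : 0 < (Gf B lam t z ω).im := GG_im_pos B _ _ z h.z0 _
    have h3 : Tendsto (fun n => hu (Gn B lam t z n ω) (gg d B z)) atTop
        (𝓝 (hu (Gf B lam t z ω) (gg d B z))) := by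
      unfold hu
      have h4 := ((h2.sub_const (gg d B z)).norm.pow 2)
      have h5 := ((Complex.continuous_im.tendsto _).comp h2).mul_const (gg d B z).im
      exact h4.div h5 (mul_pos hpos h.gpos).ne'
    exact h3.pow 2

end Pool.Agent.Y662.TR
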