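import Pool.Agent.Y662.TR.Good2

/-! The second moment of the functional, uniformly in the energy. -/

set_option autoImplicit false
set_option linter.unusedSectionVars false

open scoped BigOperators InnerProductSpace Topology
open MeasureTheory Filter

namespace Pool.Agent.Y662.TR

open Pool.Agent.TH794.QD (CH CH_nonneg)
open Pool.Agent.W788.BK.Num (ev2)

variable {d : ℕ}

/-- the bound of the functional on arbitrary sheets -/
noncomputable def HB (d : ℕ) (B m t : ℝ) : ℝ :=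
  (CH d + 2) ^ 2 * (8 * d + 3 * |B| + 2 + CH d) ^ 2 / (m * (t ^ 2 * m) ^ 3)

theorem hb_bad (hd : 3 ≤ d) {B lam t : ℝ} {z : ℂ} (h : Dat d B lam t z) (m : ℝ) (hm0 : 0 < m)
    (hm1 : m ≤ 1) (ht1 : t ≤ 1) (hz1 : z.im ≤ 1) (hz2 : 0 ≤ z.re) (hz3 : z.re ≤ 4 * d)
    (hm : m ≤ (gg d B z).im) (v : (Fin d → ℤ) → ℝ) :
    hu (Ps B lam (z + (t : ℂ) ^ 2 * gg d B z) v 0 0) (gg d B z) ≤ HB d B m t := by
  obtain ⟨g, hg⟩ : ∃ g, g = gg d B z := ⟨_, rfl⟩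
  obtain ⟨ζ, hζ⟩ : ∃ ζ, ζ = z + (t : ℂ) ^ 2 * g := ⟨_, rfl⟩
  rw [← hg] at hm ⊢
  rw [← hζ]
  have ht := h.t0
  have hz := h.z0
  have hCH := CH_nonneg d
  have hg0 : 0 < g.im := hm0.trans_le hm
  have hgb : ‖g‖ ≤ CH d + 1 := by rw [hg]; exact gg_bd hd B z hz
  have ht2 : t ^ 2 ≤ 1 := pow_le_one₀ ht.le ht1
  have hζi : ζ.im = z.im + t ^ 2 * g.im := by rw [hζ, Complex.add_im, t2_im]
  have hh1 : t ^ 2 * m ≤ ζ.im := by
    rw [hζi]
    have : t ^ 2 * m ≤ t ^ 2 * g.im := by gcongr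
    linarith
  have htm : 0 < t ^ 2 * m := by positivity
  have hζ0 : 0 < ζ.im := htm.trans_le hh1
  have hzn : ‖z‖ ≤ 4 * d + 1 := by
    refine (Complex.norm_le_abs_re_add_abs_im z).trans ?_
    rw [abs_of_nonneg hz2, abs_of_pos hz]
    linarith
  have hζn : ‖ζ‖ ≤ 4 * d + 2 + CH d := by
    rw [hζ]
    refine (norm_add_le _ _).trans ?_
    rw [norm_mul, norm_pow, Complex.norm_real, Real.norm_eq_abs, sq_abs]
    have : t ^ 2 * ‖g‖ ≤ 1 * (CH d + 1) := by gcongr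
    linarith
  have hp : t ^ 2 * m / (8 * d + 3 * |B| + 2 + CH d) ^ 2 ≤ (Ps B lam ζ v 0 0).im := by
    have h1 := GG_im_lower B (Vr lam v) (fun _ => 0) ζ hζ0 (([], 0) : Vt d)
    refine le_trans ?_ h1
    unfold cG
    have h2 : 0 < 4 * d + 3 * |B| + ‖ζ‖ := by
      have := norm_z_pos hζ0
      positivity
    have h3 : 4 * d + 3 * |B| + ‖ζ‖ ≤ 8 * d + 3 * |B| + 2 + CH d := by linarith
    gcongr
  have hn : ‖Ps B lam ζ v 0 0‖ ≤ 1 / (t ^ 2 * m) := by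
    refine (GG_le B (Vr lam v) (fun _ => 0) ζ hζ0 _ _).trans ?_
    gcongr
  have hnum : ‖Ps B lam ζ v 0 0 - g‖ ≤ (CH d + 2) / (t ^ 2 * m) := by
    refine (norm_sub_le _ _).trans ?_
    have h1 : CH d + 1 ≤ (CH d + 1) / (t ^ 2 * m) := by
      rw [le_div_iff₀ htm]
      have : t ^ 2 * m ≤ 1 * 1 := by gcongr
      nlinarith
    have h2 : (CH d + 2) / (t ^ 2 * m) = 1 / (t ^ 2 * m) + (CH d + 1) / (t ^ 2 * m) := by ring
    rw [h2]
    linarith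
  unfold hu HB
  have hC : 0 < 8 * (d : ℝ) + 3 * |B| + 2 + CH d := by positivity
  have hp0 : 0 ≤ (Ps B lam ζ v 0 0).im :=
    (GG_im_pos B (Vr lam v) (fun _ => 0) ζ hζ0 (([], 0) : Vt d)).le
  calc ‖Ps B lam ζ v 0 0 - g‖ ^ 2 / ((Ps B lam ζ v 0 0).im * g.im) ≤
        ((CH d + 2) / (t ^ 2 * m)) ^ 2 /
          (t ^ 2 * m / (8 * d + 3 * |B| + 2 + CH d) ^ 2 * m) := by gcongr
    _ = _ := by
        field_simp

/-- **the uniform moment bound** -/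
theorem mom (hd : 3 ≤ d) (κ : ℝ) (hκ : 0 < κ) (hκ1 : κ ≤ 1) (b : ℝ) (hb : 0 < b) :
    ∃ m lam0 : ℝ, 0 < m ∧ 0 < lam0 ∧ lam0 ≤ 1 ∧
      (∀ (B : ℝ) (z : ℂ), 0 < z.im → z.im ≤ 1 → κ ≤ z.re → z.re ≤ 4 * d - κ →
        m ≤ (gg d B z).im) ∧
      ∀ (μ : Measure ℝ) [IsProbabilityMeasure μ], (∀ᵐ s ∂μ, |s| ≤ b) →
      ∀ lam : ℝ, 0 < lam → lam ≤ lam0 →
        ∀ t : ℝ, lam ^ (26 / 25 : ℝ) ≤ t → t ≤ lam ^ (1 / 100 : ℝ) →
        ∀ z : ℂ, 0 < z.im → z.im ≤ lam → κ ≤ z.re → z.re ≤ 4 * d - κ →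
          ∫ ω, hu (Gf (b + 1) lam t z ω) (gg d (b + 1) z) ^ 2 ∂(PP d μ) ≤ 1 := by
  obtain ⟨m, ε, lam1, hm, hm1, hε, hlam1, hlam1', hlow, hgood⟩ := good hd κ hκ hκ1 b hb
  have hCH := CH_nonneg d
  obtain ⟨C5, hC5⟩ : ∃ C5, C5 = (CH d + 2) ^ 2 * (8 * d + 3 * |b + 1| + 2 + CH d) ^ 2 / m ^ 4 :=
    ⟨_, rfl⟩
  have hC50 : 0 ≤ C5 := by rw [hC5]; positivity
  obtain ⟨y2, hy2⟩ := Filter.eventually_atTop.1
    ((ev2 (13000 * (2 + C5) ^ 2) (312 / 25) 13 0 (by norm_num)).and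
    (ev2 13 0 (1 / 100) 1 (by norm_num)))
  obtain ⟨y1, hy1⟩ : ∃ y1, y1 = max y2 1 := ⟨_, rfl⟩
  refine ⟨m, min lam1 (Real.exp (-y1)), hm, lt_min hlam1 (Real.exp_pos _),
    (min_le_left _ _).trans hlam1', hlow, ?_⟩
  intro μ hμ hμb lam hlam hlam0 t ht1 ht2 z hz hz1 hz2 hz3
  obtain ⟨G, hG, hP, hGd⟩ := hgood μ hμb lam hlam (hlam0.trans (min_le_left _ _))
  have hlamle1 : lam ≤ 1 := (hlam0.trans (min_le_left _ _)).trans hlam1'
  obtain ⟨y, hy⟩ : ∃ y, y = Real.log (1 / lam) := ⟨_, rfl⟩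
  have hloglam : Real.log lam = -y := by
    rw [hy, one_div, Real.log_inv, neg_neg]
  have hyy1 : y1 ≤ y := by
    have h1 := Real.log_le_log hlam (hlam0.trans (min_le_right _ _))
    rw [Real.log_exp, hloglam] at h1
    linarith
  have hyy2 : y2 ≤ y := le_trans (by rw [hy1]; exact le_max_left _ _) hyy1
  have hyone : 1 ≤ y := le_trans (by rw [hy1]; exact le_max_right _ _) hyy1
  obtain ⟨n1, n2⟩ := hy2 y hyy2
  simp only [pow_zero, mul_one, pow_one, zero_mul, Real.exp_zero] at n1 n2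
  have hpw : ∀ p : ℝ, lam ^ p = Real.exp (-p * y) := by
    intro p
    rw [Real.rpow_def_of_pos hlam, hloglam]
    congr 1
    ring
  have ht0 : 0 < t := lt_of_lt_of_le (Real.rpow_pos_of_pos hlam _) ht1
  have ht3 : t ≤ 1 := ht2.trans (Real.rpow_le_one hlam.le hlamle1 (by norm_num))
  have hDat : Dat d (b + 1) lam t z := ⟨hz, ht0, by linarith⟩
  have hmg := hlow (b + 1) z hz (hz1.trans hlamle1) hz2 hz3
  have hHb := hb_bad hd hDat m hm hm1 ht3 (hz1.trans hlamle1) (by linarith) (by linarith) hmg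
  have hHb0 : 0 ≤ HB d (b + 1) m t := by unfold HB; positivity
  refine ind_full hDat μ m ε (HB d (b + 1) m t) hHb0 G hG
    (fun v hv => hGd t ht1 ht2 z hz hz1 hz2 hz3 v hv) hHb ?_
  have h1 : HB d (b + 1) m t ≤ C5 * Real.exp (156 / 25 * y) := by
    have h2 : HB d (b + 1) m t = C5 / (t ^ 2) ^ 3 := by
      unfold HB
      rw [hC5]
      field_simp
    rw [h2, div_eq_mul_inv]
    have h3 : ((t ^ 2) ^ 3)⁻¹ ≤ Real.exp (156 / 25 * y) := by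
      have h4 : Real.exp (156 / 25 * y) = (((lam ^ (26 / 25 : ℝ)) ^ 2) ^ 3)⁻¹ := by
        rw [hpw, ← Real.exp_nat_mul, ← Real.exp_nat_mul, ← Real.exp_neg]
        congr 1
        push_cast
        ring
      rw [h4]
      have : 0 < lam ^ (26 / 25 : ℝ) := Real.rpow_pos_of_pos hlam _
      gcongr
    gcongr
  have h2 : (2 + HB d (b + 1) m t) ^ 2 ≤ (2 + C5) ^ 2 * Real.exp (312 / 25 * y) := by
    have h3 : 2 + HB d (b + 1) m t ≤ (2 + C5) * Real.exp (156 / 25 * y) := by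
      have : 1 ≤ Real.exp (156 / 25 * y) := Real.one_le_exp (by positivity)
      linarith
    calc (2 + HB d (b + 1) m t) ^ 2 ≤ ((2 + C5) * Real.exp (156 / 25 * y)) ^ 2 := by gcongr
      _ = _ := by
          rw [mul_pow, ← Real.exp_nat_mul]
          congr 2
          push_cast
          ring
  have h3 : (P1 d μ).real Gᶜ ≤ Real.exp (-(13 * y)) := by
    refine hP.trans (Real.exp_le_exp.2 ?_)
    rw [hpw]
    have : - -(1 / 100 : ℝ) * y = 1 / 100 * y := by ring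
    rw [this]
    linarith
  have h4 : 0 ≤ (P1 d μ).real Gᶜ := measureReal_nonneg
  calc (P1 d μ).real Gᶜ * (13 * (2 + HB d (b + 1) m t) ^ 2) ≤
        Real.exp (-(13 * y)) * (13 * ((2 + C5) ^ 2 * Real.exp (312 / 25 * y))) := by gcongr
    _ = Real.exp (-(13 * y)) * (13000 * (2 + C5) ^ 2 * Real.exp (312 / 25 * y)) / 1000 := by ring
    _ ≤ Real.exp (-(13 * y)) * Real.exp (13 * y) / 1000 := by gcongr
    _ = 1 / 1000 := by
        rw [← Real.exp_add]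
        simp

end Pool.Agent.Y662.TR
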