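import Pool.Agent.Y662.TR.Step

/-! One step of the recursion: good and bad root sheets. -/

set_option autoImplicit false
set_option linter.unusedSectionVars false

open scoped BigOperators Topology ENNReal
open MeasureTheory Filter ProbabilityTheory

namespace Pool.Agent.Y662.TR

variable {d : ℕ} {Ω : Type} [MeasurableSpace Ω] {P : Measure Ω} [IsProbabilityMeasure P]

variable {Γ : Ω → ℂ} {g z : ℂ} {C c t : ℝ} {V : (Fin d → ℤ) → ℝ} {ψ : (Fin d → ℤ) → ℂ}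
  {φ : ((Fin d → ℤ) → Ω) → (Fin d → ℤ) → ℂ}

/-- the good root sheets -/
structure Gd (t : ℝ) (g : ℂ) (m ε : ℝ) (ψ : (Fin d → ℤ) → ℂ) : Prop where
  one : ‖ψ 0 - g‖ ≤ ε
  two : ‖∑' x, (t : ℂ) ^ 2 * ψ x ^ 2‖ ≤ ε
  three : ∀ x, t ^ 2 * ‖ψ x‖ ^ 2 ≤ ε
  m0 : 0 < m
  gm : m ≤ g.im
  e0 : 0 ≤ ε
  em : ε ≤ m / 100
  e1 : ε ≤ 1 / 100000

section pt

variable {m ε : ℝ}

theorem Gd.im (h : Gd t g m ε ψ) : g.im / 2 ≤ (ψ 0).im ∧ (ψ 0).im ≤ 2 * g.im := by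
  have h1 := Complex.abs_im_le_norm (ψ 0 - g)
  rw [Complex.sub_im] at h1
  have h2 := abs_le.1 (h1.trans h.one)
  have h3 := h.em
  have h4 := h.gm
  have h5 := h.m0
  constructor <;> linarith [h2.1, h2.2]

theorem Gd.near (h : Gd t g m ε ψ) : hu (ψ 0) g ≤ (2 * ε / m) ^ 2 := by
  obtain ⟨h1, h2⟩ := h.im
  have h3 := h.m0
  have h4 := h.gm
  have h5 : 0 < g.im := h3.trans_le h4
  have h6 := h.e0
  unfold hu
  rw [div_le_iff₀ (by have : 0 < (ψ 0).im := by linarith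
                      positivity)]
  have h7 : ‖ψ 0 - g‖ ^ 2 ≤ ε ^ 2 := by
    have := h.one
    gcongr
  have h8 : m ^ 2 / 2 ≤ (ψ 0).im * g.im := by
    calc m ^ 2 / 2 = (m / 2) * m := by ring
      _ ≤ (ψ 0).im * g.im := by
          apply mul_le_mul _ h4 h3.le (by linarith)
          linarith
  calc ‖ψ 0 - g‖ ^ 2 ≤ ε ^ 2 := h7
    _ ≤ (2 * ε / m) ^ 2 * (m ^ 2 / 2) := by
        rw [div_pow]
        field_simp
        nlinarith [sq_nonneg ε]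
    _ ≤ _ := by gcongr

theorem Gd.em2 (h : Gd t g m ε ψ) : 0 ≤ 2 * ε / m ∧ 2 * ε / m ≤ 1 / 50 := by
  have h3 := h.m0
  have h6 := h.e0
  have h7 := h.em
  constructor
  · positivity
  · rw [div_le_iff₀ h3]
    linarith

/-- pointwise bounds for a good root sheet -/
theorem pt_good (hR : RV P Γ g C c) (hS : ∀ w, Shd d V z t (fun x => Γ (w x)) g 0 C c (φ w) ψ)
    (h : Gd t g m ε ψ) (w : (Fin d → ℤ) → Ω) :
    hu (φ w 0) g ≤ 36 * WW t g ψ Γ w ^ 2 + 9 * ((‖LLn t g ψ Γ w‖ ^ 2 + ε ^ 2) / g.im ^ 2) ∧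
    hu (φ w 0) g ^ 2 ≤ 3 * WW t g ψ Γ w ^ 2 + 32 * (2 * ε / m) ^ 2 := by
  obtain ⟨W, hW⟩ : ∃ W, W = WW t g ψ Γ w := ⟨_, rfl⟩
  obtain ⟨L, hL⟩ : ∃ L, L = LLn t g ψ Γ w := ⟨_, rfl⟩
  have hW0 : 0 ≤ W := by rw [hW]; exact WW_nonneg hR hS w
  obtain ⟨e, he⟩ : ∃ e, e = 2 * ε / m := ⟨_, rfl⟩
  obtain ⟨he0, he1⟩ := h.em2
  rw [← he] at he0 he1
  have hg := hR.g0
  have hφ := phi_pos (hS w)
  have hψ := psi_pos (hS w)
  obtain ⟨hi1, hi2⟩ := h.im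
  have h1 := tri_near hφ hψ hg he0 (by linarith) (by rw [he]; exact h.near)
  have h2 := hu_le hS w
  rw [← hW] at h2
  have hu0 := hu_nonneg hφ hg
  have h3 : hu (φ w 0) g ≤ (1 + 2 * e) * W + 4 * e := by
    refine h1.trans ?_
    gcongr
  rw [← hW, ← hL, ← he]
  constructor
  · have hLe : 0 ≤ 9 * ((‖L‖ ^ 2 + ε ^ 2) / g.im ^ 2) := by positivity
    rcases le_or_gt W (1 / 4) with h4 | h4
    · have h5 : hu (φ w 0) g ≤ 1 := by nlinarith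
      have h6 : g.im ≤ 3 * (φ w 0).im := by
        have h7 := hu_im hg hφ
        rw [hu_comm] at h7
        nlinarith
      have h7 : ‖φ w 0 - g‖ ≤ 2 * g.im * W + ‖L‖ + ε := by
        have h8 := bound2 (hS w)
        rw [NN_eq hS w, ← hW] at h8
        have h9 : φ w 0 - g = (φ w 0 - ψ 0 - L) + L + (ψ 0 - g) := by ring
        rw [h9]
        refine (norm_add_le _ _).trans (add_le_add ((norm_add_le _ _).trans ?_) h.one)
        refine add_le_add ?_ le_rfl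
        rw [hL]
        refine h8.trans ?_
        gcongr
      have h8 : ‖φ w 0 - g‖ ^ 2 ≤ 3 * (4 * g.im ^ 2 * W ^ 2 + ‖L‖ ^ 2 + ε ^ 2) := by
        have h9 : ‖φ w 0 - g‖ ^ 2 ≤ (2 * g.im * W + ‖L‖ + ε) ^ 2 := by gcongr
        nlinarith [sq_nonneg (2 * g.im * W - ‖L‖), sq_nonneg (2 * g.im * W - ε),
          sq_nonneg (‖L‖ - ε)]
      have h9 : hu (φ w 0) g ≤ 3 * ‖φ w 0 - g‖ ^ 2 / g.im ^ 2 := by
        unfold hu
        rw [div_le_div_iff₀ (by positivity) (by positivity)]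
        have h10 : 0 ≤ ‖φ w 0 - g‖ ^ 2 := by positivity
        calc ‖φ w 0 - g‖ ^ 2 * g.im ^ 2 = ‖φ w 0 - g‖ ^ 2 * (g.im * g.im) := by ring
          _ ≤ ‖φ w 0 - g‖ ^ 2 * ((3 * (φ w 0).im) * g.im) := by gcongr
          _ = _ := by ring
      refine h9.trans ?_
      rw [div_le_iff₀ (by positivity)]
      have h10 : (36 * W ^ 2 + 9 * ((‖L‖ ^ 2 + ε ^ 2) / g.im ^ 2)) * g.im ^ 2 =
          36 * W ^ 2 * g.im ^ 2 + 9 * (‖L‖ ^ 2 + ε ^ 2) := by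
        field_simp
      rw [h10]
      linarith
    · nlinarith
  · have h4 : hu (φ w 0) g ^ 2 ≤ ((1 + 2 * e) * W + 4 * e) ^ 2 := by gcongr
    have h5 : ((1 + 2 * e) * W + 4 * e) ^ 2 ≤ 2 * ((1 + 2 * e) * W) ^ 2 + 2 * (4 * e) ^ 2 := by
      nlinarith [sq_nonneg ((1 + 2 * e) * W - 4 * e)]
    have h6 : (1 + 2 * e) ^ 2 ≤ 3 / 2 := by nlinarith
    have h7 : 2 * ((1 + 2 * e) * W) ^ 2 ≤ 3 * W ^ 2 := by
      rw [mul_pow]
      nlinarith [sq_nonneg W]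
    nlinarith

/-- pointwise bounds for an arbitrary root sheet -/
theorem pt_bad (hR : RV P Γ g C c) (hS : ∀ w, Shd d V z t (fun x => Γ (w x)) g 0 C c (φ w) ψ)
    (Hb : ℝ) (hHb : hu (ψ 0) g ≤ Hb) (w : (Fin d → ℤ) → Ω) :
    hu (φ w 0) g ^ 2 ≤ (2 + Hb) ^ 2 * (2 * WW t g ψ Γ w ^ 2 + 8) := by
  have hW0 : 0 ≤ WW t g ψ Γ w := WW_nonneg hR hS w
  have hg := hR.g0
  have hφ := phi_pos (hS w)
  have hψ := psi_pos (hS w)
  have h1 := tri_far hφ hψ hg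
  have h2 := hu_le hS w
  have hu0 := hu_nonneg hφ hg
  have hu1 := hu_nonneg hφ hψ
  have hu2 := hu_nonneg hψ hg
  have hHb0 : 0 ≤ 2 + Hb := by linarith
  have h3 : hu (φ w 0) g ≤ (2 + Hb) * (WW t g ψ Γ w + 2) := by
    refine h1.trans ?_
    gcongr
  have h4 : (WW t g ψ Γ w + 2) ^ 2 ≤ 2 * WW t g ψ Γ w ^ 2 + 8 := by
    nlinarith [sq_nonneg (WW t g ψ Γ w - 2)]
  calc hu (φ w 0) g ^ 2 ≤ ((2 + Hb) * (WW t g ψ Γ w + 2)) ^ 2 := by gcongr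
    _ = (2 + Hb) ^ 2 * (WW t g ψ Γ w + 2) ^ 2 := by ring
    _ ≤ _ := by gcongr

end pt

section ints

variable {m ε : ℝ}

theorem WW_int2 (hR : RV P Γ g C c) (hS : ∀ w, Shd d V z t (fun x => Γ (w x)) g 0 C c (φ w) ψ)
    (w0 : (Fin d → ℤ) → Ω) :
    Integrable (fun w => WW t g ψ Γ w ^ 2) (Measure.infinitePi fun _ : Fin d → ℤ => P) := by
  refine bdd_int_real _ _ ((WW_meas hR hS w0).pow_const 2) (UU g C c ^ 2) fun w => ?_
  rw [abs_of_nonneg (sq_nonneg _)]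
  have := WW_nonneg hR hS w
  have := WW_le hR hS w
  gcongr

theorem LL_int2 (hR : RV P Γ g C c) (hψ : Summable fun x => ‖ψ x‖ ^ 2) :
    Integrable (fun w => ‖LLn t g ψ Γ w‖ ^ 2) (Measure.infinitePi fun _ : Fin d → ℤ => P) := by
  have hb : ∀ ω, ‖Γ ω - g‖ ≤ C + ‖g‖ := fun ω =>
    (norm_sub_le _ _).trans (by have := hR.le ω; linarith)
  refine bdd_int_real _ _ (((LL_meas hR hψ).norm).pow_const 2)
    (((∑' x, ‖(t : ℂ) ^ 2 * ψ x ^ 2‖) * (C + ‖g‖)) ^ 2) fun w => ?_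
  rw [abs_of_nonneg (by positivity)]
  have h1 : ‖LLn t g ψ Γ w‖ ≤ (∑' x, ‖(t : ℂ) ^ 2 * ψ x ^ 2‖) * (C + ‖g‖) := by
    have hs := LL_sum (t := t) hψ
    have h2 : ∀ x, ‖(t : ℂ) ^ 2 * (ψ x ^ 2 * (Γ (w x) - g))‖ ≤
        ‖(t : ℂ) ^ 2 * ψ x ^ 2‖ * (C + ‖g‖) := by
      intro x
      rw [← mul_assoc, norm_mul]
      have := hb (w x)
      gcongr
    have h3 : Summable fun x => ‖(t : ℂ) ^ 2 * (ψ x ^ 2 * (Γ (w x) - g))‖ :=
      Summable.of_nonneg_of_le (fun x => norm_nonneg _) h2 (hs.mul_right _)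
    unfold LLn
    refine (norm_tsum_le_tsum_norm h3).trans ?_
    rw [← tsum_mul_right]
    exact h3.tsum_le_tsum h2 (hs.mul_right _)
  gcongr

/-- the integrated bounds for a good root sheet -/
theorem int_good (hR : RV P Γ g C c) (hS : ∀ w, Shd d V z t (fun x => Γ (w x)) g 0 C c (φ w) ψ)
    (h : Gd t g m ε ψ) (w0 : (Fin d → ℤ) → Ω)
    (hφm : Measurable fun w => φ w 0)
    (m1 : ∫ ω, hu (Γ ω) g ∂P ≤ 1 / 100) (m2 : ∫ ω, hu (Γ ω) g ^ 2 ∂P ≤ 1) :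
    ∫ w, hu (φ w 0) g ∂(Measure.infinitePi fun _ : Fin d → ℤ => P) ≤ 6 / 1000 ∧
    ∫ w, hu (φ w 0) g ^ 2 ∂(Measure.infinitePi fun _ : Fin d → ℤ => P) ≤ 1 / 10 := by
  obtain ⟨hi1, hi2⟩ := h.im
  have hg := hR.g0
  have hψ := psi_pos (hS w0)
  have he0 := h.e0
  have he1 := h.e1
  obtain ⟨he2, he3⟩ := h.em2
  have ht := (hS w0).t0
  have hz := (hS w0).z0
  have hψs := (hS w0).ψs
  have hwt : ∀ x, wt t g ψ x ≤ 2 * ε := by
    intro x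
    unfold wt
    rw [div_le_iff₀ hψ]
    have h1 := h.three x
    calc t ^ 2 * ‖ψ x‖ ^ 2 * g.im ≤ ε * g.im := by gcongr
      _ ≤ _ := by nlinarith
  have hW := WW_two hR hS w0 (2 * ε) hwt
  have hS0 : t ^ 2 * ∑' x, ‖ψ x‖ ^ 2 ≤ 2 := by
    have h1 := im_psi (hS w0)
    have h2 : 0 ≤ ∑' x, ‖ψ x‖ ^ 2 := tsum_nonneg fun x => by positivity
    have h3 : t ^ 2 * g.im * ∑' x, ‖ψ x‖ ^ 2 ≤ (ψ 0).im := by
      rw [← h1]
      gcongr
      linarith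
    have h4 : (t ^ 2 * ∑' x, ‖ψ x‖ ^ 2) * g.im ≤ 2 * g.im := by linarith
    exact le_of_mul_le_mul_right h4 hg
  have hL := LL_two hR hψs ε ε he0 h.two h.three 2 hS0
  have hD := hR.diff2
  have i1 := hR.int1
  have n1 : 0 ≤ ∫ ω, hu (Γ ω) g ∂P := integral_nonneg fun ω => hR.nonneg ω
  have n2 : 0 ≤ ∫ ω, hu (Γ ω) g ^ 2 ∂P := integral_nonneg fun ω => sq_nonneg _
  obtain ⟨Q, hQ⟩ : ∃ Q, Q = Measure.infinitePi fun _ : Fin d → ℤ => P := ⟨_, rfl⟩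
  have hQp : IsProbabilityMeasure Q := by rw [hQ]; infer_instance
  have jW := WW_int2 hR hS w0
  have jL := LL_int2 (t := t) hR hψs
  rw [← hQ] at hW hL jW jL ⊢
  have hWb : ∫ w, WW t g ψ Γ w ^ 2 ∂Q ≤ 12 / 100000 := by
    nlinarith
  have hLb : (∫ w, ‖LLn t g ψ Γ w‖ ^ 2 ∂Q) / g.im ^ 2 ≤ 4 / 100000 := by
    rw [div_le_iff₀ (by positivity)]
    have h1 : (ε ^ 2 + ε * 2) ≤ 3 / 100000 := by nlinarith
    have h2 : ∫ ω, ‖Γ ω - g‖ ^ 2 ∂P ≤ (102 / 100) * g.im ^ 2 := by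
      refine hD.trans ?_
      gcongr
      linarith
    have h3 : 0 ≤ ∫ ω, ‖Γ ω - g‖ ^ 2 ∂P := integral_nonneg fun ω => by positivity
    calc _ ≤ (ε ^ 2 + ε * 2) * ∫ ω, ‖Γ ω - g‖ ^ 2 ∂P := hL
      _ ≤ (3 / 100000) * ((102 / 100) * g.im ^ 2) := by gcongr
      _ ≤ _ := by nlinarith [sq_nonneg g.im]
  have hεg : ε ^ 2 / g.im ^ 2 ≤ 1 / 10000 := by
    rw [div_le_iff₀ (by positivity)]
    have h1 : ε ≤ g.im / 100 := h.em.trans (by linarith [h.gm])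
    calc ε ^ 2 ≤ (g.im / 100) ^ 2 := by gcongr
      _ = _ := by ring
  constructor
  · have jL2 : Integrable (fun w => (9 / g.im ^ 2) * ‖LLn t g ψ Γ w‖ ^ 2 +
        9 * (ε ^ 2 / g.im ^ 2)) Q := (jL.const_mul _).add (integrable_const _)
    have jR : Integrable (fun w => 36 * WW t g ψ Γ w ^ 2 +
        ((9 / g.im ^ 2) * ‖LLn t g ψ Γ w‖ ^ 2 + 9 * (ε ^ 2 / g.im ^ 2))) Q :=
      (jW.const_mul 36).add jL2
    refine (integral_mono_of_nonneg (Eventually.of_forall fun w =>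
      hu_nonneg (phi_pos (hS w)) hg) jR (Eventually.of_forall fun w => ?_)).trans ?_
    · refine (pt_good hR hS h w).1.trans (le_of_eq ?_)
      field_simp
    rw [integral_add (jW.const_mul 36) jL2, integral_add (jL.const_mul _) (integrable_const _),
      integral_const_mul, integral_const_mul, integral_const]
    simp only [probReal_univ, smul_eq_mul, one_mul]
    have e1 : 9 / g.im ^ 2 * ∫ w, ‖LLn t g ψ Γ w‖ ^ 2 ∂Q =
        9 * ((∫ w, ‖LLn t g ψ Γ w‖ ^ 2 ∂Q) / g.im ^ 2) := by ring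
    rw [e1]
    linarith
  · have jR : Integrable (fun w => 3 * WW t g ψ Γ w ^ 2 + 32 * (2 * ε / m) ^ 2) Q :=
      (jW.const_mul 3).add (integrable_const _)
    refine (integral_mono_of_nonneg (Eventually.of_forall fun w => sq_nonneg _) jR
      (Eventually.of_forall fun w => (pt_good hR hS h w).2)).trans ?_
    rw [integral_add (jW.const_mul 3) (integrable_const _), integral_const_mul, integral_const]
    simp only [probReal_univ, smul_eq_mul, one_mul]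
    nlinarith

/-- the integrated bounds for an arbitrary root sheet -/
theorem int_bad (hR : RV P Γ g C c) (hS : ∀ w, Shd d V z t (fun x => Γ (w x)) g 0 C c (φ w) ψ)
    (Hb : ℝ) (hHb : hu (ψ 0) g ≤ Hb) (w0 : (Fin d → ℤ) → Ω)
    (m1 : ∫ ω, hu (Γ ω) g ∂P ≤ 1 / 100) (m2 : ∫ ω, hu (Γ ω) g ^ 2 ∂P ≤ 1) :
    ∫ w, hu (φ w 0) g ^ 2 ∂(Measure.infinitePi fun _ : Fin d → ℤ => P) ≤ 12 * (2 + Hb) ^ 2 := by
  have hg := hR.g0
  have hwt : ∀ x, wt t g ψ x ≤ 1 := by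
    intro x
    obtain ⟨k1, k2⟩ := wt_sum hS w0
    exact (k1.le_tsum x fun y _ => wt_nonneg hS w0 y).trans k2
  have hW := WW_two hR hS w0 1 hwt
  have n1 : 0 ≤ ∫ ω, hu (Γ ω) g ∂P := integral_nonneg fun ω => hR.nonneg ω
  obtain ⟨Q, hQ⟩ : ∃ Q, Q = Measure.infinitePi fun _ : Fin d → ℤ => P := ⟨_, rfl⟩
  have hQp : IsProbabilityMeasure Q := by rw [hQ]; infer_instance
  have jW := WW_int2 hR hS w0
  rw [← hQ] at hW jW ⊢
  have hWb : ∫ w, WW t g ψ Γ w ^ 2 ∂Q ≤ 2 := by nlinarith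
  have jR : Integrable (fun w => (2 + Hb) ^ 2 * (2 * WW t g ψ Γ w ^ 2 + 8)) Q :=
    ((jW.const_mul 2).add (integrable_const _)).const_mul _
  refine (integral_mono_of_nonneg (Eventually.of_forall fun w => sq_nonneg _) jR
    (Eventually.of_forall fun w => pt_bad hR hS Hb hHb w)).trans ?_
  rw [integral_const_mul, integral_add (jW.const_mul 2) (integrable_const _), integral_const_mul,
    integral_const]
  simp only [probReal_univ, smul_eq_mul, one_mul]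
  nlinarith [sq_nonneg (2 + Hb)]

end ints

end Pool.Agent.Y662.TR
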