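import Pool.Agent.W883.LL.Pole
import Pool.Agent.TH794.LL2.Meas

/-! Comparison of the Cauchy transforms of two measures whose Poisson integrals at a small height
are close. -/

set_option autoImplicit false
set_option linter.unusedSectionVars false

open scoped BigOperators Topology
open MeasureTheory Filter

namespace Pool.Agent.Y662.TR

open Pool.Agent.W883.LL
open Pool.Agent.TH794.LL2 (Po Po_int)

theorem P_comm (e η E : ℝ) : P e η E = η / ((e - E) ^ 2 + η ^ 2) := by
  unfold P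
  congr 2
  ring

theorem Po_P (m : Measure ℝ) (E η : ℝ) : Po m E η = ∫ e, P e η E ∂m := by
  unfold Po
  refine integral_congr_ae (Eventually.of_forall fun e => ?_)
  simp only
  rw [P_comm]

theorem P_meas2 (η : ℝ) : Measurable fun p : ℝ × ℝ => P p.2 η p.1 := by
  unfold P
  fun_prop

theorem P_prod (m : Measure ℝ) [IsFiniteMeasure m] (η : ℝ) (hη : 0 < η) :
    Integrable (fun p : ℝ × ℝ => P p.2 η p.1) ((volume : Measure ℝ).prod m) := by
  rw [integrable_prod_iff' (P_meas2 η).aestronglyMeasurable]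
  constructor
  · exact Eventually.of_forall fun e => P_integrable e η hη
  · have h1 : (fun y : ℝ => ∫ x, ‖P y η x‖) = fun _ => Real.pi := by
      funext y
      rw [← P_integral y η hη]
      refine integral_congr_ae (Eventually.of_forall fun x => ?_)
      exact Real.norm_of_nonneg (P_nonneg y η x hη)
    rw [h1]
    exact integrable_const _

/-- the total mass of the Poisson integral -/
theorem po_mass (m : Measure ℝ) [IsFiniteMeasure m] (η : ℝ) (hη : 0 < η) :
    Integrable (fun E => Po m E η) ∧ ∫ E, Po m E η = Real.pi * m.real Set.univ := by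
  have h0 : (fun E => Po m E η) = fun E => ∫ e, P e η E ∂m := by
    funext E
    exact Po_P m E η
  rw [h0]
  refine ⟨(P_prod m η hη).integral_prod_left, ?_⟩
  rw [integral_integral_swap (P_prod m η hη)]
  have h1 : (fun y : ℝ => ∫ x, P y η x) = fun _ => Real.pi := by
    funext y
    exact P_integral y η hη
  rw [h1, integral_const, smul_eq_mul, mul_comm]

theorem po_nonneg (m : Measure ℝ) (E η : ℝ) (hη : 0 < η) : 0 ≤ Po m E η := by
  rw [Po_P]
  exact integral_nonneg fun e => P_nonneg e η E hη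

/-- the Cauchy transform from the Poisson integral -/
theorem po_cauchy (m : Measure ℝ) [IsFiniteMeasure m] (η : ℝ) (hη : 0 < η) (w : ℂ)
    (hw : 0 < w.im) :
    Integrable (fun E : ℝ => ((Po m E η : ℝ) : ℂ) * ((E : ℂ) - w)⁻¹) ∧
    ∫ E : ℝ, ((Po m E η : ℝ) : ℂ) * ((E : ℂ) - w)⁻¹ =
      Real.pi * ∫ x : ℝ, ((x : ℂ) - (w + η * Complex.I))⁻¹ ∂m := by
  have hm : Measurable fun p : ℝ × ℝ => ((P p.2 η p.1 : ℝ) : ℂ) * ((p.1 : ℂ) - w)⁻¹ := by
    have h1 := Complex.measurable_ofReal.comp (P_meas2 η)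
    exact h1.mul (by fun_prop)
  have hP2 : Integrable (fun p : ℝ × ℝ => ((P p.2 η p.1 : ℝ) : ℂ) * ((p.1 : ℂ) - w)⁻¹)
      ((volume : Measure ℝ).prod m) := by
    refine ((P_prod m η hη).mul_const (1 / w.im)).mono' hm.aestronglyMeasurable ?_
    refine Eventually.of_forall fun p => ?_
    rw [norm_mul, Complex.norm_real, Real.norm_of_nonneg (P_nonneg _ η _ hη), norm_inv,
      ← one_div]
    have h1 := norm_sub_ge w hw p.1
    have h2 := P_nonneg p.2 η p.1 hη
    gcongr
  have h0 : ∀ E : ℝ, ((Po m E η : ℝ) : ℂ) * ((E : ℂ) - w)⁻¹ =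
      ∫ e, ((P e η E : ℝ) : ℂ) * ((E : ℂ) - w)⁻¹ ∂m := by
    intro E
    rw [integral_mul_const, integral_complex_ofReal, Po_P]
  simp only [h0]
  refine ⟨hP2.integral_prod_left, ?_⟩
  rw [integral_integral_swap hP2, ← integral_const_mul]
  refine integral_congr_ae (Eventually.of_forall fun e => ?_)
  simp only
  have h1 := (P_cauchy e η hη w hw).2
  simp only [div_eq_mul_inv] at h1
  exact h1

theorem arsinh_le {x : ℝ} (hx : 0 ≤ x) : Real.arsinh x ≤ Real.log (1 + 2 * x) := by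
  unfold Real.arsinh
  have h1 : Real.sqrt (1 + x ^ 2) ≤ 1 + x := by
    rw [Real.sqrt_le_left (by linarith)]
    nlinarith
  have h2 : 0 < x + Real.sqrt (1 + x ^ 2) := by
    have : 0 < Real.sqrt (1 + x ^ 2) := Real.sqrt_pos.2 (by positivity)
    linarith
  exact Real.log_le_log h2 (by linarith)

theorem inv_norm_eq (w : ℂ) (hw : 0 < w.im) (E : ℝ) :
    ‖((E : ℂ) - w)⁻¹‖ = (Real.sqrt (1 + ((E - w.re) / w.im) ^ 2))⁻¹ * w.im⁻¹ := by
  rw [norm_inv, ← mul_inv]
  congr 1
  have h1 : ‖(E : ℂ) - w‖ ^ 2 = (E - w.re) ^ 2 + w.im ^ 2 := by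
    rw [Complex.sq_norm, Complex.normSq_apply]
    simp
    ring
  have h2 : (Real.sqrt (1 + ((E - w.re) / w.im) ^ 2) * w.im) ^ 2 = (E - w.re) ^ 2 + w.im ^ 2 := by
    rw [mul_pow, Real.sq_sqrt (by positivity)]
    field_simp
    ring
  rw [← h1] at h2
  exact ((pow_left_inj₀ (by positivity) (norm_nonneg _) two_ne_zero).1 h2).symm

/-- the integral of the modulus of the Cauchy kernel over an interval -/
theorem inv_norm_int (w : ℂ) (hw : 0 < w.im) (B : ℝ) (hB : 0 ≤ B) :
    ∫ E in Set.Ioc (w.re - B) (w.re + B), ‖((E : ℂ) - w)⁻¹‖ ≤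
      2 * Real.log (1 + 2 * (B / w.im)) := by
  rw [← intervalIntegral.integral_of_le (by linarith)]
  have hd : ∀ E ∈ Set.uIcc (w.re - B) (w.re + B),
      HasDerivAt (fun E : ℝ => Real.arsinh ((E - w.re) / w.im)) ‖((E : ℂ) - w)⁻¹‖ E := by
    intro E _
    rw [inv_norm_eq w hw E]
    have h1 : HasDerivAt (fun E : ℝ => (E - w.re) / w.im) w.im⁻¹ E := by
      have := ((hasDerivAt_id E).sub_const w.re).div_const w.im
      simpa using this
    exact (Real.hasDerivAt_arsinh _).comp E h1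
  have hc : Continuous fun E : ℝ => ‖((E : ℂ) - w)⁻¹‖ := (inv_cont w hw).norm
  rw [intervalIntegral.integral_eq_sub_of_hasDerivAt hd (hc.intervalIntegrable _ _)]
  have h2 : (w.re + B - w.re) / w.im = B / w.im := by ring
  have h3 : (w.re - B - w.re) / w.im = -(B / w.im) := by ring
  rw [h2, h3, Real.arsinh_neg]
  have := arsinh_le (show 0 ≤ B / w.im by positivity)
  linarith

/-- **comparison of the Cauchy transforms** -/
theorem cmp (m m' : Measure ℝ) [IsFiniteMeasure m] [IsFiniteMeasure m'] (η : ℝ) (hη : 0 < η)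
    (w : ℂ) (hw : 0 < w.im) (ε B : ℝ) (hB : 0 < B)
    (h : ∀ E, |Po m E η - Po m' E η| ≤ ε) :
    ‖∫ x : ℝ, ((x : ℂ) - (w + η * Complex.I))⁻¹ ∂m -
      ∫ x : ℝ, ((x : ℂ) - (w + η * Complex.I))⁻¹ ∂m'‖ ≤
      ε * (2 * Real.log (1 + 2 * (B / w.im))) + (m.real Set.univ + m'.real Set.univ) / B := by
  have hε : 0 ≤ ε := (abs_nonneg _).trans (h 0)
  obtain ⟨i1, e1⟩ := po_cauchy m η hη w hw
  obtain ⟨i2, e2⟩ := po_cauchy m' η hη w hw
  obtain ⟨j1, f1⟩ := po_mass m η hη
  obtain ⟨j2, f2⟩ := po_mass m' η hη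
  obtain ⟨D, hD⟩ : ∃ D : ℂ, D = ∫ x : ℝ, ((x : ℂ) - (w + η * Complex.I))⁻¹ ∂m -
      ∫ x : ℝ, ((x : ℂ) - (w + η * Complex.I))⁻¹ ∂m' := ⟨_, rfl⟩
  rw [← hD]
  have hpi : (3 : ℝ) < Real.pi := Real.pi_gt_three
  have h1 : (Real.pi : ℂ) * D = ∫ E : ℝ, (((Po m E η : ℝ) : ℂ) * ((E : ℂ) - w)⁻¹ -
      ((Po m' E η : ℝ) : ℂ) * ((E : ℂ) - w)⁻¹) := by
    rw [integral_sub i1 i2, e1, e2, hD, mul_sub]
  have i3 : Integrable (fun E : ℝ => ((Po m E η : ℝ) : ℂ) * ((E : ℂ) - w)⁻¹ -
      ((Po m' E η : ℝ) : ℂ) * ((E : ℂ) - w)⁻¹) := i1.sub i2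
  have h2 : Real.pi * ‖D‖ ≤ ∫ E : ℝ, ‖((Po m E η : ℝ) : ℂ) * ((E : ℂ) - w)⁻¹ -
      ((Po m' E η : ℝ) : ℂ) * ((E : ℂ) - w)⁻¹‖ := by
    have h3 : Real.pi * ‖D‖ = ‖(Real.pi : ℂ) * D‖ := by
      rw [norm_mul, Complex.norm_real, Real.norm_of_nonneg Real.pi_pos.le]
    rw [h3, h1]
    exact norm_integral_le_integral_norm _
  have h4 : ∀ E : ℝ, ‖((Po m E η : ℝ) : ℂ) * ((E : ℂ) - w)⁻¹ -
      ((Po m' E η : ℝ) : ℂ) * ((E : ℂ) - w)⁻¹‖ = |Po m E η - Po m' E η| * ‖((E : ℂ) - w)⁻¹‖ := by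
    intro E
    rw [← sub_mul, norm_mul, ← Complex.ofReal_sub, Complex.norm_real, Real.norm_eq_abs]
  have hI : MeasurableSet (Set.Ioc (w.re - B) (w.re + B)) := measurableSet_Ioc
  rw [← integral_add_compl hI i3.norm] at h2
  have hc : Continuous fun E : ℝ => ‖((E : ℂ) - w)⁻¹‖ := (inv_cont w hw).norm
  have k1 : ∫ E in Set.Ioc (w.re - B) (w.re + B), ‖((Po m E η : ℝ) : ℂ) * ((E : ℂ) - w)⁻¹ -
      ((Po m' E η : ℝ) : ℂ) * ((E : ℂ) - w)⁻¹‖ ≤ ε * (2 * Real.log (1 + 2 * (B / w.im))) := by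
    have h5 : IntegrableOn (fun E : ℝ => ε * ‖((E : ℂ) - w)⁻¹‖)
        (Set.Ioc (w.re - B) (w.re + B)) :=
      ((hc.const_mul ε).integrableOn_Icc).mono_set Set.Ioc_subset_Icc_self
    refine (setIntegral_mono_on i3.norm.integrableOn h5 hI fun E _ => ?_).trans ?_
    · rw [h4 E]
      have := h E
      gcongr
    · rw [integral_const_mul]
      have := inv_norm_int w hw B hB.le
      gcongr
  have k2 : ∫ E in (Set.Ioc (w.re - B) (w.re + B))ᶜ, ‖((Po m E η : ℝ) : ℂ) * ((E : ℂ) - w)⁻¹ -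
      ((Po m' E η : ℝ) : ℂ) * ((E : ℂ) - w)⁻¹‖ ≤
      Real.pi * (m.real Set.univ + m'.real Set.univ) / B := by
    have h6 : Integrable (fun E => (Po m E η + Po m' E η) / B) := (j1.add j2).div_const B
    have h7 : ∫ E, (Po m E η + Po m' E η) / B =
        Real.pi * (m.real Set.univ + m'.real Set.univ) / B := by
      rw [integral_div, integral_add j1 j2, f1, f2, mul_add]
    rw [← h7]
    refine (setIntegral_mono_on i3.norm.integrableOn h6.integrableOn hI.compl
      fun E hE => ?_).trans ?_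
    · rw [h4 E]
      have h9 : B ≤ ‖(E : ℂ) - w‖ := by
        have h10 := Complex.abs_re_le_norm ((E : ℂ) - w)
        rw [Complex.sub_re, Complex.ofReal_re] at h10
        refine le_trans ?_ h10
        simp only [Set.mem_compl_iff, Set.mem_Ioc, not_and_or, not_lt, not_le] at hE
        rcases hE with hE | hE
        · rw [le_abs]
          right
          linarith
        · rw [le_abs]
          left
          linarith
      have h10 : |Po m E η - Po m' E η| ≤ Po m E η + Po m' E η := by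
        have a1 := po_nonneg m E η hη
        have a2 := po_nonneg m' E η hη
        rw [abs_le]
        constructor <;> linarith
      rw [norm_inv, ← div_eq_mul_inv]
      have a1 := po_nonneg m E η hη
      have a2 := po_nonneg m' E η hη
      gcongr
    · refine setIntegral_le_integral h6 (Eventually.of_forall fun E => ?_)
      have a1 := po_nonneg m E η hη
      have a2 := po_nonneg m' E η hη
      simp only [Pi.zero_apply]
      positivity
  have h11 : Real.pi * ‖D‖ ≤ ε * (2 * Real.log (1 + 2 * (B / w.im))) +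
      Real.pi * (m.real Set.univ + m'.real Set.univ) / B := by
    refine h2.trans (add_le_add ?_ ?_)
    · exact k1
    · exact k2
  have h12 : 0 ≤ Real.log (1 + 2 * (B / w.im)) := Real.log_nonneg (by
    have : 0 ≤ 2 * (B / w.im) := by positivity
    linarith)
  have h13 : ε * (2 * Real.log (1 + 2 * (B / w.im))) ≤
      Real.pi * (ε * (2 * Real.log (1 + 2 * (B / w.im)))) := by
    have : 0 ≤ ε * (2 * Real.log (1 + 2 * (B / w.im))) := by positivity
    nlinarith
  have h14 : Real.pi * ‖D‖ ≤ Real.pi * (ε * (2 * Real.log (1 + 2 * (B / w.im))) +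
      (m.real Set.univ + m'.real Set.univ) / B) := by
    rw [mul_add]
    refine h11.trans (add_le_add h13 (le_of_eq ?_))
    ring
  exact le_of_mul_le_mul_left h14 Real.pi_pos

end Pool.Agent.Y662.TR
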