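import Pool.Agent.Y662.TR.Cmp
import Pool.Agent.TH369.MU.PO2
import Pool.Agent.TH369.MU.QB
import Pool.Agent.TH369.MU.SM

/-! A criterion for absolutely continuous spectrum. -/

set_option autoImplicit false
set_option linter.unusedSectionVars false

open scoped BigOperators InnerProductSpace Topology ENNReal
open MeasureTheory Filter

namespace Pool.Agent.Y662.TR

open Pool.Agent.TH369.AN (Rz rz_eq rz_uniq rz_norm)
open Pool.Agent.TH369.MU (SpM ep zk qk Fk qk_sq qk_add qk_sum qk_nonneg)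
open Pool.Agent.TH369.MU.PO2 (ep_pos ep_tendsto)
open Pool.Agent.W883.LL (P P_nonneg P_cont)
open Pool.Agent.TH794.LL2 (Po Po_int Po_im)

/-- the Poisson kernel near its pole -/
theorem P_near (x η E : ℝ) (hη : 0 < η) (h : |E - x| ≤ η) : 1 / (2 * η) ≤ P x η E := by
  unfold P
  rw [div_le_div_iff₀ (by positivity) (by positivity)]
  have h1 : (E - x) ^ 2 ≤ η ^ 2 := by
    rw [← sq_abs]
    gcongr
  nlinarith

/-- the mass of the Poisson kernel near its pole -/
theorem P_mass (x η : ℝ) (hη : 0 < η) (U : Set ℝ) (hU : Metric.closedBall x η ⊆ U) :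
    1 ≤ ∫⁻ E in U, ENNReal.ofReal (P x η E) := by
  calc (1 : ENNReal) = ENNReal.ofReal (1 / (2 * η)) * volume (Metric.closedBall x η) := by
        rw [Real.volume_closedBall, ← ENNReal.ofReal_mul (by positivity)]
        rw [one_div_mul_cancel (by positivity), ENNReal.ofReal_one]
    _ = ∫⁻ _ in Metric.closedBall x η, ENNReal.ofReal (1 / (2 * η)) := by
        rw [setLIntegral_const]
    _ ≤ ∫⁻ E in Metric.closedBall x η, ENNReal.ofReal (P x η E) := by
        refine setLIntegral_mono' Metric.isClosed_closedBall.measurableSet fun E hE => ?_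
        refine ENNReal.ofReal_le_ofReal (P_near x η E hη ?_)
        rw [Metric.mem_closedBall, Real.dist_eq] at hE
        exact hE
    _ ≤ _ := lintegral_mono_set hU

/-- the Poisson integral as a Lebesgue integral -/
theorem po_lint (m : Measure ℝ) [IsFiniteMeasure m] (η : ℝ) (hη : 0 < η) (U : Set ℝ) :
    ∫⁻ E in U, ENNReal.ofReal (Po m E η) =
      ∫⁻ x, (∫⁻ E in U, ENNReal.ofReal (P x η E)) ∂m := by
  have h1 : ∀ E, ENNReal.ofReal (Po m E η) = ∫⁻ x, ENNReal.ofReal (P x η E) ∂m := by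
    intro E
    rw [Po_P, ofReal_integral_eq_lintegral_ofReal]
    · have := Po_int m E η hη
      refine this.congr (Eventually.of_forall fun x => ?_)
      simp only
      rw [P_comm]
    · exact Eventually.of_forall fun x => P_nonneg x η E hη
  simp only [h1]
  exact lintegral_lintegral_swap (μ := volume.restrict U) (ν := m)
    (f := fun E x => ENNReal.ofReal (P x η E)) ((P_meas2 η).ennreal_ofReal).aemeasurable

/-- the mass of an open set -/
theorem open_le (m : Measure ℝ) [IsFiniteMeasure m] (U : Set ℝ) (hU : IsOpen U) :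
    m U ≤ liminf (fun k => ∫⁻ E in U, ENNReal.ofReal (Po m E (ep k))) atTop := by
  have h1 : m U ≤ ∫⁻ x, liminf (fun k => ∫⁻ E in U, ENNReal.ofReal (P x (ep k) E)) atTop ∂m := by
    rw [← lintegral_indicator_one hU.measurableSet]
    refine lintegral_mono fun x => ?_
    by_cases hx : x ∈ U
    · rw [Set.indicator_of_mem hx, Pi.one_apply]
      obtain ⟨r, hr, hb⟩ := Metric.isOpen_iff.1 hU x hx
      refine le_liminf_of_le (by isBoundedDefault) ?_
      have h2 : ∀ᶠ k in atTop, ep k < r := by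
        have := (tendsto_nhdsWithin_iff.1 ep_tendsto).1
        exact this.eventually_lt_const hr
      filter_upwards [h2] with k hk
      refine P_mass x (ep k) (ep_pos k) U (fun E hE => hb ?_)
      rw [Metric.mem_closedBall] at hE
      rw [Metric.mem_ball]
      linarith
    · rw [Set.indicator_of_notMem hx]
      exact bot_le
  refine h1.trans ?_
  have h3 : ∀ k, ∫⁻ E in U, ENNReal.ofReal (Po m E (ep k)) =
      ∫⁻ x, (∫⁻ E in U, ENNReal.ofReal (P x (ep k) E)) ∂m := fun k => po_lint m (ep k) (ep_pos k) U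
  simp only [h3]
  refine lintegral_liminf_le (μ := m) (u := atTop)
    (f := fun k x => ∫⁻ E in U, ENNReal.ofReal (P x (ep k) E)) fun k => ?_
  have h4 : Measurable fun p : ℝ × ℝ => ENNReal.ofReal (P p.1 (ep k) p.2) := by
    have := (P_meas2 (ep k)).comp measurable_swap
    exact this.ennreal_ofReal
  exact h4.lintegral_prod_right'

/-- **the criterion** -/
theorem crit (m : Measure ℝ) [IsFiniteMeasure m] (α β : ℝ) (C δ : ENNReal) (hC : C ≠ ∞)
    (h : ∃ᶠ k in atTop, ∀ U : Set ℝ, IsOpen U → U ⊆ Set.Ioo α β →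
      ∫⁻ E in U, ENNReal.ofReal (Po m E (ep k)) ≤ C * (volume U) ^ (1 / 2 : ℝ) + δ)
    (A : Set ℝ) (hA : A ⊆ Set.Ioo α β) (h0 : volume A = 0) : m A ≤ δ := by
  have h1 : ∀ n : ℕ, m A ≤ C * (ENNReal.ofReal (1 / ((n : ℝ) + 1))) ^ (1 / 2 : ℝ) + δ := by
    intro n
    have hpos : volume A < ENNReal.ofReal (1 / ((n : ℝ) + 1)) := by
      rw [h0]
      exact ENNReal.ofReal_pos.2 (by positivity)
    obtain ⟨U, hAU, hUo, hUv⟩ := Set.exists_isOpen_lt_of_lt A _ hpos
    have hU2 : IsOpen (U ∩ Set.Ioo α β) := hUo.inter isOpen_Ioo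
    calc m A ≤ m (U ∩ Set.Ioo α β) := measure_mono (Set.subset_inter hAU hA)
      _ ≤ liminf (fun k => ∫⁻ E in U ∩ Set.Ioo α β, ENNReal.ofReal (Po m E (ep k))) atTop :=
          open_le m _ hU2
      _ ≤ C * (volume (U ∩ Set.Ioo α β)) ^ (1 / 2 : ℝ) + δ := by
          refine liminf_le_of_frequently_le' (h.mono fun k hk => ?_)
          exact hk _ hU2 Set.inter_subset_right
      _ ≤ _ := by
          gcongr
          exact (measure_mono Set.inter_subset_left).trans hUv.le
  have h2 : Tendsto (fun n : ℕ => C * (ENNReal.ofReal (1 / ((n : ℝ) + 1))) ^ (1 / 2 : ℝ) + δ)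
      atTop (𝓝 (C * (ENNReal.ofReal 0) ^ (1 / 2 : ℝ) + δ)) := by
    have h3 : Tendsto (fun n : ℕ => (ENNReal.ofReal (1 / ((n : ℝ) + 1))) ^ (1 / 2 : ℝ)) atTop
        (𝓝 ((ENNReal.ofReal 0) ^ (1 / 2 : ℝ))) :=
      (ENNReal.continuous_rpow_const.tendsto _).comp
        ((ENNReal.continuous_ofReal.tendsto _).comp tendsto_one_div_add_atTop_nhds_zero_nat)
    exact (ENNReal.Tendsto.const_mul h3 (Or.inr hC)).add_const δ
  have h3 := ge_of_tendsto' h2 h1
  rw [ENNReal.ofReal_zero, ENNReal.zero_rpow_of_pos (by norm_num), mul_zero, zero_add] at h3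
  exact h3

end Pool.Agent.Y662.TR
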