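import Pool.Agent.Y662.TR.Sht
import Pool.Agent.TH794.LL2.Lat3
import Pool.Agent.TH794.QE.FreeF
import Pool.Agent.W918.BK.Osc

/-! The free Green function. -/

set_option autoImplicit false
set_option linter.unusedSectionVars false

open scoped BigOperators InnerProductSpace Topology
open MeasureTheory Filter

namespace Pool.Agent.Y662.TR

open Pool.Agent.TH369.AN (Rz rz_eq rz_uniq rz_norm)
open Pool.Agent.TH794.LL2 (Po Po_int Po_im Res po_spec gL G0 freeC)
open Pool.Agent.W788.LD.Spec (S)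
open Pool.Agent.TH794.QD (GF F0 F1 CH hol0 fin0 lim_le GF_im0 CH_nonneg)
open Pool.Agent.W788.MFP.Four (T adj)

section torus

variable {d L : ℕ} [NeZero L]

/-- the spectral measure of the torus -/
noncomputable def mL (d L : ℕ) [NeZero L] : Measure ℝ :=
  (PMF.uniformOfFintype (T d L)).toMeasure.map fun k => 2 * d - adj k

theorem adjm : Measurable fun k : T d L => (2 * d - adj k : ℝ) := measurable_of_finite _

instance : IsProbabilityMeasure (mL d L) := by
  unfold mL
  exact Measure.isProbabilityMeasure_map adjm.aemeasurable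

theorem mL_cauchy (z : ℂ) : ∫ x : ℝ, ((x : ℂ) - z)⁻¹ ∂(mL d L) =
    -(starRingEnd ℂ) (gL d L (2 * d - (starRingEnd ℂ) z)) := by
  unfold mL
  rw [integral_map adjm.aemeasurable (by fun_prop), PMF.integral_eq_sum]
  unfold gL
  rw [map_mul, map_sum, ← mul_neg, ← Finset.sum_neg_distrib, Finset.mul_sum]
  refine Finset.sum_congr rfl fun k _ => ?_
  rw [PMF.uniformOfFintype_apply]
  have h1 : ((Fintype.card (T d L) : ENNReal)⁻¹).toReal =
      (Pool.Agent.W788.MFP.Four.NN d L)⁻¹ := by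
    rw [ENNReal.toReal_inv, ENNReal.toReal_natCast]
    unfold Pool.Agent.W788.MFP.Four.NN
    congr 1
    simp [ZMod.card]
  rw [h1, map_inv₀, Complex.conj_ofReal, map_inv₀, map_sub, map_sub, Complex.conj_ofReal,
    Complex.conj_conj, map_mul, Complex.real_smul]
  have h2 : (starRingEnd ℂ) (2 : ℂ) = 2 := Complex.conj_ofNat 2
  have h3 : (starRingEnd ℂ) ((d : ℕ) : ℂ) = d := Complex.conj_natCast d
  rw [h2, h3, ← inv_neg]
  push_cast
  congr 2
  ring

/-- the comparison of the lattice with the torus -/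
theorem free_cmp (hd : 3 ≤ d) (B : ℝ) (z : ℂ) (hz : 0 < z.im) (hL : 9 ≤ L) (R : ℝ) (hR : 0 < R) :
    ‖gg d B z - -(starRingEnd ℂ) (gL d L (2 * d - (starRingEnd ℂ) z))‖ ≤
      (64 * d / z.im ^ 2 * (2 * Real.log (1 + 4 * (R / z.im)))) / L + 2 / R := by
  obtain ⟨η, hη⟩ : ∃ η, η = z.im / 2 := ⟨_, rfl⟩
  have hη0 : 0 < η := by rw [hη]; linarith
  have hL0 : (0 : ℝ) < L := by
    have : 0 < L := by omega
    exact_mod_cast this
  have hL9 : (9 : ℝ) ≤ L := by exact_mod_cast hL
  obtain ⟨m, hf, hu, hm, hp⟩ := spm_po (TT B (Vr (d := d) 0 (fun _ => 0)) (fun _ => 0))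
    (TT_sa _ _ _) (dv (([], 0) : Vt d))
  have hm' : ∀ z : ℂ, z.im ≠ 0 → Ps B 0 z (fun _ => 0) (0 : Fin d → ℤ) 0 =
      ∫ x : ℝ, ((x : ℂ) - z)⁻¹ ∂m := by
    intro z hz
    rw [ps_inner]
    exact hm z hz
  have hres : Res d (fun _ => 2 * d) 0 m := by
    have h1 := res_of B 0 (fun _ => 0) (fun x => by simp) (0 : Fin d → ℤ) m hm'
    simpa using h1
  have hpo : ∀ E, |Po m E η - Po (mL d L) E η| ≤ (64 * d / z.im ^ 2) / L := by
    intro E
    obtain ⟨ur, ui, h1, h2⟩ := po_spec (fun _ : Fin d → ℤ => (2 * d : ℝ)) (fun _ => 0) (2 * d) 0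
      (fun x => by ring) 0 m hres E η hη0
    have h3 := freeC (L := L) 0 (2 * d / (L / 8) * η⁻¹) η (L / 8) hη0 (by positivity)
      (by linarith) le_rfl (fun _ => 0) (fun x => by ring) 0 (2 * d - E) ur ui h1
    have h4 : Po (mL d L) E η = G0 d L (2 * d - E) η := by
      rw [← Po_im _ E η hη0, mL_cauchy, Complex.neg_im, Complex.conj_im, neg_neg]
      unfold G0
      congr 2
      simp only [map_add, map_mul, Complex.conj_ofReal, Complex.conj_I]
      push_cast
      ring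
    rw [h4, h2]
    refine h3.trans (le_of_eq ?_)
    rw [hη]
    field_simp
    ring
  have h1 := cmp m (mL d L) η hη0 (z - η * Complex.I) (by
    simp only [Complex.sub_im, Complex.mul_im, Complex.ofReal_re, Complex.I_im, Complex.ofReal_im,
      Complex.I_re]
    linarith) _ R hR hpo
  have h2 : z - η * Complex.I + η * Complex.I = z := by ring
  have h3 : (z - η * Complex.I).im = z.im / 2 := by
    simp only [Complex.sub_im, Complex.mul_im, Complex.ofReal_re, Complex.I_im, Complex.ofReal_im,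
      Complex.I_re]
    linarith
  rw [h2, h3, mL_cauchy, ← hm' z hz.ne', ps_zero, hu, norm_dv, probReal_univ] at h1
  refine h1.trans (le_of_eq ?_)
  have e1 : 2 * (R / (z.im / 2)) = 4 * (R / z.im) := by
    field_simp
    ring
  rw [e1]
  ring

end torus

section free

variable {d : ℕ}

/-- **the free Green function** -/
theorem gg_eq (hd : 3 ≤ d) (B : ℝ) (z : ℂ) (hz : 0 < z.im) :
    gg d B z = -(starRingEnd ℂ) (GF (F0 d) (2 * d - (starRingEnd ℂ) z)) := by
  obtain ⟨a, ha⟩ : ∃ a, a = ‖gg d B z - -(starRingEnd ℂ) (GF (F0 d) (2 * d -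
    (starRingEnd ℂ) z))‖ := ⟨_, rfl⟩
  obtain ⟨t, ht⟩ : ∃ t, t = min 1 z.im := ⟨_, rfl⟩
  have ht0 : 0 < t := by rw [ht]; exact lt_min one_pos hz
  have ht1 : t ≤ 1 := by rw [ht]; exact min_le_left _ _
  have htz : t ≤ z.im := by rw [ht]; exact min_le_right _ _
  have hd0 : (0 : ℝ) ≤ d := by positivity
  have key : ∀ R : ℝ, 0 < R → a ≤ 2 / R := by
    intro R hR
    obtain ⟨C, hC⟩ : ∃ C, C = 64 * d / z.im ^ 2 * (2 * Real.log (1 + 4 * (R / z.im))) := ⟨_, rfl⟩
    have hC0 : 0 ≤ C := by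
      rw [hC]
      have : 0 ≤ Real.log (1 + 4 * (R / z.im)) := Real.log_nonneg (by
        have : 0 ≤ 4 * (R / z.im) := by positivity
        linarith)
      positivity
    apply lim_le _ _ (C + 28 * d / t ^ 2)
    intro n
    haveI : NeZero (n + 9) := ⟨by omega⟩
    have h1 := free_cmp (L := n + 9) hd B z hz (by omega) R hR
    rw [← hC] at h1
    have h2 := fin0 (L := n + 9) Pool.Agent.W918.BK.Osc.osc d hd t ht0 ht1
      (2 * d - (starRingEnd ℂ) z) (by
        have : ((2 * d : ℂ) - (starRingEnd ℂ) z).im = z.im := by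
          rw [Complex.sub_im, Complex.conj_im]
          simp
        rw [this]
        exact htz)
    have h3 : a ≤ ‖gg d B z - -(starRingEnd ℂ) (gL d (n + 9) (2 * d - (starRingEnd ℂ) z))‖ +
        ‖gL d (n + 9) (2 * d - (starRingEnd ℂ) z) - GF (F0 d) (2 * d - (starRingEnd ℂ) z)‖ := by
      rw [ha]
      have h4 : ‖gL d (n + 9) (2 * d - (starRingEnd ℂ) z) -
          GF (F0 d) (2 * d - (starRingEnd ℂ) z)‖ =
          ‖-(starRingEnd ℂ) (gL d (n + 9) (2 * d - (starRingEnd ℂ) z)) -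
            -(starRingEnd ℂ) (GF (F0 d) (2 * d - (starRingEnd ℂ) z))‖ := by
        rw [← neg_sub', norm_neg, ← map_sub, Complex.norm_conj]
      rw [h4]
      refine le_trans (le_of_eq ?_) (norm_add_le _ _)
      congr 1
      ring
    have hn : ((n + 9 : ℕ) : ℝ) = n + 9 := by push_cast; ring
    rw [hn] at h1 h2
    have h5 : C / (n + 9) ≤ C / (n + 1) := by
      apply div_le_div_of_nonneg_left hC0 (by positivity) (by linarith)
    have h6 : 28 * (d : ℝ) / (n + 9) / t ^ 2 ≤ 28 * d / t ^ 2 / (n + 1) := by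
      rw [div_div, div_div]
      apply div_le_div_of_nonneg_left (by positivity) (by positivity)
      nlinarith [sq_nonneg t, (Nat.cast_nonneg n : (0 : ℝ) ≤ n)]
    rw [add_div]
    linarith
  have h0 : a ≤ 0 := by
    apply lim_le _ _ 2
    intro n
    have := key (n + 1) (by positivity)
    linarith
  rw [← sub_eq_zero, ← norm_le_zero_iff, ← ha]
  exact h0

/-- Hölder continuity -/
theorem gg_hol (hd : 3 ≤ d) (B : ℝ) (z z' : ℂ) (hz : 0 < z.im) (hz' : 0 < z'.im) :
    ‖gg d B z - gg d B z'‖ ≤ CH d * ‖z - z'‖ ^ (1 / 8 : ℝ) := by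
  rw [gg_eq hd B z hz, gg_eq hd B z' hz', ← neg_sub', norm_neg, ← map_sub, Complex.norm_conj]
  have him : ∀ z : ℂ, ((2 * d : ℂ) - (starRingEnd ℂ) z).im = z.im := by
    intro z
    rw [Complex.sub_im, Complex.conj_im]
    simp
  refine (hol0 Pool.Agent.W918.BK.Osc.osc d hd _ _ (by rw [him]; exact hz.le)
    (by rw [him]; exact hz'.le)).trans (le_of_eq ?_)
  congr 2
  rw [show (2 * d : ℂ) - (starRingEnd ℂ) z - (2 * d - (starRingEnd ℂ) z') =
    -(starRingEnd ℂ) (z - z') by rw [map_sub]; ring, norm_neg, Complex.norm_conj]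

/-- boundedness -/
theorem gg_bd (hd : 3 ≤ d) (B : ℝ) (z : ℂ) (hz : 0 < z.im) : ‖gg d B z‖ ≤ CH d + 1 := by
  have h1 := gg_hol hd B z (z + Complex.I) hz (by simp; linarith)
  have h2 : ‖z - (z + Complex.I)‖ = 1 := by
    rw [sub_add_cancel_left, norm_neg, Complex.norm_I]
  rw [h2, Real.one_rpow, mul_one] at h1
  have h3 : ‖gg d B (z + Complex.I)‖ ≤ 1 := by
    unfold gg
    refine (GG_le B _ _ (z + Complex.I) (by simp; linarith) _ _).trans ?_
    rw [div_le_one (by simp; linarith)]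
    simp
    linarith
  have h4 := norm_add_le (gg d B z - gg d B (z + Complex.I)) (gg d B (z + Complex.I))
  rw [sub_add_cancel] at h4
  linarith

/-- the lower bound -/
theorem gg_low (hd : 3 ≤ d) (κ : ℝ) (hκ : 0 < κ) (hκ1 : κ ≤ 1) : ∃ m : ℝ, 0 < m ∧
    ∀ (B : ℝ) (z : ℂ), 0 < z.im → z.im ≤ 1 → κ ≤ z.re → z.re ≤ 4 * d - κ →
      m ≤ (gg d B z).im := by
  obtain ⟨m, hm, h⟩ := Pool.Agent.TH794.QE.low_all d (by omega) κ hκ hκ1
  refine ⟨m, hm, fun B z hz hz1 h1 h2 => ?_⟩
  have h3 := h (2 * d - z.re) z.im (by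
    rw [abs_le]
    constructor <;> linarith) hz hz1
  have h4 : ((2 * d - z.re : ℝ) : ℂ) + (z.im : ℂ) * Complex.I = 2 * d - (starRingEnd ℂ) z := by
    apply Complex.ext
    · simp
    · simp
  rw [h4] at h3
  have h5 := (GF_im0 Pool.Agent.W918.BK.Osc.osc d hd (2 * d - (starRingEnd ℂ) z) (by
    rw [Complex.sub_im, Complex.conj_im]
    simpa using hz)).2
  rw [gg_eq hd B z hz, Complex.neg_im, Complex.conj_im, neg_neg]
  linarith

end free

end Pool.Agent.Y662.TR
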