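import Pool.Agent.TH794.LL2.Fin2
import Pool.Agent.W193.BK.ES
import Pool.Agent.W240.BK.Var
import Pool.Agent.W540.BK.Fac
import Pool.Agent.W240.BK.Fluct
import Pool.Agent.W918.BK.Osc
import Pool.Agent.W240.BK.Two
import Pool.Agent.W465.BK.QB
import Pool.Agent.W475.BK.Low
import Pool.Agent.W975.BK.Sup
import Pool.Agent.W790.BK.ADM
import Pool.Agent.W475.BK.Inv
import Pool.Agent.W261.BK.Third

/-! The local law at the height `λ^{2.11}`, in the form of Poisson integrals. -/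

set_option autoImplicit false
set_option linter.unusedSectionVars false

open scoped BigOperators
open MeasureTheory

namespace Pool.Agent.Y662.TR

open Pool.Agent.W788.BK
open Pool.Agent.W788.LD.Spec (S)
open Pool.Agent.H4R2.LO (Zd)
open Pool.Agent.W788.BK.Num
open Pool.Agent.TH794.LL2

/-- **the local law** -/
theorem law (d : ℕ) (hd : 3 ≤ d) (b : ℝ) (hb : 0 < b) :
    ∃ lam0 : ℝ, 0 < lam0 ∧ ∀ (μ : Measure ℝ), IsProbabilityMeasure μ →
      (∀ᵐ s ∂μ, |s| ≤ b) → ∀ lam : ℝ, 0 < lam → lam ≤ lam0 →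
      ∃ (F : ℝ → ℝ) (G : Set (Zd d → ℝ)), MeasurableSet G ∧
        1 - Real.exp (-lam ^ (-(1 / 100) : ℝ)) ≤
          (Measure.infinitePi fun _ : Zd d => μ).real G ∧ (∀ E, |F E| ≤ KK d) ∧
        (∀ ω ∈ G, ∀ a : Zd d, ‖a‖ ≤ Real.exp (lam ^ (-(1 / 100) : ℝ)) →
          ∀ m : Measure ℝ, IsFiniteMeasure m → Res d (fun x => 2 * d + lam * ω x) a m →
          ∀ E : ℝ, |Po m E (lam ^ (211 / 100 : ℝ)) - F E| ≤ lam ^ (1 / 100 : ℝ)) ∧
        ∀ (a : Zd d) (m : Measure ℝ), IsFiniteMeasure m → Res d (fun _ => 2 * d) a m →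
          ∀ E : ℝ, |Po m E (lam ^ (211 / 100 : ℝ)) - F E| ≤ lam ^ (1 / 100 : ℝ) := by
  obtain ⟨y0, h0⟩ := engine2 Pool.Agent.W193.BK.ES.es
    (Pool.Agent.W261.BK.third Pool.Agent.W540.BK.fac)
    (Pool.Agent.W240.BK.fluct (Pool.Agent.W240.BK.var Pool.Agent.W193.BK.ES.es))
    Pool.Agent.W475.BK.inv Pool.Agent.W918.BK.Osc.osc Pool.Agent.W975.BK.sup
    (Pool.Agent.W465.BK.qb (Pool.Agent.W240.BK.two Pool.Agent.W918.BK.Osc.osc))
    Pool.Agent.W475.BK.low Pool.Agent.W790.BK.ADM.adm d hd (2 * b) (by linarith)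
  obtain ⟨K, hK⟩ : ∃ K, K = KK d := ⟨_, rfl⟩
  have hK3 : 3 ≤ K := by rw [hK]; exact KK_ge d
  obtain ⟨y2, hy2⟩ := Filter.eventually_atTop.1
    ((ev2 4 (-(11 / 1000)) (-(1 / 100)) 0 (by norm_num)).and
    (ev2 (4 * K * b ^ (1 / 4 : ℝ)) (-(1 / 4)) (-(1 / 100)) 0 (by norm_num)))
  obtain ⟨y1, hy1⟩ : ∃ y1, y1 = max (max y0 y2) 1 := ⟨_, rfl⟩
  refine ⟨Real.exp (-y1), Real.exp_pos _, ?_⟩
  intro μ hμ hμb lam hlam hlam0
  obtain ⟨y, hy⟩ : ∃ y, y = Real.log (1 / lam) := ⟨_, rfl⟩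
  have hloglam : Real.log lam = -y := by
    rw [hy, one_div, Real.log_inv, neg_neg]
  have hyy1 : y1 ≤ y := by
    have h1 := Real.log_le_log hlam hlam0
    rw [Real.log_exp, hloglam] at h1
    linarith
  have hyy0 : y0 ≤ y := le_trans (by rw [hy1]; exact (le_max_left _ _).trans (le_max_left _ _)) hyy1
  have hyy2 : y2 ≤ y := le_trans (by rw [hy1]; exact (le_max_right _ _).trans (le_max_left _ _))
    hyy1
  have hyone : 1 ≤ y := le_trans (by rw [hy1]; exact le_max_right _ _) hyy1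
  obtain ⟨n1, n2⟩ := hy2 y hyy2
  simp only [pow_zero, mul_one] at n1 n2
  have e1 : lam ^ (-(1 / 100) : ℝ) = Real.exp (y / 100) := by
    rw [Real.rpow_def_of_pos hlam, hloglam]
    congr 1
    ring
  have e2 : lam ^ (211 / 100 : ℝ) = Real.exp (-(211 / 100) * y) := by
    rw [Real.rpow_def_of_pos hlam, hloglam]
    congr 1
    ring
  have e2' : lam ^ (1 / 100 : ℝ) = Real.exp (-(1 / 100) * y) := by
    rw [Real.rpow_def_of_pos hlam, hloglam]
    congr 1
    ring
  have e3 : Real.exp (-1 * y) = lam := by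
    rw [neg_one_mul, ← hloglam, Real.exp_log hlam]
  rw [e1, e2, e2']
  -- the centred law
  obtain ⟨M0, hM0⟩ : ∃ M0, M0 = ∫ s, s ∂μ := ⟨_, rfl⟩
  have hint : Integrable (fun s : ℝ => s) μ := by
    refine Integrable.of_bound (C := b) measurable_id.aestronglyMeasurable ?_
    filter_upwards [hμb] with s hs
    rw [Real.norm_eq_abs]
    exact hs
  have hM0b : |M0| ≤ b := by
    rw [hM0, ← Real.norm_eq_abs]
    have h1 := norm_integral_le_of_norm_le_const (μ := μ) (f := fun s : ℝ => s) (C := b) (by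
      filter_upwards [hμb] with s hs
      rw [Real.norm_eq_abs]
      exact hs)
    rw [probReal_univ, mul_one] at h1
    exact h1
  have hmm : Measurable fun s : ℝ => M0 - s := by fun_prop
  have hνp : IsProbabilityMeasure (μ.map fun s => M0 - s) :=
    Measure.isProbabilityMeasure_map hmm.aemeasurable
  have hνb : ∀ᵐ s ∂(μ.map fun s => M0 - s), |s| ≤ 2 * b := by
    rw [ae_map_iff hmm.aemeasurable (measurableSet_le (by fun_prop) (by fun_prop))]
    filter_upwards [hμb] with s hs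
    have h1 := abs_sub M0 s
    linarith
  have hν0 : ∫ s, s ∂(μ.map fun s => M0 - s) = 0 := by
    rw [integral_map hmm.aemeasurable (by fun_prop), integral_sub (integrable_const _) hint,
      integral_const, probReal_univ, one_smul, hM0, sub_self]
  obtain ⟨Gf, G, hG, hP, hGf1, hGf2, hL, hF⟩ := h0 y hyy0 _ hνp hνb hν0
  rw [← hK] at hGf1 hGf2 ⊢
  have hTm : Measurable (fun (ω : Zd d → ℝ) x => M0 - ω x) := by fun_prop
  have hlaw : (Measure.infinitePi fun _ : Zd d => μ).map (fun ω x => M0 - ω x) =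
      Measure.infinitePi fun _ : Zd d => μ.map fun s => M0 - s :=
    Measure.infinitePi_map_pi (μ := fun _ : Zd d => μ)
      (f := fun _ (s : ℝ) => M0 - s) (fun _ => by fun_prop)
  obtain ⟨e4, he4⟩ : ∃ e4, e4 = Real.exp (-(11 / 1000) * y) := ⟨_, rfl⟩
  have he40 : 0 < e4 := by rw [he4]; positivity
  rw [← he4] at hGf2 hL hF n1
  refine ⟨fun E => Gf (2 * d - E), (fun ω x => M0 - ω x) ⁻¹' G, hTm hG, ?_, fun E => hGf1 _,
    ?_, ?_⟩
  · have h1 : (Measure.infinitePi fun _ : Zd d => μ).real ((fun ω x => M0 - ω x) ⁻¹' G) =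
        (Measure.infinitePi fun _ : Zd d => μ.map fun s => M0 - s).real G := by
      rw [← hlaw, map_measureReal_apply hTm hG]
    rw [h1]
    exact hP
  · intro ω hω a ha m hm hr E
    obtain ⟨ur, ui, h1, h2⟩ := po_spec (fun x => 2 * d + lam * ω x) (fun x => M0 - ω x)
      (2 * d + lam * M0) lam (fun x => by ring) a m hr E (Real.exp (-(211 / 100) * y))
      (Real.exp_pos _)
    rw [h2]
    have h3 := hL _ hω a ha (2 * d + lam * M0 - E) ur ui (by rw [e3]; exact h1)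
    have h4 := hGf2 (2 * d + lam * M0 - E) (2 * d - E)
    have h5 : |2 * d + lam * M0 - E - (2 * d - E)| ≤ lam * b := by
      have : (2 * d + lam * M0 - E - (2 * d - E) : ℝ) = lam * M0 := by ring
      rw [this, abs_mul, abs_of_pos hlam]
      gcongr
    have h6 : K * |2 * d + lam * M0 - E - (2 * d - E)| ^ (1 / 4 : ℝ) ≤
        K * (b ^ (1 / 4 : ℝ) * Real.exp (-(1 / 4) * y)) := by
      have h7 := Real.rpow_le_rpow (abs_nonneg _) h5 (show (0 : ℝ) ≤ 1 / 4 by norm_num)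
      have h8 : (lam * b) ^ (1 / 4 : ℝ) = b ^ (1 / 4 : ℝ) * Real.exp (-(1 / 4) * y) := by
        rw [Real.mul_rpow hlam.le hb.le, mul_comm]
        congr 1
        rw [Real.rpow_def_of_pos hlam, hloglam]
        congr 1
        ring
      rw [h8] at h7
      gcongr
    have h7 : |ui a - Gf (2 * d - E)| ≤ |ui a - Gf (2 * d + lam * M0 - E)| +
        |Gf (2 * d + lam * M0 - E) - Gf (2 * d - E)| := by
      have := abs_add_le (ui a - Gf (2 * d + lam * M0 - E))
        (Gf (2 * d + lam * M0 - E) - Gf (2 * d - E))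
      rwa [sub_add_sub_cancel] at this
    simp only
    nlinarith
  · intro a m hm hr E
    obtain ⟨ur, ui, h1, h2⟩ := po_spec (fun _ : Zd d => (2 * d : ℝ)) (fun _ => 0) (2 * d) 0
      (fun x => by ring) a m hr E (Real.exp (-(211 / 100) * y)) (Real.exp_pos _)
    rw [h2]
    have h3 := hF 0 (fun _ => 0) a _ ur ui (fun x => by ring) h1
    simp only
    linarith

end Pool.Agent.Y662.TR
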