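import Pool.Agent.Y662.TR.Fre
import Pool.Agent.Y662.TR.Der
import Pool.Agent.Y662.TR.Law

/-! The good sheets. -/

set_option autoImplicit false
set_option linter.unusedSectionVars false

open scoped BigOperators InnerProductSpace Topology
open MeasureTheory Filter

namespace Pool.Agent.Y662.TR

open Pool.Agent.TH369.AN (Rz rz_eq rz_uniq rz_norm)
open Pool.Agent.TH794.QD (CH CH_nonneg)
open Pool.Agent.TH794.LL2 (Po Res)

variable {d : ℕ}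

/-- the deterministic part -/
theorem gd_det (hd : 3 ≤ d) {B lam t : ℝ} {z : ℂ} (h : Dat d B lam t z) (v : (Fin d → ℤ) → ℝ)
    (D1 Q h0 δ ρ ε m : ℝ)
    (H1 : ∀ ζ : ℂ, h0 ≤ ζ.im → ‖Ps B lam ζ v 0 0 - gg d B ζ‖ ≤ D1)
    (H2 : ∀ ζ : ℂ, h0 ≤ ζ.im → ∀ y, ‖Ps B lam ζ v 0 y‖ ≤ Q)
    (hzδ : z.im ≤ δ) (htδ : t ^ 2 ≤ δ) (hm0 : 0 < m) (hm1 : m ≤ 1) (hm : m ≤ (gg d B z).im)
    (hh0 : h0 ≤ t ^ 2 * m) (hρ0 : 0 < ρ) (hρ1 : ρ ≤ 1) (hε0 : 0 < ε) (hε1 : ε ≤ m / 100)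
    (hε2 : ε ≤ 1 / 100000)
    (n1 : D1 + CH d * ((2 + CH d) * δ) ^ (1 / 8 : ℝ) ≤ ε * ρ * m / 4)
    (n2 : ρ * (CH d + 2) ≤ ε * m / 2) (n3 : δ * Q ^ 2 ≤ ε) (n4 : D1 ≤ 1) :
    Gd t (gg d B z) m ε (Ps B lam (z + (t : ℂ) ^ 2 * gg d B z) v 0) := by
  obtain ⟨g, hg⟩ : ∃ g, g = gg d B z := ⟨_, rfl⟩
  obtain ⟨ζ, hζ⟩ : ∃ ζ, ζ = z + (t : ℂ) ^ 2 * g := ⟨_, rfl⟩
  rw [← hg] at hm ⊢
  rw [← hζ]
  have ht := h.t0
  have hz := h.z0
  have hCH := CH_nonneg d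
  have hg0 : 0 < g.im := hm0.trans_le hm
  have hgb : ‖g‖ ≤ CH d + 1 := by rw [hg]; exact gg_bd hd B z hz
  have hδ0 : 0 < δ := hz.trans_le hzδ
  have hζi : ζ.im = z.im + t ^ 2 * g.im := by rw [hζ, Complex.add_im, t2_im]
  have hh1 : t ^ 2 * m ≤ ζ.im := by
    rw [hζi]
    have : t ^ 2 * m ≤ t ^ 2 * g.im := by gcongr
    linarith
  have hh0' : h0 ≤ ζ.im := hh0.trans hh1
  have hζ0 : 0 < ζ.im := lt_of_lt_of_le (by positivity) hh1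
  have hζb : ζ.im ≤ (2 + CH d) * δ := by
    rw [hζi]
    have h1 : g.im ≤ CH d + 1 := (Complex.im_le_norm _).trans hgb
    have h2 : t ^ 2 * g.im ≤ δ * (CH d + 1) := by gcongr
    nlinarith
  have hD1 : 0 ≤ D1 := (norm_nonneg _).trans (H1 ζ hh0')
  have hX0 : 0 ≤ ((2 + CH d) * δ) ^ (1 / 8 : ℝ) := by positivity
  have hdist : ‖ζ - z‖ ≤ (2 + CH d) * δ := by
    have : ζ - z = (t : ℂ) ^ 2 * g := by rw [hζ]; ring
    rw [this, norm_mul, norm_pow, Complex.norm_real, Real.norm_eq_abs, sq_abs]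
    calc t ^ 2 * ‖g‖ ≤ δ * (CH d + 1) := by gcongr
      _ ≤ _ := by nlinarith
  refine ⟨?_, ?_, ?_, hm0, hm, hε0.le, hε1, hε2⟩
  · have h1 := H1 ζ hh0'
    have h2 := gg_hol hd B ζ z hζ0 hz
    rw [← hg] at h2
    have h3 : CH d * ‖ζ - z‖ ^ (1 / 8 : ℝ) ≤ CH d * ((2 + CH d) * δ) ^ (1 / 8 : ℝ) := by gcongr
    have h4 : ‖Ps B lam ζ v 0 0 - g‖ ≤ ‖Ps B lam ζ v 0 0 - gg d B ζ‖ + ‖gg d B ζ - g‖ := by
      have := norm_add_le (Ps B lam ζ v 0 0 - gg d B ζ) (gg d B ζ - g)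
      rwa [sub_add_sub_cancel] at this
    have h5 : ε * ρ * m / 4 ≤ ε := by
      have : ρ * m ≤ 1 := by nlinarith
      nlinarith
    linarith
  · obtain ⟨r, hr⟩ : ∃ r, r = ρ * ζ.im := ⟨_, rfl⟩
    have hr0 : 0 < r := by rw [hr]; positivity
    have hrb : r ≤ (2 + CH d) * δ := by
      rw [hr]
      nlinarith
    obtain ⟨E', hE'⟩ : ∃ E', E' = 2 * (D1 + CH d * ((2 + CH d) * δ) ^ (1 / 8 : ℝ)) := ⟨_, rfl⟩
    have k1 : ‖Ps B lam (ζ + (r : ℂ) * Complex.I) v 0 0 - Ps B lam ζ v 0 0‖ ≤ E' := by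
      have hwi : (ζ + (r : ℂ) * Complex.I).im = ζ.im + r := by simp
      have h1 := H1 ζ hh0'
      have h2 := H1 (ζ + (r : ℂ) * Complex.I) (by rw [hwi]; linarith)
      have h3 := gg_hol hd B (ζ + (r : ℂ) * Complex.I) ζ (by rw [hwi]; linarith) hζ0
      have h4 : ‖ζ + (r : ℂ) * Complex.I - ζ‖ = r := by
        rw [add_sub_cancel_left, norm_mul, Complex.norm_I, mul_one, Complex.norm_real,
          Real.norm_of_nonneg hr0.le]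
      rw [h4] at h3
      have h5 : CH d * r ^ (1 / 8 : ℝ) ≤ CH d * ((2 + CH d) * δ) ^ (1 / 8 : ℝ) := by gcongr
      have h6 : Ps B lam (ζ + (r : ℂ) * Complex.I) v 0 0 - Ps B lam ζ v 0 0 =
          (Ps B lam (ζ + (r : ℂ) * Complex.I) v 0 0 - gg d B (ζ + (r : ℂ) * Complex.I)) +
          (gg d B (ζ + (r : ℂ) * Complex.I) - gg d B ζ) +
          (-(Ps B lam ζ v 0 0 - gg d B ζ)) := by ring
      rw [h6]
      have h7 := norm_add₃_le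
        (a := Ps B lam (ζ + (r : ℂ) * Complex.I) v 0 0 - gg d B (ζ + (r : ℂ) * Complex.I))
        (b := gg d B (ζ + (r : ℂ) * Complex.I) - gg d B ζ)
        (c := -(Ps B lam ζ v 0 0 - gg d B ζ))
      rw [norm_neg] at h7
      have h8 : 0 ≤ CH d * ((2 + CH d) * δ) ^ (1 / 8 : ℝ) := by positivity
      rw [hE']
      linarith
    have k2 : ‖Ps B lam ζ v 0 0‖ ≤ CH d + 2 := by
      have h1 := H1 ζ hh0'
      have h2 := gg_bd hd B ζ hζ0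
      have h3 := norm_add_le (Ps B lam ζ v 0 0 - gg d B ζ) (gg d B ζ)
      rw [sub_add_cancel] at h3
      linarith
    have k3 := sum_sq B lam ζ hζ0 v 0 r hr0 E' (CH d + 2) k1 k2
    have k4 : ‖∑' x, (t : ℂ) ^ 2 * Ps B lam ζ v 0 x ^ 2‖ =
        t ^ 2 * ‖∑' x, Ps B lam ζ v 0 x ^ 2‖ := by
      rw [tsum_mul_left, norm_mul, norm_pow, Complex.norm_real, Real.norm_eq_abs, sq_abs]
    rw [k4]
    have k5 : t ^ 2 / ζ.im ≤ 1 / m := by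
      rw [div_le_div_iff₀ hζ0 hm0]
      linarith
    calc t ^ 2 * ‖∑' x, Ps B lam ζ v 0 x ^ 2‖ ≤
          t ^ 2 * (E' / r + r * (1 / ζ.im) ^ 2 * (CH d + 2)) := by gcongr
      _ = (t ^ 2 / ζ.im) * (E' / ρ + ρ * (CH d + 2)) := by
          rw [hr]
          field_simp
      _ ≤ (1 / m) * (E' / ρ + ρ * (CH d + 2)) := by
          have : 0 ≤ E' := (norm_nonneg _).trans k1
          gcongr
      _ ≤ (1 / m) * ((ε * m / 2) + ε * m / 2) := by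
          have : E' / ρ ≤ ε * m / 2 := by
            rw [div_le_iff₀ hρ0, hE']
            linarith
          gcongr
      _ = ε := by
          field_simp
          ring
  · intro x
    have h1 := H2 ζ hh0' x
    calc t ^ 2 * ‖Ps B lam ζ v 0 x‖ ^ 2 ≤ δ * Q ^ 2 := by gcongr
      _ ≤ ε := n3

end Pool.Agent.Y662.TR
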