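import Pool.Agent.Y662.TR.Good

/-! The good sheets, probability. -/

set_option autoImplicit false
set_option linter.unusedSectionVars false

open scoped BigOperators InnerProductSpace Topology
open MeasureTheory Filter

namespace Pool.Agent.Y662.TR

open Pool.Agent.TH369.AN (Rz rz_eq rz_uniq rz_norm)
open Pool.Agent.TH794.QD (CH CH_nonneg)
open Pool.Agent.TH794.LL2 (Po Res KK_ge)
open Pool.Agent.W788.BK.Num (ev2)

variable {d : ℕ}

theorem gg_inner (B : ℝ) (z : ℂ) : gg d B z =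
    ⟪dv (oo d), Rz (TT B (fun _ => 0) (fun _ => 0)) z (dv (oo d))⟫_ℂ := by
  rw [inner_dv]
  rfl

/-- the consequences of the local law -/
theorem lemA {B lam : ℝ} (v : (Fin d → ℤ) → ℝ) (F : ℝ → ℝ) (K e η1 R h2 h0 M : ℝ) (hη : 0 < η1)
    (hh2 : 0 < h2) (hh : η1 + h2 ≤ h0) (hM : 0 < M) (hR : 0 < R) (he : 0 ≤ e) (hK : 0 ≤ K)
    (HK : ∀ E, |F E| ≤ K)
    (HL : ∀ a : Fin d → ℤ, ‖a‖ ≤ R → ∀ E : ℝ,
      |(Ps B lam ((E : ℂ) + (η1 : ℂ) * Complex.I) v a a).im - F E| ≤ e)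
    (HF : ∀ E : ℝ, |(gg d B ((E : ℂ) + (η1 : ℂ) * Complex.I)).im - F E| ≤ e) (ζ : ℂ)
    (hζ : h0 ≤ ζ.im) :
    ‖Ps B lam ζ v 0 0 - gg d B ζ‖ ≤ 2 * e * (2 * Real.log (1 + 2 * (M / h2))) + 2 / M ∧
    ∀ y, ‖Ps B lam ζ v 0 y‖ ≤ max (4 * (K + e) * Real.log (1 + 2 * (M / h2)) + 2 / M)
      (2 / h0 ^ 2 / R) := by
  have hηζ : η1 < ζ.im := by linarith
  have hlog : Real.log (1 + 2 * (M / (ζ.im - η1))) ≤ Real.log (1 + 2 * (M / h2)) := by
    have h1 : 0 < ζ.im - η1 := by linarith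
    apply Real.log_le_log (by positivity)
    have h2 : h2 ≤ ζ.im - η1 := by linarith
    gcongr
  have h00 : ‖(0 : Fin d → ℤ)‖ ≤ R := by rw [norm_zero]; exact hR.le
  constructor
  · have h1 := cmpT (TT B (Vr lam v) (fun _ => 0)) (TT_sa _ _ _) (dv (([], 0) : Vt d))
      (TT B (fun _ => 0) (fun _ => 0)) (TT_sa _ _ _) (dv (oo d)) η1 hη ζ hηζ (2 * e) M hM
      (fun E => by
        rw [← ps_inner, ← gg_inner]
        have a1 := abs_le.1 (HL 0 h00 E)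
        have a2 := abs_le.1 (HF E)
        rw [abs_le]
        constructor <;> linarith [a1.1, a1.2, a2.1, a2.2])
    rw [← ps_inner, ← gg_inner, norm_dv, norm_dv] at h1
    refine h1.trans ?_
    have h2 : ((1 : ℝ) ^ 2 + 1 ^ 2) / M = 2 / M := by norm_num
    rw [h2]
    gcongr
  · intro y
    by_cases hy : ‖y‖ ≤ R
    · refine le_trans ?_ (le_max_left _ _)
      have hKe : ∀ a : Fin d → ℤ, ‖a‖ ≤ R → ∀ E : ℝ,
          (Ps B lam ((E : ℂ) + (η1 : ℂ) * Complex.I) v a a).im ≤ K + e := by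
        intro a ha E
        have a1 := abs_le.1 (HL a ha E)
        have a2 := abs_le.1 (HK E)
        linarith [a1.2, a2.2]
      have h1 := offT (TT B (Vr lam v) (fun _ => 0)) (TT_sa _ _ _) (dv (([], y) : Vt d))
        (dv (([], 0) : Vt d)) (norm_dv _) (norm_dv _) (fun z hz => by
          rw [inner_dv, inner_dv]
          exact GG_symm B _ _ z hz _ _) η1 hη ζ hηζ (K + e) M hM (fun E => by
          rw [← ps_inner]
          exact hKe y hy E) (fun E => by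
          rw [← ps_inner]
          exact hKe 0 h00 E)
      rw [← ps_inner] at h1
      refine h1.trans ?_
      gcongr
    · refine le_trans ?_ (le_max_right _ _)
      push Not at hy
      have hζ0 : 0 < ζ.im := hη.trans hηζ
      obtain ⟨i, hi⟩ : ∃ i : Fin d, R < |((y i : ℤ) : ℝ)| := by
        by_contra hcon
        push Not at hcon
        have : ‖y‖ ≤ R := by
          rw [pi_norm_le_iff_of_nonneg hR.le]
          intro i
          rw [Int.norm_eq_abs]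
          exact hcon i
        linarith
      have h1 := decay B lam ζ hζ0 v 0 y i
      have h3 : R * ‖Ps B lam ζ v 0 y‖ ≤ 2 / ζ.im ^ 2 := by
        refine le_trans ?_ h1
        simp only [Pi.zero_apply, sub_zero]
        gcongr
      rw [le_div_iff₀ hR]
      have h4 : 2 / ζ.im ^ 2 ≤ 2 / h0 ^ 2 := by
        have : 0 < h0 := by linarith
        gcongr
      linarith

/-- **the good sheets** -/
theorem good (hd : 3 ≤ d) (κ : ℝ) (hκ : 0 < κ) (hκ1 : κ ≤ 1) (b : ℝ) (hb : 0 < b) :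
    ∃ m ε lam0 : ℝ, 0 < m ∧ m ≤ 1 ∧ 0 < ε ∧ 0 < lam0 ∧ lam0 ≤ 1 ∧
      (∀ (B : ℝ) (z : ℂ), 0 < z.im → z.im ≤ 1 → κ ≤ z.re → z.re ≤ 4 * d - κ →
        m ≤ (gg d B z).im) ∧
      ∀ (μ : Measure ℝ) [IsProbabilityMeasure μ], (∀ᵐ s ∂μ, |s| ≤ b) →
      ∀ lam : ℝ, 0 < lam → lam ≤ lam0 →
      ∃ G : Set ((Fin d → ℤ) → ℝ), MeasurableSet G ∧
        (P1 d μ).real Gᶜ ≤ Real.exp (-lam ^ (-(1 / 100) : ℝ)) ∧
        ∀ t : ℝ, lam ^ (26 / 25 : ℝ) ≤ t → t ≤ lam ^ (1 / 100 : ℝ) →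
        ∀ z : ℂ, 0 < z.im → z.im ≤ lam → κ ≤ z.re → z.re ≤ 4 * d - κ → ∀ v ∈ G,
          Gd t (gg d (b + 1) z) m ε (Ps (b + 1) lam (z + (t : ℂ) ^ 2 * gg d (b + 1) z) v 0) := by
  obtain ⟨m', hm', hlow'⟩ := gg_low hd κ hκ hκ1
  obtain ⟨m, hmdef⟩ : ∃ m, m = min m' 1 := ⟨_, rfl⟩
  have hm : 0 < m := by rw [hmdef]; exact lt_min hm' one_pos
  have hm1 : m ≤ 1 := by rw [hmdef]; exact min_le_right _ _
  have hlow : ∀ (B : ℝ) (z : ℂ), 0 < z.im → z.im ≤ 1 → κ ≤ z.re → z.re ≤ 4 * d - κ →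
      m ≤ (gg d B z).im := fun B z h1 h2 h3 h4 =>
    le_trans (by rw [hmdef]; exact min_le_left _ _) (hlow' B z h1 h2 h3 h4)
  obtain ⟨ε, hεdef⟩ : ∃ ε, ε = min (m / 100) (1 / 100000) := ⟨_, rfl⟩
  have hε : 0 < ε := by rw [hεdef]; exact lt_min (by positivity) (by norm_num)
  have hε1 : ε ≤ m / 100 := by rw [hεdef]; exact min_le_left _ _
  have hε2 : ε ≤ 1 / 100000 := by rw [hεdef]; exact min_le_right _ _
  have hCH := CH_nonneg d
  obtain ⟨ρ, hρdef⟩ : ∃ ρ, ρ = min 1 (ε * m / 2 / (CH d + 2)) := ⟨_, rfl⟩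
  have hρ : 0 < ρ := by rw [hρdef]; exact lt_min one_pos (by positivity)
  have hρ1 : ρ ≤ 1 := by rw [hρdef]; exact min_le_left _ _
  have hρ2 : ρ * (CH d + 2) ≤ ε * m / 2 := by
    have h1 : ρ ≤ ε * m / 2 / (CH d + 2) := by rw [hρdef]; exact min_le_right _ _
    rwa [le_div_iff₀ (by positivity)] at h1
  obtain ⟨K, hK⟩ : ∃ K, K = Pool.Agent.TH794.LL2.KK d := ⟨_, rfl⟩
  have hK3 : 3 ≤ K := by rw [hK]; exact KK_ge d
  obtain ⟨c1, hc1⟩ : ∃ c1, c1 = ε * ρ * m / 4 := ⟨_, rfl⟩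
  have hc10 : 0 < c1 := by rw [hc1]; positivity
  have hc11 : c1 ≤ 1 := by
    rw [hc1]
    have h1 : ε * ρ ≤ 1 * 1 := by gcongr; linarith
    have h2 : ε * ρ * m ≤ 1 * 1 * 1 := by gcongr
    linarith
  obtain ⟨lam1, hlam1, hlaw⟩ := law d hd b hb
  obtain ⟨C3, hC3⟩ : ∃ C3, C3 = CH d * (2 + CH d) ^ (1 / 8 : ℝ) := ⟨_, rfl⟩
  obtain ⟨y2, hy2⟩ := Filter.eventually_atTop.1
    ((ev2 (16 * 3 / c1) (-(1 / 100)) 0 1 (by norm_num)).and
    ((ev2 (2 * 3 / c1) (-1) 0 0 (by norm_num)).and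
    ((ev2 (C3 * 3 / c1) (-(1 / 400)) 0 0 (by norm_num)).and
    ((ev2 (324 * (K + 1) ^ 2 / ε) (-(1 / 50)) 0 2 (by norm_num)).and
    ((ev2 3 (31 / 10) 4 0 (by norm_num)).and
    ((ev2 (2 / m) (-(21 / 10)) (-(52 / 25)) 0 (by norm_num)).and
    (ev2 6 0 (1 / 100) 1 (by norm_num))))))))
  obtain ⟨y1, hy1⟩ : ∃ y1, y1 = max y2 1 := ⟨_, rfl⟩
  refine ⟨m, ε, min lam1 (Real.exp (-y1)), hm, hm1, hε, lt_min hlam1 (Real.exp_pos _), ?_, hlow, ?_⟩
  · refine (min_le_right _ _).trans (Real.exp_le_one_iff.2 ?_)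
    have : 1 ≤ y1 := by rw [hy1]; exact le_max_right _ _
    linarith
  intro μ hμ hμb lam hlam hlam0
  obtain ⟨F, G, hG, hP, HK, HL, HF⟩ := hlaw μ hμ hμb lam hlam (hlam0.trans (min_le_left _ _))
  obtain ⟨y, hy⟩ : ∃ y, y = Real.log (1 / lam) := ⟨_, rfl⟩
  have hloglam : Real.log lam = -y := by
    rw [hy, one_div, Real.log_inv, neg_neg]
  have hyy1 : y1 ≤ y := by
    have h1 := Real.log_le_log hlam (hlam0.trans (min_le_right _ _))
    rw [Real.log_exp, hloglam] at h1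
    linarith
  have hyy2 : y2 ≤ y := le_trans (by rw [hy1]; exact le_max_left _ _) hyy1
  have hyone : 1 ≤ y := le_trans (by rw [hy1]; exact le_max_right _ _) hyy1
  obtain ⟨n1, n2, n3, n4, n5, n6, n7⟩ := hy2 y hyy2
  simp only [pow_zero, mul_one, pow_one, zero_mul, Real.exp_zero] at n1 n2 n3 n4 n5 n6 n7
  have hpw : ∀ p : ℝ, lam ^ p = Real.exp (-p * y) := by
    intro p
    rw [Real.rpow_def_of_pos hlam, hloglam]
    congr 1
    ring
  have hlamy : lam = Real.exp (-1 * y) := by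
    rw [← hpw 1, Real.rpow_one]
  have hlamle1 : lam ≤ 1 := by
    rw [hlamy]
    exact Real.exp_le_one_iff.2 (by linarith)
  -- the event
  have hBm : MeasurableSet {v : (Fin d → ℤ) → ℝ | ∀ x, |v x| ≤ b} := by
    have : {v : (Fin d → ℤ) → ℝ | ∀ x, |v x| ≤ b} = ⋂ x, {v | |v x| ≤ b} := by
      ext v
      simp
    rw [this]
    exact MeasurableSet.iInter fun x => measurableSet_le (by fun_prop) (by fun_prop)
  have hBa : ∀ᵐ v ∂(P1 d μ), ∀ x, |v x| ≤ b := by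
    rw [ae_all_iff]
    intro x
    have h1 : (P1 d μ).map (fun v => v x) = μ :=
      (measurePreserving_eval_infinitePi (fun _ : Fin d → ℤ => μ) x).map_eq
    have h2 : ∀ᵐ s ∂((P1 d μ).map fun v => v x), |s| ≤ b := by rw [h1]; exact hμb
    exact ae_of_ae_map (measurable_pi_apply x).aemeasurable h2
  refine ⟨G ∩ {v | ∀ x, |v x| ≤ b}, hG.inter hBm, ?_, ?_⟩
  · have h1 : (P1 d μ).real (G ∩ {v | ∀ x, |v x| ≤ b})ᶜ = (P1 d μ).real Gᶜ := by
      apply measureReal_congr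
      rw [Set.compl_inter]
      filter_upwards [hBa] with v hv
      apply propext
      change (v ∈ Gᶜ ∪ {v | ∀ x, |v x| ≤ b}ᶜ) ↔ v ∈ Gᶜ
      simp only [Set.mem_union, Set.mem_compl_iff, Set.mem_setOf_eq]
      tauto
    rw [h1, probReal_compl_eq_one_sub hG]
    have : 1 - Real.exp (-lam ^ (-(1 / 100) : ℝ)) ≤ (P1 d μ).real G := hP
    linarith
  intro t ht1 ht2 z hz hz1 hz2 hz3 v hv
  have hB0 : 0 < b + 1 := by linarith
  have ht0 : 0 < t := lt_of_lt_of_le (Real.rpow_pos_of_pos hlam _) ht1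
  have ht3 : t ≤ 1 := ht2.trans (Real.rpow_le_one hlam.le hlamle1 (by norm_num))
  have hDat : Dat d (b + 1) lam t z := ⟨hz, ht0, by linarith⟩
  have hmg := hlow (b + 1) z hz (hz1.trans hlamle1) hz2 hz3
  have hvb : ∀ x, |lam * v x| ≤ |b + 1| := by
    intro x
    rw [abs_mul, abs_of_pos hlam, abs_of_pos hB0]
    have h1 := hv.2 x
    have h0 := abs_nonneg (v x)
    calc lam * |v x| ≤ 1 * b := by gcongr
      _ ≤ b + 1 := by linarith
  -- the scales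
  obtain ⟨η1, hη1⟩ : ∃ η1, η1 = lam ^ (211 / 100 : ℝ) := ⟨_, rfl⟩
  obtain ⟨e, he⟩ : ∃ e, e = lam ^ (1 / 100 : ℝ) := ⟨_, rfl⟩
  obtain ⟨R, hR⟩ : ∃ R, R = Real.exp (lam ^ (-(1 / 100) : ℝ)) := ⟨_, rfl⟩
  obtain ⟨h2, hh2⟩ : ∃ h2, h2 = lam ^ (21 / 10 : ℝ) := ⟨_, rfl⟩
  have hη0 : 0 < η1 := by rw [hη1]; exact Real.rpow_pos_of_pos hlam _
  have he0 : 0 < e := by rw [he]; exact Real.rpow_pos_of_pos hlam _
  have he1 : e ≤ 1 := by rw [he]; exact Real.rpow_le_one hlam.le hlamle1 (by norm_num)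
  have hR0 : 0 < R := by rw [hR]; exact Real.exp_pos _
  have hh20 : 0 < h2 := by rw [hh2]; exact Real.rpow_pos_of_pos hlam _
  rw [← hη1, ← he] at HF
  rw [← hη1, ← he, ← hR] at HL
  rw [← hK] at HK
  have HL' : ∀ a : Fin d → ℤ, ‖a‖ ≤ R → ∀ E : ℝ,
      |(Ps (b + 1) lam ((E : ℂ) + (η1 : ℂ) * Complex.I) v a a).im - F E| ≤ e :=
    fun a ha E => law_sheet (b + 1) lam η1 hη0 v hvb F e a
      (fun m' hm' hr' => HL v hv.1 a ha m' hm' hr') E
  have HF' : ∀ E : ℝ, |(gg d (b + 1) ((E : ℂ) + (η1 : ℂ) * Complex.I)).im - F E| ≤ e := by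
    intro E
    have h1 := law_sheet (d := d) (b + 1) 0 η1 hη0 (fun _ => 0) (fun x => by simp) F e 0
      (fun m' hm' hr' => HF 0 m' hm' (by simpa using hr')) E
    rwa [ps_zero] at h1
  obtain ⟨ℓ, hℓ⟩ : ∃ ℓ, ℓ = Real.log (1 + 2 * ((1 / lam) / h2)) := ⟨_, rfl⟩
  have hℓ0 : 0 ≤ ℓ := by
    rw [hℓ]
    apply Real.log_nonneg
    have : 0 ≤ 2 * (1 / lam / h2) := by positivity
    linarith
  have hℓ1 : ℓ ≤ 4 * y := by
    rw [hℓ, Real.log_le_iff_le_exp (by positivity)]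
    refine le_trans ?_ n5
    have h1 : 1 / lam / h2 = Real.exp (31 / 10 * y) := by
      rw [hh2, hpw]
      conv_lhs => rw [hlamy]
      rw [one_div, ← Real.exp_neg, div_eq_mul_inv, ← Real.exp_neg, ← Real.exp_add]
      congr 1
      ring
    rw [h1]
    have h2 : 1 ≤ Real.exp (31 / 10 * y) := Real.one_le_exp (by positivity)
    linarith
  obtain ⟨h0, hh0⟩ : ∃ h0, h0 = 2 * h2 := ⟨_, rfl⟩
  have hη2 : η1 + h2 ≤ h0 := by
    rw [hh0]
    have : η1 ≤ h2 := by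
      rw [hη1, hh2]
      exact Real.rpow_le_rpow_of_exponent_ge hlam hlamle1 (by norm_num)
    linarith
  obtain ⟨D1, hD1⟩ : ∃ D1, D1 = 2 * e * (2 * ℓ) + 2 / (1 / lam) := ⟨_, rfl⟩
  obtain ⟨Q, hQ⟩ : ∃ Q, Q = max (4 * (K + e) * ℓ + 2 / (1 / lam)) (2 / h0 ^ 2 / R) := ⟨_, rfl⟩
  have hA := fun (ζ : ℂ) (hζ : h0 ≤ ζ.im) => lemA v F K e η1 R h2 h0 (1 / lam) hη0 hh20 hη2
    (by positivity) hR0 he0.le (by linarith) HK HL' HF' ζ hζ
  rw [← hℓ] at hA
  rw [← hD1, ← hQ] at hA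
  have hll : 2 / (1 / lam) = 2 * lam := by field_simp
  rw [hll] at hD1 hQ
  -- the numerical conditions
  have a1 : 16 * y * Real.exp (-(1 / 100) * y) ≤ c1 / 3 := by
    have : 16 * y * Real.exp (-(1 / 100) * y) =
        (16 * 3 / c1 * y * Real.exp (-(1 / 100) * y)) * (c1 / 3) := by
      field_simp
    rw [this]
    exact mul_le_of_le_one_left (by positivity) n1
  have a2 : 2 * Real.exp (-1 * y) ≤ c1 / 3 := by
    have : 2 * Real.exp (-1 * y) = (2 * 3 / c1 * Real.exp (-1 * y)) * (c1 / 3) := by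
      field_simp
    rw [this]
    exact mul_le_of_le_one_left (by positivity) n2
  have a3 : C3 * Real.exp (-(1 / 400) * y) ≤ c1 / 3 := by
    have : C3 * Real.exp (-(1 / 400) * y) = (C3 * 3 / c1 * Real.exp (-(1 / 400) * y)) * (c1 / 3) := by
      field_simp
    rw [this]
    exact mul_le_of_le_one_left (by positivity) n3
  have hey : e = Real.exp (-(1 / 100) * y) := by rw [he, hpw]
  have hD1b : D1 ≤ c1 / 3 + c1 / 3 := by
    rw [hD1]
    have h1 : 2 * e * (2 * ℓ) ≤ 16 * y * Real.exp (-(1 / 100) * y) := by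
      rw [← hey]
      calc 2 * e * (2 * ℓ) ≤ 2 * e * (2 * (4 * y)) := by gcongr
        _ = 16 * y * e := by ring
    have h2 : 2 * lam = 2 * Real.exp (-1 * y) := by rw [← hlamy]
    linarith
  obtain ⟨δ, hδ⟩ : ∃ δ, δ = lam ^ (1 / 50 : ℝ) := ⟨_, rfl⟩
  have hδ0 : 0 < δ := by rw [hδ]; exact Real.rpow_pos_of_pos hlam _
  have hzδ : z.im ≤ δ := by
    refine hz1.trans ?_
    rw [hδ]
    conv_lhs => rw [← Real.rpow_one lam]
    exact Real.rpow_le_rpow_of_exponent_ge hlam hlamle1 (by norm_num)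
  have htδ : t ^ 2 ≤ δ := by
    have h1 : t ^ 2 ≤ (lam ^ (1 / 100 : ℝ)) ^ 2 := by gcongr
    refine h1.trans (le_of_eq ?_)
    rw [hδ, ← Real.rpow_natCast, ← Real.rpow_mul hlam.le]
    norm_num
  have hh0t : h0 ≤ t ^ 2 * m := by
    have h1 : (lam ^ (26 / 25 : ℝ)) ^ 2 ≤ t ^ 2 := by gcongr
    have h3 : (lam ^ (26 / 25 : ℝ)) ^ 2 = Real.exp (-(52 / 25) * y) := by
      rw [← Real.rpow_natCast, ← Real.rpow_mul hlam.le, hpw]
      congr 1
      push_cast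
      ring
    rw [h3] at h1
    rw [hh0, hh2, hpw]
    have h4 : 2 * Real.exp (-(21 / 10) * y) = (2 / m * Real.exp (-(21 / 10) * y)) * m := by
      field_simp
    rw [h4]
    gcongr
    linarith
  have hQb : Q ≤ 18 * (K + 1) * y := by
    rw [hQ]
    apply max_le
    · have h1 : 4 * (K + e) * ℓ ≤ 4 * (K + 1) * (4 * y) := by gcongr
      have h3 : 1 ≤ (K + 1) * y := one_le_mul_of_one_le_of_one_le (by linarith) hyone
      have h2 : 2 * lam ≤ 2 * ((K + 1) * y) := by linarith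
      linarith
    · have h1 : 2 / h0 ^ 2 / R ≤ 1 := by
        rw [div_le_one hR0, hh0, hh2, hR, hpw, hpw]
        have h3 : 2 / (2 * Real.exp (-(21 / 10) * y)) ^ 2 = 1 / 2 * Real.exp (21 / 5 * y) := by
          rw [mul_pow, ← Real.exp_nat_mul, div_mul_eq_div_div, div_eq_mul_inv (2 / 2 ^ 2),
            ← Real.exp_neg]
          norm_num
          ring
        rw [h3]
        have h4 : 21 / 5 * y ≤ Real.exp (- -(1 / 100) * y) := by
          rw [neg_neg]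
          linarith
        have h5 := Real.exp_le_exp.2 h4
        have h6 : 0 < Real.exp (21 / 5 * y) := Real.exp_pos _
        linarith
      have h3 : 1 ≤ (K + 1) * y := one_le_mul_of_one_le_of_one_le (by linarith) hyone
      linarith
  have hQ0 : 0 ≤ Q := (norm_nonneg _).trans ((hA (z + (t : ℂ) ^ 2 * gg d (b + 1) z) (by
    rw [Complex.add_im, t2_im]
    have : t ^ 2 * m ≤ t ^ 2 * (gg d (b + 1) z).im := by gcongr
    linarith)).2 0)
  refine gd_det hd hDat v D1 Q h0 δ ρ ε m (fun ζ hζ => (hA ζ hζ).1) (fun ζ hζ => (hA ζ hζ).2)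
    hzδ htδ hm hm1 hmg hh0t hρ hρ1 hε hε1 hε2 ?_ hρ2 ?_ ?_
  · rw [← hc1]
    have h1 : CH d * ((2 + CH d) * δ) ^ (1 / 8 : ℝ) = C3 * Real.exp (-(1 / 400) * y) := by
      rw [Real.mul_rpow (by positivity) hδ0.le, hC3, hδ, ← Real.rpow_mul hlam.le, hpw]
      have : -(1 / 50 * (1 / 8) : ℝ) = -(1 / 400) := by norm_num
      rw [this]
      ring
    rw [h1]
    linarith
  · have h1 : δ = Real.exp (-(1 / 50) * y) := by rw [hδ, hpw]
    have h2 : Q ^ 2 ≤ (18 * (K + 1) * y) ^ 2 := by gcongr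
    calc δ * Q ^ 2 ≤ Real.exp (-(1 / 50) * y) * (18 * (K + 1) * y) ^ 2 := by
          rw [← h1]
          gcongr
      _ = (324 * (K + 1) ^ 2 / ε * y ^ 2 * Real.exp (-(1 / 50) * y)) * ε := by
          field_simp
          ring
      _ ≤ 1 * ε := by gcongr
      _ = ε := one_mul _
  · linarith

end Pool.Agent.Y662.TR
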