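import Pool.Agent.Y662.TR.L2
import Pool.Agent.TH369.AN.RES

/-! The tree of sheets: the operator. A vertex is a pair `(l, x)`: `l` is the list of the attachment
points of the sheet of the vertex (the most recent one first) and `x` is the position in the sheet. -/

set_option autoImplicit false
set_option linter.unusedSectionVars false

open scoped BigOperators InnerProductSpace Topology
open Filter

namespace Pool.Agent.Y662.TR

open Pool.Agent.TH369.AN (Rz rz_eq rz_uniq rz_norm)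

/-- the vertices -/
abbrev Vt (d : ℕ) : Type := List (Fin d → ℤ) × (Fin d → ℤ)

variable {d : ℕ}

/-- the shift in a sheet -/
def sh (e : Fin d → ℤ) (v : Vt d) : Vt d := (v.1, v.2 + e)

theorem sh_inj (e : Fin d → ℤ) : Function.Injective (sh e) := by
  rintro ⟨l, x⟩ ⟨l', x'⟩ h
  unfold sh at h
  simp only [Prod.mk.injEq, add_left_inj] at h
  exact Prod.ext h.1 h.2

/-- the origin of the sheet attached to `v` -/
def ch (v : Vt d) : Vt d := (v.2 :: v.1, 0)

theorem ch_inj : Function.Injective (ch (d := d)) := by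
  rintro ⟨l, x⟩ ⟨l', x'⟩ h
  unfold ch at h
  simp only [Prod.mk.injEq, List.cons.injEq, and_true] at h
  exact Prod.ext h.2 h.1

/-- the inclusion of the subtree of the sheet `p` -/
def jp (p : List (Fin d → ℤ)) (v : Vt d) : Vt d := (v.1 ++ p, v.2)

theorem jp_inj (p : List (Fin d → ℤ)) : Function.Injective (jp (d := d) p) := by
  rintro ⟨l, x⟩ ⟨l', x'⟩ h
  unfold jp at h
  simp only [Prod.mk.injEq, List.append_cancel_right_eq] at h
  exact Prod.ext h.1 h.2

/-- the root -/
def oo (d : ℕ) : Vt d := ([], 0)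

/-- half of the hopping between the sheets -/
noncomputable def KK (B : ℝ) (τ : Vt d → ℝ) : LL (Vt d) →L[ℂ] LL (Vt d) :=
  Mw B τ * Cf ch ch_inj

/-- the operator -/
noncomputable def TT (B : ℝ) (V τ : Vt d → ℝ) : LL (Vt d) →L[ℂ] LL (Vt d) :=
  ((2 * d : ℝ) : ℂ) • 1 + Mw B V - ∑ i : Fin d, (Cf (sh (Pi.single i 1)) (sh_inj _) +
    ContinuousLinearMap.adjoint (Cf (sh (Pi.single i 1)) (sh_inj _))) +
    (KK B τ + ContinuousLinearMap.adjoint (KK B τ))

theorem add_adj_sa {ι : Type} (A : LL ι →L[ℂ] LL ι) :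
    IsSelfAdjoint (A + ContinuousLinearMap.adjoint A) := by
  have h := IsSelfAdjoint.add_star_self A
  rwa [ContinuousLinearMap.star_eq_adjoint] at h

theorem TT_sa (B : ℝ) (V τ : Vt d → ℝ) : IsSelfAdjoint (TT B V τ) := by
  unfold TT
  refine IsSelfAdjoint.add (IsSelfAdjoint.sub (IsSelfAdjoint.add ?_ (Mw_sa B V)) ?_)
    (add_adj_sa _)
  · rw [isSelfAdjoint_iff, star_smul, star_one]
    congr 1
    exact Complex.conj_ofReal _
  · exact isSelfAdjoint_sum _ fun i _ => add_adj_sa _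

theorem KK_norm (B : ℝ) (τ : Vt d → ℝ) : ‖KK B τ‖ ≤ |B| := by
  unfold KK
  refine (norm_mul_le _ _).trans ?_
  calc ‖Mw B τ‖ * ‖Cf (ch (d := d)) ch_inj‖ ≤ |B| * 1 := by
        gcongr
        · exact Mw_norm B τ
        · exact Cf_norm _ _
    _ = _ := mul_one _

theorem TT_norm (B : ℝ) (V τ : Vt d → ℝ) : ‖TT B V τ‖ ≤ 4 * d + 3 * |B| := by
  unfold TT
  have h1 : ‖((2 * d : ℝ) : ℂ) • (1 : LL (Vt d) →L[ℂ] LL (Vt d))‖ ≤ 2 * d := by
    rw [norm_smul, Complex.norm_real, Real.norm_of_nonneg (by positivity)]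
    calc (2 * (d : ℝ)) * ‖(1 : LL (Vt d) →L[ℂ] LL (Vt d))‖ ≤ (2 * d) * 1 := by
          gcongr
          exact ContinuousLinearMap.norm_id_le
      _ = _ := mul_one _
  have h2 : ‖∑ i : Fin d, (Cf (sh (Pi.single i 1)) (sh_inj _) +
      ContinuousLinearMap.adjoint (Cf (sh (Pi.single i 1)) (sh_inj _)))‖ ≤ 2 * d := by
    refine (norm_sum_le _ _).trans ?_
    have h3 : ∀ i ∈ (Finset.univ : Finset (Fin d)), ‖Cf (sh (Pi.single i 1)) (sh_inj _) +
        ContinuousLinearMap.adjoint (Cf (sh (Pi.single i 1)) (sh_inj _))‖ ≤ 2 := by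
      intro i _
      refine (norm_add_le _ _).trans ?_
      have a1 := Cf_norm (sh (Pi.single i 1 : Fin d → ℤ)) (sh_inj _)
      have a2 := Cf_adj_norm (sh (Pi.single i 1 : Fin d → ℤ)) (sh_inj _)
      linarith
    refine (Finset.sum_le_sum h3).trans ?_
    simp [mul_comm]
  have h4 : ‖KK B τ + ContinuousLinearMap.adjoint (KK B τ)‖ ≤ 2 * |B| := by
    refine (norm_add_le _ _).trans ?_
    rw [LinearIsometryEquiv.norm_map]
    have := KK_norm B τ
    linarith
  have h5 := Mw_norm B V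
  calc _ ≤ ‖((2 * d : ℝ) : ℂ) • (1 : LL (Vt d) →L[ℂ] LL (Vt d)) + Mw B V -
        ∑ i : Fin d, (Cf (sh (Pi.single i 1)) (sh_inj _) +
        ContinuousLinearMap.adjoint (Cf (sh (Pi.single i 1)) (sh_inj _)))‖ +
        ‖KK B τ + ContinuousLinearMap.adjoint (KK B τ)‖ := norm_add_le _ _
    _ ≤ (‖((2 * d : ℝ) : ℂ) • (1 : LL (Vt d) →L[ℂ] LL (Vt d)) + Mw B V‖ + 2 * d) + 2 * |B| := by
        gcongr
        exact (norm_sub_le _ _).trans (by gcongr)
    _ ≤ ((2 * d + |B|) + 2 * d) + 2 * |B| := by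
        gcongr
        exact (norm_add_le _ _).trans (by gcongr)
    _ = _ := by ring

open Classical in
/-- the term of the parent -/
noncomputable def par (B : ℝ) (τ : Vt d → ℝ) (u : Vt d → ℂ) : Vt d → ℂ
  | ([], _) => 0
  | (p :: l, x) => if x = 0 then ((clp B (τ (l, p)) : ℝ) : ℂ) * u (l, p) else 0

theorem KK_apply (B : ℝ) (τ : Vt d → ℝ) (u : LL (Vt d)) (v : Vt d) :
    KK B τ u v = ((clp B (τ v) : ℝ) : ℂ) * u (ch v) := rfl

theorem KK_adj (B : ℝ) (τ : Vt d → ℝ) (u : LL (Vt d)) :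
    ContinuousLinearMap.adjoint (KK B τ) u =
      ContinuousLinearMap.adjoint (Cf ch ch_inj) (Mw B τ u) := by
  unfold KK
  have h := (Mw_sa B τ)
  rw [ContinuousLinearMap.mul_def, ContinuousLinearMap.adjoint_comp]
  have h2 : ContinuousLinearMap.adjoint (Mw B τ) = Mw B τ := by
    rw [← ContinuousLinearMap.star_eq_adjoint]
    exact h.star_eq
  rw [h2]
  rfl

theorem KK_adj_apply (B : ℝ) (τ : Vt d → ℝ) (u : LL (Vt d)) (v : Vt d) :
    ContinuousLinearMap.adjoint (KK B τ) u v = par B τ (fun w => u w) v := by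
  rw [KK_adj]
  obtain ⟨l, x⟩ := v
  cases l with
  | nil =>
    rw [Cf_adj_ne]
    · rfl
    · rintro ⟨l', x'⟩ h
      unfold ch at h
      simp at h
  | cons p l =>
    by_cases hx : x = 0
    · subst hx
      have h1 : ((p :: l, 0) : Vt d) = ch (l, p) := rfl
      rw [h1, Cf_adj, Mw_apply]
      unfold par ch
      simp
    · rw [Cf_adj_ne]
      · unfold par
        simp [hx]
      · rintro ⟨l', x'⟩ h
        unfold ch at h
        simp only [Prod.mk.injEq] at h
        exact hx h.2.symm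

theorem sh_adj (e : Fin d → ℤ) (u : LL (Vt d)) (v : Vt d) :
    ContinuousLinearMap.adjoint (Cf (sh e) (sh_inj e)) u v = u (v.1, v.2 - e) := by
  have h : v = sh e (v.1, v.2 - e) := by
    unfold sh
    simp
  conv_lhs => rw [h]
  rw [Cf_adj]

/-- the action of the operator -/
theorem TT_apply (B : ℝ) (V τ : Vt d → ℝ) (u : LL (Vt d)) (v : Vt d) :
    TT B V τ u v = -∑ i : Fin d, (u (v.1, v.2 + Pi.single i 1) + u (v.1, v.2 - Pi.single i 1)) +
      ((2 * d + clp B (V v) : ℝ) : ℂ) * u v + ((clp B (τ v) : ℝ) : ℂ) * u (ch v) +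
      par B τ (fun w => u w) v := by
  unfold TT
  rw [← ev_apply v]
  simp only [ContinuousLinearMap.add_apply, ContinuousLinearMap.sub_apply,
    ContinuousLinearMap.smul_apply, ContinuousLinearMap.one_apply, map_add, map_sub, map_smul,
    ContinuousLinearMap.sum_apply, map_sum, ev_apply, KK_apply, KK_adj_apply, Mw_apply, Cf_apply,
    sh_adj]
  unfold sh
  push_cast
  simp only [smul_eq_mul]
  ring

/-- **the subtree** -/
theorem sub_apply (B : ℝ) (V τ : Vt d → ℝ) (y : Fin d → ℤ) (l0 : List (Fin d → ℤ))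
    (u : LL (Vt d)) (v : Vt d) :
    TT B (V ∘ jp (y :: l0)) (τ ∘ jp (y :: l0)) (Cf (jp (y :: l0)) (jp_inj _) u) v =
      TT B V τ u (jp (y :: l0) v) -
        (((clp B (τ (l0, y)) : ℝ) : ℂ) * u (l0, y)) * dv (oo d) v := by
  rw [TT_apply, TT_apply]
  have h1 : ∀ w : Vt d, Cf (jp (y :: l0)) (jp_inj _) u w = u (jp (y :: l0) w) := fun w => rfl
  simp only [h1]
  have h2 : jp (y :: l0) (ch v) = ch (jp (y :: l0) v) := rfl
  rw [h2]
  have h3 : par B (τ ∘ jp (y :: l0)) (fun w => u (jp (y :: l0) w)) v =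
      par B τ (fun w => u w) (jp (y :: l0) v) -
        (((clp B (τ (l0, y)) : ℝ) : ℂ) * u (l0, y)) * dv (oo d) v := by
    obtain ⟨l, x⟩ := v
    cases l with
    | nil =>
      unfold jp par oo
      simp only [List.nil_append]
      by_cases hx : x = 0
      · subst hx
        rw [dv_self]
        simp
      · rw [dv_ne (by
          intro h
          simp only [Prod.mk.injEq, true_and] at h
          exact hx h)]
        simp [hx]
    | cons p l =>
      have h4 : dv (oo d) ((p :: l, x) : Vt d) = 0 := dv_ne (by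
        unfold oo
        simp)
      rw [h4]
      unfold jp par
      simp
  rw [h3]
  simp only [jp, Function.comp]
  ring

end Pool.Agent.Y662.TR
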