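import Mathlib

/-! Second moments of weighted sums of independent variables. -/

set_option autoImplicit false
set_option linter.unusedSectionVars false

open scoped BigOperators Topology ENNReal
open MeasureTheory Filter ProbabilityTheory

namespace Pool.Agent.Y662.TR

section fin

variable {ι Ω : Type} [MeasurableSpace Ω] (P : Measure Ω) [IsProbabilityMeasure P]

theorem meas_ev (y : ι) : Measurable fun w : ι → Ω => w y := measurable_pi_apply y

theorem int_eval (X : Ω → ℂ) (hX : Measurable X) (y : ι) :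
    ∫ w : ι → Ω, X (w y) ∂(Measure.infinitePi fun _ : ι => P) = ∫ ω, X ω ∂P := by
  have h := integral_map (μ := Measure.infinitePi fun _ : ι => P) (φ := fun w : ι → Ω => w y)
    (meas_ev y).aemeasurable (f := X) hX.aestronglyMeasurable
  rw [Measure.infinitePi_map_eval] at h
  exact h.symm

theorem int_eval_real (X : Ω → ℝ) (hX : Measurable X) (y : ι) :
    ∫ w : ι → Ω, X (w y) ∂(Measure.infinitePi fun _ : ι => P) = ∫ ω, X ω ∂P := by
  have h := integral_map (μ := Measure.infinitePi fun _ : ι => P) (φ := fun w : ι → Ω => w y)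
    (meas_ev y).aemeasurable (f := X) hX.aestronglyMeasurable
  rw [Measure.infinitePi_map_eval] at h
  exact h.symm

theorem int_eval_two (X Y : Ω → ℂ) (hX : Measurable X) (hY : Measurable Y) {y y' : ι}
    (h : y ≠ y') :
    ∫ w : ι → Ω, X (w y) * Y (w y') ∂(Measure.infinitePi fun _ : ι => P) =
      (∫ ω, X ω ∂P) * ∫ ω, Y ω ∂P := by
  have h1 := iIndepFun_infinitePi (P := fun _ : ι => P) (X := fun _ : ι => (id : Ω → Ω))
    (fun _ => measurable_id)
  have h2 := (h1.indepFun h).integral_fun_comp_mul_comp (f := X) (g := Y)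
    (meas_ev y).aemeasurable (meas_ev y').aemeasurable hX.aestronglyMeasurable
    hY.aestronglyMeasurable
  simp only [id] at h2
  rw [h2, int_eval P X hX, int_eval P Y hY]

theorem bdd_int {Ω' : Type} [MeasurableSpace Ω'] (Q : Measure Ω') [IsFiniteMeasure Q]
    (X : Ω' → ℂ) (hX : Measurable X) (K : ℝ) (hK : ∀ ω, ‖X ω‖ ≤ K) : Integrable X Q :=
  Integrable.of_bound hX.aestronglyMeasurable K (Eventually.of_forall hK)

theorem bdd_int_real {Ω' : Type} [MeasurableSpace Ω'] (Q : Measure Ω') [IsFiniteMeasure Q]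
    (X : Ω' → ℝ) (hX : Measurable X) (K : ℝ) (hK : ∀ ω, |X ω| ≤ K) : Integrable X Q :=
  Integrable.of_bound hX.aestronglyMeasurable K (Eventually.of_forall hK)

theorem wsum_fin (X : Ω → ℂ) (hX : Measurable X) (K : ℝ) (hK : ∀ ω, ‖X ω‖ ≤ K) (F : Finset ι)
    (c : ι → ℂ) :
    ∫ w : ι → Ω, ‖∑ y ∈ F, c y * X (w y)‖ ^ 2 ∂(Measure.infinitePi fun _ : ι => P) ≤
      ‖∫ ω, X ω ∂P‖ ^ 2 * ‖∑ y ∈ F, c y‖ ^ 2 + (∫ ω, ‖X ω‖ ^ 2 ∂P) * ∑ y ∈ F, ‖c y‖ ^ 2 := by
  classical
  obtain ⟨Q, hQ⟩ : ∃ Q, Q = Measure.infinitePi fun _ : ι => P := ⟨_, rfl⟩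
  have hQp : IsProbabilityMeasure Q := by rw [hQ]; infer_instance
  rw [← hQ]
  obtain ⟨a, ha⟩ : ∃ a, a = ∫ ω, X ω ∂P := ⟨_, rfl⟩
  obtain ⟨b, hb⟩ : ∃ b, b = ∫ ω, ‖X ω‖ ^ 2 ∂P := ⟨_, rfl⟩
  rw [← ha, ← hb]
  have hXc : Measurable fun ω => (starRingEnd ℂ) (X ω) := Complex.continuous_conj.measurable.comp hX
  have hn : ∀ z : ℂ, ((‖z‖ ^ 2 : ℝ) : ℂ) = z * (starRingEnd ℂ) z := by
    intro z
    rw [Complex.mul_conj, Complex.normSq_eq_norm_sq]
  have hac : ∫ ω, (starRingEnd ℂ) (X ω) ∂P = (starRingEnd ℂ) a := by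
    rw [ha]
    exact integral_conj
  -- the two point function
  have h2 : ∀ y y' : ι, ∫ w : ι → Ω, X (w y) * (starRingEnd ℂ) (X (w y')) ∂Q =
      if y = y' then (b : ℂ) else a * (starRingEnd ℂ) a := by
    intro y y'
    by_cases h : y = y'
    · subst h
      rw [if_pos rfl]
      have h3 : (fun w : ι → Ω => X (w y) * (starRingEnd ℂ) (X (w y))) =
          fun w : ι → Ω => ((‖X (w y)‖ ^ 2 : ℝ) : ℂ) := by
        funext w
        rw [hn]
      rw [h3, integral_complex_ofReal, hQ, int_eval_real P (fun ω => ‖X ω‖ ^ 2) (by fun_prop) y, ← hb]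
    · rw [if_neg h, hQ, int_eval_two P X (fun ω => (starRingEnd ℂ) (X ω)) hX hXc h, hac, ← ha]
  have hint : ∀ y y' : ι, Integrable (fun w : ι → Ω => c y * (starRingEnd ℂ) (c y') *
      (X (w y) * (starRingEnd ℂ) (X (w y')))) Q := by
    intro y y'
    refine Integrable.const_mul ?_ _
    refine bdd_int Q _ ((hX.comp (meas_ev y)).mul (hXc.comp (meas_ev y'))) (K * K) fun w => ?_
    rw [norm_mul, Complex.norm_conj]
    exact mul_le_mul (hK (w y)) (hK (w y')) (norm_nonneg _) ((norm_nonneg _).trans (hK (w y)))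
  have h3 : ((∫ w : ι → Ω, ‖∑ y ∈ F, c y * X (w y)‖ ^ 2 ∂Q : ℝ) : ℂ) =
      ∑ y ∈ F, ∑ y' ∈ F, c y * (starRingEnd ℂ) (c y') *
        (if y = y' then (b : ℂ) else a * (starRingEnd ℂ) a) := by
    rw [← integral_complex_ofReal]
    have h4 : ∀ w : ι → Ω, ((‖∑ y ∈ F, c y * X (w y)‖ ^ 2 : ℝ) : ℂ) =
        ∑ y ∈ F, ∑ y' ∈ F, c y * (starRingEnd ℂ) (c y') *
          (X (w y) * (starRingEnd ℂ) (X (w y'))) := by
      intro w
      rw [hn, map_sum, Finset.sum_mul_sum]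
      refine Finset.sum_congr rfl fun y _ => Finset.sum_congr rfl fun y' _ => ?_
      rw [map_mul]
      ring
    simp only [h4]
    rw [integral_finset_sum _ fun y _ => integrable_finset_sum _ fun y' _ => hint y y']
    refine Finset.sum_congr rfl fun y _ => ?_
    rw [integral_finset_sum _ fun y' _ => hint y y']
    refine Finset.sum_congr rfl fun y' _ => ?_
    rw [integral_const_mul, h2]
  have h4 : ∑ y ∈ F, ∑ y' ∈ F, c y * (starRingEnd ℂ) (c y') *
        (if y = y' then (b : ℂ) else a * (starRingEnd ℂ) a) =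
      ((‖a‖ ^ 2 * ‖∑ y ∈ F, c y‖ ^ 2 + (b - ‖a‖ ^ 2) * ∑ y ∈ F, ‖c y‖ ^ 2 : ℝ) : ℂ) := by
    have h5 : ∀ y y' : ι, c y * (starRingEnd ℂ) (c y') *
        (if y = y' then (b : ℂ) else a * (starRingEnd ℂ) a) =
        c y * (starRingEnd ℂ) (c y') * (a * (starRingEnd ℂ) a) +
        (if y = y' then c y * (starRingEnd ℂ) (c y') * (b - a * (starRingEnd ℂ) a) else 0) := by
      intro y y'
      by_cases h : y = y'
      · rw [if_pos h, if_pos h]
        ring
      · rw [if_neg h, if_neg h]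
        ring
    simp only [h5, Finset.sum_add_distrib]
    have h6 : ∑ y ∈ F, ∑ y' ∈ F, c y * (starRingEnd ℂ) (c y') * (a * (starRingEnd ℂ) a) =
        ((‖a‖ ^ 2 * ‖∑ y ∈ F, c y‖ ^ 2 : ℝ) : ℂ) := by
      rw [Complex.ofReal_mul, hn, hn, map_sum]
      simp only [← Finset.sum_mul]
      rw [← Finset.sum_mul_sum]
      ring
    have h7 : ∑ y ∈ F, ∑ y' ∈ F, (if y = y' then c y * (starRingEnd ℂ) (c y') *
        (b - a * (starRingEnd ℂ) a) else 0) =
        (((b - ‖a‖ ^ 2) * ∑ y ∈ F, ‖c y‖ ^ 2 : ℝ) : ℂ) := by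
      have h8 : ∀ y ∈ F, ∑ y' ∈ F, (if y = y' then c y * (starRingEnd ℂ) (c y') *
          (b - a * (starRingEnd ℂ) a) else 0) =
          c y * (starRingEnd ℂ) (c y) * (b - a * (starRingEnd ℂ) a) := by
        intro y hy
        rw [Finset.sum_ite_eq, if_pos hy]
      rw [Finset.sum_congr rfl h8, ← Finset.sum_mul]
      push_cast
      simp only [← Complex.ofReal_pow, hn]
      ring
    rw [h6, h7]
    push_cast
    ring
  rw [h4] at h3
  have h5 := Complex.ofReal_injective h3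
  rw [h5]
  have h6 : 0 ≤ ‖a‖ ^ 2 * ∑ y ∈ F, ‖c y‖ ^ 2 := by positivity
  nlinarith

end fin

section inf

variable {ι Ω : Type} [Countable ι] [MeasurableSpace Ω] (P : Measure Ω) [IsProbabilityMeasure P]

theorem wsum_meas (X : Ω → ℂ) (hX : Measurable X) (K : ℝ) (hK : ∀ ω, ‖X ω‖ ≤ K)
    (c : ι → ℂ) (hc : Summable fun y => ‖c y‖) :
    Measurable fun w : ι → Ω => ∑' y, c y * X (w y) := by
  have hK0 : ∀ w : ι → Ω, Summable fun y => c y * X (w y) := by
    intro w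
    refine Summable.of_norm_bounded (hc.mul_right K) fun y => ?_
    rw [norm_mul]
    have := hK (w y)
    gcongr
  refine measurable_of_tendsto_metrizable' (u := (atTop : Filter (Finset ι)))
    (f := fun F w => ∑ y ∈ F, c y * X (w y)) (fun F => ?_) ?_
  · exact Finset.measurable_sum _ fun y _ => (hX.comp (meas_ev y)).const_mul _
  · rw [tendsto_pi_nhds]
    intro w
    exact (hK0 w).hasSum

/-- **the second moment of a weighted sum** -/
theorem wsum (X : Ω → ℂ) (hX : Measurable X) (K : ℝ) (hK : ∀ ω, ‖X ω‖ ≤ K)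
    (c : ι → ℂ) (hc : Summable fun y => ‖c y‖) :
    ∫ w : ι → Ω, ‖∑' y, c y * X (w y)‖ ^ 2 ∂(Measure.infinitePi fun _ : ι => P) ≤
      ‖∫ ω, X ω ∂P‖ ^ 2 * ‖∑' y, c y‖ ^ 2 + (∫ ω, ‖X ω‖ ^ 2 ∂P) * ∑' y, ‖c y‖ ^ 2 := by
  obtain ⟨Q, hQ⟩ : ∃ Q, Q = Measure.infinitePi fun _ : ι => P := ⟨_, rfl⟩
  have hQp : IsProbabilityMeasure Q := by rw [hQ]; infer_instance
  rw [← hQ]
  have hcn : ∀ w : ι → Ω, ∀ y, ‖c y * X (w y)‖ ≤ ‖c y‖ * K := by
    intro w y
    rw [norm_mul]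
    have := hK (w y)
    gcongr
  have hsum : ∀ w : ι → Ω, Summable fun y => c y * X (w y) := fun w =>
    Summable.of_norm_bounded (hc.mul_right K) (hcn w)
  have hK0 : 0 ≤ K ∨ IsEmpty (ι → Ω) := by
    by_cases h : Nonempty Ω
    · obtain ⟨ω⟩ := h
      exact Or.inl ((norm_nonneg _).trans (hK ω))
    · exfalso
      rw [not_nonempty_iff] at h
      have := Measure.eq_zero_of_isEmpty P
      exact (IsProbabilityMeasure.ne_zero P) this
  have hK1 : 0 ≤ K := by
    rcases hK0 with h | h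
    · exact h
    · exfalso
      have := Measure.eq_zero_of_isEmpty Q
      exact (IsProbabilityMeasure.ne_zero Q) this
  have hc2 : Summable fun y => ‖c y‖ ^ 2 := by
    have h1 : ∀ᶠ y in cofinite, ‖c y‖ ≤ 1 := by
      have := hc.tendsto_cofinite_zero
      exact this.eventually (Iic_mem_nhds zero_lt_one)
    refine Summable.of_norm_bounded_eventually hc ?_
    filter_upwards [h1] with y hy
    rw [norm_pow, norm_norm]
    nlinarith [norm_nonneg (c y)]
  have h1 : Tendsto (fun F : Finset ι => ∫ w : ι → Ω, ‖∑ y ∈ F, c y * X (w y)‖ ^ 2 ∂Q) atTop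
      (𝓝 (∫ w : ι → Ω, ‖∑' y, c y * X (w y)‖ ^ 2 ∂Q)) := by
    refine tendsto_integral_filter_of_dominated_convergence
      (fun _ => ((∑' y, ‖c y‖) * K) ^ 2) (Eventually.of_forall fun F => ?_)
      (Eventually.of_forall fun F => ?_) (integrable_const _) (Eventually.of_forall fun w => ?_)
    · have : Measurable fun w : ι → Ω => ‖∑ y ∈ F, c y * X (w y)‖ ^ 2 :=
        ((Finset.measurable_sum _ fun y _ => (hX.comp (meas_ev y)).const_mul _).norm).pow_const 2
      exact this.aestronglyMeasurable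
    · refine Eventually.of_forall fun w => ?_
      rw [Real.norm_of_nonneg (by positivity)]
      have h2 : ‖∑ y ∈ F, c y * X (w y)‖ ≤ (∑' y, ‖c y‖) * K := by
        refine (norm_sum_le _ _).trans ((Finset.sum_le_sum fun y _ => hcn w y).trans ?_)
        rw [← Finset.sum_mul]
        gcongr
        exact hc.sum_le_tsum F fun y _ => norm_nonneg _
      gcongr
    · exact ((hsum w).hasSum.norm).pow 2
  have h2 : Tendsto (fun F : Finset ι => ‖∫ ω, X ω ∂P‖ ^ 2 * ‖∑ y ∈ F, c y‖ ^ 2 +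
      (∫ ω, ‖X ω‖ ^ 2 ∂P) * ∑ y ∈ F, ‖c y‖ ^ 2) atTop
      (𝓝 (‖∫ ω, X ω ∂P‖ ^ 2 * ‖∑' y, c y‖ ^ 2 + (∫ ω, ‖X ω‖ ^ 2 ∂P) * ∑' y, ‖c y‖ ^ 2)) :=
    (((hc.of_norm.hasSum.norm).pow 2).const_mul _).add (hc2.hasSum.const_mul _)
  refine le_of_tendsto_of_tendsto' h1 h2 fun F => ?_
  rw [hQ]
  exact wsum_fin P X hX K hK F c

/-- the first moment of a weighted sum of nonnegative variables -/
theorem wsum_one (X : Ω → ℝ) (hX : Measurable X) (K : ℝ) (hK : ∀ ω, |X ω| ≤ K)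
    (c : ι → ℝ) (hc : Summable fun y => |c y|) :
    ∫ w : ι → Ω, ∑' y, c y * X (w y) ∂(Measure.infinitePi fun _ : ι => P) =
      (∑' y, c y) * ∫ ω, X ω ∂P := by
  obtain ⟨Q, hQ⟩ : ∃ Q, Q = Measure.infinitePi fun _ : ι => P := ⟨_, rfl⟩
  have hQp : IsProbabilityMeasure Q := by rw [hQ]; infer_instance
  have h0 : ∀ y, ∫ w : ι → Ω, c y * X (w y) ∂Q = c y * ∫ ω, X ω ∂P := by
    intro y
    rw [integral_const_mul, hQ, int_eval_real P X hX y]
  rw [← hQ, ← integral_tsum_of_summable_integral_norm (μ := Q)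
    (F := fun y (w : ι → Ω) => c y * X (w y))]
  · rw [tsum_congr h0, tsum_mul_right]
  · intro y
    exact (bdd_int_real Q (fun w : ι → Ω => X (w y)) (hX.comp (meas_ev y)) K
      (fun w => hK (w y))).const_mul _
  · have h1 : ∀ y, ∫ w : ι → Ω, ‖c y * X (w y)‖ ∂Q = |c y| * ∫ ω, |X ω| ∂P := by
      intro y
      simp only [norm_mul, Real.norm_eq_abs]
      rw [integral_const_mul, hQ, int_eval_real P (fun ω => |X ω|) hX.abs y]
    simp only [h1]
    exact hc.mul_right _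

end inf

end Pool.Agent.Y662.TR
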