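import Pool.Agent.W788.LD.Spec
import Pool.Agent.Y662.TR.Hp

/-! One sheet with complex self-energies. -/

set_option autoImplicit false
set_option linter.unusedSectionVars false

open scoped BigOperators Topology
open Filter

namespace Pool.Agent.Y662.TR

open Pool.Agent.W788.LD.Spec (S symm summ_mul)

section cs

/-- Cauchy-Schwarz for square summable families -/
theorem cs_tsum {ι : Type*} {f g : ι → ℝ} (hf : Summable fun y => f y ^ 2)
    (hg : Summable fun y => g y ^ 2) :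
    Summable (fun y => f y * g y) ∧
      (∑' y, f y * g y) ^ 2 ≤ (∑' y, f y ^ 2) * ∑' y, g y ^ 2 := by
  have h1 : Summable (fun y => f y * g y) := by
    apply Summable.of_norm_bounded (hf.add hg)
    intro y
    rw [Real.norm_eq_abs, abs_le]
    constructor <;> nlinarith [sq_nonneg (f y + g y), sq_nonneg (f y - g y), sq_nonneg (f y),
      sq_nonneg (g y)]
  refine ⟨h1, ?_⟩
  have h2 : Tendsto (fun F : Finset ι => (∑ y ∈ F, f y * g y) ^ 2) atTop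
      (𝓝 ((∑' y, f y * g y) ^ 2)) := h1.hasSum.pow 2
  refine le_of_tendsto' h2 (fun F => ?_)
  refine (Finset.sum_mul_sq_le_sq_mul_sq F f g).trans ?_
  exact mul_le_mul (hf.sum_le_tsum F (fun y _ => sq_nonneg _))
    (hg.sum_le_tsum F (fun y _ => sq_nonneg _)) (Finset.sum_nonneg fun y _ => sq_nonneg _)
    (tsum_nonneg fun y => sq_nonneg _)

end cs

variable {d : ℕ}

/-- the energy identity -/
theorem energy (V : (Fin d → ℤ) → ℝ) (z : ℂ) (q : (Fin d → ℤ) → ℂ) (C : ℝ) (hq : ∀ x, ‖q x‖ ≤ C)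
    (χ f : (Fin d → ℤ) → ℂ) (hχ : Summable fun x => ‖χ x‖ ^ 2) (hf : Summable fun x => ‖f x‖ ^ 2)
    (heq : ∀ x, -S χ x + ((V x : ℂ) - z - q x) * χ x = f x) :
    ∑' x, (z.im + (q x).im) * ‖χ x‖ ^ 2 = -(∑' x, (starRingEnd ℂ) (χ x) * f x).im := by
  obtain ⟨s1, s2, e1⟩ := symm χ χ hχ hχ
  have h1 : ∀ x, (z.im + (q x).im) * ‖χ x‖ ^ 2 =
      -((starRingEnd ℂ) (χ x) * f x).im - ((starRingEnd ℂ) (χ x) * S χ x).im := by
    intro x
    rw [← heq x]
    have h2 : (starRingEnd ℂ) (χ x) * (-S χ x + ((V x : ℂ) - z - q x) * χ x) =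
        -((starRingEnd ℂ) (χ x) * S χ x) + ((V x : ℂ) - z - q x) * ((‖χ x‖ ^ 2 : ℝ) : ℂ) := by
      rw [← Complex.normSq_eq_norm_sq, ← Complex.mul_conj]
      ring
    rw [h2, Complex.add_im, Complex.neg_im, Complex.im_mul_ofReal]
    simp only [Complex.sub_im, Complex.ofReal_im]
    ring
  have h3 : (∑' x, (starRingEnd ℂ) (χ x) * S χ x).im = 0 := by
    have h4 : (starRingEnd ℂ) (∑' x, (starRingEnd ℂ) (χ x) * S χ x) =
        ∑' x, (starRingEnd ℂ) (χ x) * S χ x := by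
      rw [Complex.conj_tsum, e1]
      refine tsum_congr fun x => ?_
      rw [map_mul, Complex.conj_conj, mul_comm]
    exact Complex.conj_eq_iff_im.mp h4
  have s3 := summ_mul χ f hχ hf
  have s4 : Summable fun x => ((starRingEnd ℂ) (χ x) * f x).im := (Complex.hasSum_im s3.hasSum).summable
  have s5 : Summable fun x => ((starRingEnd ℂ) (χ x) * S χ x).im :=
    (Complex.hasSum_im s1.hasSum).summable
  rw [tsum_congr h1, Summable.tsum_sub s4.neg s5, tsum_neg, ← Complex.im_tsum s3,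
    ← Complex.im_tsum s1, h3, sub_zero]

/-- the bilinear identity -/
theorem bil (V : (Fin d → ℤ) → ℝ) (z : ℂ) (q q' : (Fin d → ℤ) → ℂ) (C : ℝ)
    (hq : ∀ x, ‖q x - q' x‖ ≤ C)
    (φ ψ f g : (Fin d → ℤ) → ℂ) (hφ : Summable fun x => ‖φ x‖ ^ 2)
    (hψ : Summable fun x => ‖ψ x‖ ^ 2) (hf : Summable fun x => ‖f x‖ ^ 2)
    (hg : Summable fun x => ‖g x‖ ^ 2)
    (h1 : ∀ x, -S φ x + ((V x : ℂ) - z - q x) * φ x = f x)
    (h2 : ∀ x, -S ψ x + ((V x : ℂ) - z - q' x) * ψ x = g x) :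
    ∑' x, φ x * g x - ∑' x, ψ x * f x = ∑' x, ψ x * (q x - q' x) * φ x := by
  have hc : Summable fun x => ‖(starRingEnd ℂ) (φ x)‖ ^ 2 := by simpa using hφ
  obtain ⟨s1, s2, e1⟩ := symm (fun x => (starRingEnd ℂ) (φ x)) ψ hc hψ
  have hS : ∀ x, S (fun x => (starRingEnd ℂ) (φ x)) x = (starRingEnd ℂ) (S φ x) := by
    intro x
    unfold S
    simp only [map_sum, map_add]
  simp only [hS, Complex.conj_conj] at s1 s2 e1
  have k1 : Summable fun x => φ x * g x := by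
    have := summ_mul (fun x => (starRingEnd ℂ) (φ x)) g hc hg
    simpa using this
  have hcψ : Summable fun x => ‖(starRingEnd ℂ) (ψ x)‖ ^ 2 := by simpa using hψ
  have k2 : Summable fun x => ψ x * f x := by
    have := summ_mul (fun x => (starRingEnd ℂ) (ψ x)) f hcψ hf
    simpa using this
  have h3 : ∀ x, ψ x * (q x - q' x) * φ x = (φ x * g x - ψ x * f x) +
      (φ x * S ψ x - S φ x * ψ x) := by
    intro x
    rw [← h1 x, ← h2 x]
    ring
  rw [tsum_congr h3, Summable.tsum_add (k1.sub k2) (s1.sub s2), k1.tsum_sub k2, s1.tsum_sub s2, e1,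
    sub_self, add_zero]

theorem dl_sq (a : Fin d → ℤ) :
    Summable fun x : Fin d → ℤ => ‖(if x = a then (1 : ℂ) else 0)‖ ^ 2 := by
  refine summable_of_ne_finset_zero (s := {a}) fun x hx => ?_
  rw [Finset.mem_singleton] at hx
  rw [if_neg hx]
  simp

theorem tsum_dl (u : (Fin d → ℤ) → ℂ) (a : Fin d → ℤ) :
    ∑' x, u x * (if x = a then (1 : ℂ) else 0) = u a := by
  rw [tsum_eq_single a]
  · simp
  · intro x hx
    rw [if_neg hx, mul_zero]

/-- the data of a sheet -/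
structure Shd (d : ℕ) (V : (Fin d → ℤ) → ℝ) (z : ℂ) (t : ℝ) (s : (Fin d → ℤ) → ℂ) (g : ℂ)
    (a : Fin d → ℤ) (C c : ℝ) (φ ψ : (Fin d → ℤ) → ℂ) : Prop where
  z0 : 0 < z.im
  t0 : 0 < t
  g0 : 0 < g.im
  c0 : 0 < c
  sC : ∀ x, ‖s x‖ ≤ C
  sc : ∀ x, c ≤ (s x).im
  φs : Summable fun x => ‖φ x‖ ^ 2
  ψs : Summable fun x => ‖ψ x‖ ^ 2
  φe : ∀ x, -S φ x + ((V x : ℂ) - z - (t : ℂ) ^ 2 * s x) * φ x = if x = a then 1 else 0
  ψe : ∀ x, -S ψ x + ((V x : ℂ) - z - (t : ℂ) ^ 2 * g) * ψ x = if x = a then 1 else 0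

/-- the quadratic functional -/
noncomputable def NN (t : ℝ) (s : (Fin d → ℤ) → ℂ) (g : ℂ) (ψ : (Fin d → ℤ) → ℂ) : ℝ :=
  ∑' x, t ^ 2 * ‖ψ x‖ ^ 2 * (‖s x - g‖ ^ 2 / (s x).im)

section main

variable {V : (Fin d → ℤ) → ℝ} {z : ℂ} {t : ℝ} {s : (Fin d → ℤ) → ℂ} {g : ℂ}
  {a : Fin d → ℤ} {C c : ℝ} {φ ψ : (Fin d → ℤ) → ℂ}

theorem t2_im (t : ℝ) (w : ℂ) : ((t : ℂ) ^ 2 * w).im = t ^ 2 * w.im := by
  rw [← Complex.ofReal_pow, Complex.im_ofReal_mul]

theorem im_phi (h : Shd d V z t s g a C c φ ψ) :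
    ∑' x, (z.im + t ^ 2 * (s x).im) * ‖φ x‖ ^ 2 = (φ a).im := by
  have h1 := energy V z (fun x => (t : ℂ) ^ 2 * s x) (t ^ 2 * C) (fun x => by
    rw [norm_mul, norm_pow, Complex.norm_real, Real.norm_eq_abs, sq_abs]
    have := h.sC x
    gcongr) φ (fun x => if x = a then 1 else 0) h.φs (dl_sq a) h.φe
  simp only [t2_im] at h1
  rw [h1, tsum_dl (fun x => (starRingEnd ℂ) (φ x)) a, Complex.conj_im, neg_neg]

theorem im_psi (h : Shd d V z t s g a C c φ ψ) :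
    (z.im + t ^ 2 * g.im) * ∑' x, ‖ψ x‖ ^ 2 = (ψ a).im := by
  have h1 := energy V z (fun _ => (t : ℂ) ^ 2 * g) (t ^ 2 * ‖g‖) (fun x => by
    rw [norm_mul, norm_pow, Complex.norm_real, Real.norm_eq_abs, sq_abs])
    ψ (fun x => if x = a then 1 else 0) h.ψs (dl_sq a) h.ψe
  simp only [t2_im] at h1
  rw [tsum_mul_left] at h1
  rw [h1, tsum_dl (fun x => (starRingEnd ℂ) (ψ x)) a, Complex.conj_im, neg_neg]

theorem diff_le (h : Shd d V z t s g a C c φ ψ) (x : Fin d → ℤ) : ‖s x - g‖ ≤ C + ‖g‖ :=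
  (norm_sub_le _ _).trans (by have := h.sC x; linarith)

theorem C_nonneg (h : Shd d V z t s g a C c φ ψ) : 0 ≤ C := (norm_nonneg _).trans (h.sC 0)

theorem NN_sum (h : Shd d V z t s g a C c φ ψ) :
    Summable fun x => t ^ 2 * ‖ψ x‖ ^ 2 * (‖s x - g‖ ^ 2 / (s x).im) := by
  have hc := h.c0
  have hC := C_nonneg h
  refine Summable.of_nonneg_of_le (fun x => ?_) (fun x => ?_)
    (h.ψs.mul_left (t ^ 2 * ((C + ‖g‖) ^ 2 / c)))
  · have := h.c0.trans_le (h.sc x)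
    positivity
  · have h1 := diff_le h x
    have h2 := h.sc x
    calc t ^ 2 * ‖ψ x‖ ^ 2 * (‖s x - g‖ ^ 2 / (s x).im) ≤
          t ^ 2 * ‖ψ x‖ ^ 2 * ((C + ‖g‖) ^ 2 / c) := by gcongr
      _ = _ := by ring

theorem NN_nonneg (h : Shd d V z t s g a C c φ ψ) : 0 ≤ NN t s g ψ := by
  unfold NN
  refine tsum_nonneg fun x => ?_
  have := h.c0.trans_le (h.sc x)
  positivity

/-- Cauchy-Schwarz with the weights -/
theorem cs_w (h : Shd d V z t s g a C c φ ψ) (χ : (Fin d → ℤ) → ℂ)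
    (hχ : Summable fun x => ‖χ x‖ ^ 2) :
    (Summable fun x => ‖ψ x * ((t : ℂ) ^ 2 * s x - (t : ℂ) ^ 2 * g) * χ x‖) ∧
    (∑' x, ‖ψ x * ((t : ℂ) ^ 2 * s x - (t : ℂ) ^ 2 * g) * χ x‖) ^ 2 ≤
      NN t s g ψ * ∑' x, (z.im + t ^ 2 * (s x).im) * ‖χ x‖ ^ 2 := by
  have ht := h.t0
  have hz := h.z0
  have hC := C_nonneg h
  have hs0 : ∀ x, 0 < (s x).im := fun x => h.c0.trans_le (h.sc x)
  have e0 : ∀ x, ‖ψ x * ((t : ℂ) ^ 2 * s x - (t : ℂ) ^ 2 * g) * χ x‖ =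
      (t * ‖ψ x‖ * (‖s x - g‖ / Real.sqrt (s x).im)) * (t * Real.sqrt (s x).im * ‖χ x‖) := by
    intro x
    rw [← mul_sub, norm_mul, norm_mul, norm_mul, norm_pow, Complex.norm_real,
      Real.norm_of_nonneg ht.le]
    have : Real.sqrt (s x).im ≠ 0 := (Real.sqrt_pos.2 (hs0 x)).ne'
    field_simp
  have e1 : ∀ x, (t * ‖ψ x‖ * (‖s x - g‖ / Real.sqrt (s x).im)) ^ 2 =
      t ^ 2 * ‖ψ x‖ ^ 2 * (‖s x - g‖ ^ 2 / (s x).im) := by
    intro x
    rw [mul_pow, mul_pow, div_pow, Real.sq_sqrt (hs0 x).le]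
  have e2 : ∀ x, (t * Real.sqrt (s x).im * ‖χ x‖) ^ 2 = t ^ 2 * (s x).im * ‖χ x‖ ^ 2 := by
    intro x
    rw [mul_pow, mul_pow, Real.sq_sqrt (hs0 x).le]
  have hle : ∀ x, (s x).im ≤ C := fun x => (Complex.im_le_norm _).trans (h.sC x)
  have s1 : Summable fun x => (t * ‖ψ x‖ * (‖s x - g‖ / Real.sqrt (s x).im)) ^ 2 := by
    simp only [e1]
    exact NN_sum h
  have s2 : Summable fun x => t ^ 2 * (s x).im * ‖χ x‖ ^ 2 := by
    refine Summable.of_nonneg_of_le (fun x => ?_) (fun x => ?_) (hχ.mul_left (t ^ 2 * C))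
    · have := hs0 x
      positivity
    · have := hle x
      gcongr
  have s3 : Summable fun x => (t * Real.sqrt (s x).im * ‖χ x‖) ^ 2 := by
    simp only [e2]
    exact s2
  have s4 : Summable fun x => (z.im + t ^ 2 * (s x).im) * ‖χ x‖ ^ 2 := by
    refine ((hχ.mul_left z.im).add s2).congr fun x => ?_
    ring
  obtain ⟨k1, k2⟩ := cs_tsum s1 s3
  simp only [e0]
  refine ⟨k1, k2.trans ?_⟩
  simp only [e1, e2]
  have h5 : ∑' x, t ^ 2 * (s x).im * ‖χ x‖ ^ 2 ≤ ∑' x, (z.im + t ^ 2 * (s x).im) * ‖χ x‖ ^ 2 := by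
    refine s2.tsum_le_tsum (fun x => ?_) s4
    have : 0 ≤ z.im * ‖χ x‖ ^ 2 := by positivity
    linarith
  have h6 := NN_nonneg h
  unfold NN at h6 ⊢
  gcongr

/-- the difference of the Green functions -/
theorem diff_eq (h : Shd d V z t s g a C c φ ψ) :
    φ a - ψ a = ∑' x, ψ x * ((t : ℂ) ^ 2 * s x - (t : ℂ) ^ 2 * g) * φ x := by
  have h1 := bil V z (fun x => (t : ℂ) ^ 2 * s x) (fun _ => (t : ℂ) ^ 2 * g)
    (t ^ 2 * (C + ‖g‖)) (fun x => by
      rw [← mul_sub, norm_mul, norm_pow, Complex.norm_real, Real.norm_eq_abs, sq_abs]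
      have := diff_le h x
      gcongr)
    φ ψ _ _ h.φs h.ψs (dl_sq a) (dl_sq a) h.φe h.ψe
  rw [tsum_dl, tsum_dl] at h1
  exact h1

/-- **the first bound** -/
theorem bound1 (h : Shd d V z t s g a C c φ ψ) :
    ‖φ a - ψ a‖ ^ 2 ≤ (φ a).im * NN t s g ψ := by
  obtain ⟨k1, k2⟩ := cs_w h φ h.φs
  rw [im_phi h] at k2
  rw [diff_eq h]
  refine le_trans ?_ (k2.trans (le_of_eq (mul_comm _ _)))
  exact pow_le_pow_left₀ (norm_nonneg _) (norm_tsum_le_tsum_norm k1) 2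

theorem phi_pos (h : Shd d V z t s g a C c φ ψ) : 0 < (φ a).im := by
  have hz := h.z0
  have h1 := im_phi h
  have hφ0 : ∃ x, φ x ≠ 0 := by
    by_contra hcon
    push Not at hcon
    have h2 := h.φe a
    have h3 : S φ a = 0 := by
      unfold S
      simp [hcon]
    rw [h3, hcon a] at h2
    simp at h2
  obtain ⟨x0, hx0⟩ := hφ0
  rw [← h1]
  have hC := C_nonneg h
  have hs0 : ∀ x, 0 < (s x).im := fun x => h.c0.trans_le (h.sc x)
  have hle : ∀ x, (s x).im ≤ C := fun x => (Complex.im_le_norm _).trans (h.sC x)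
  have s4 : Summable fun x => (z.im + t ^ 2 * (s x).im) * ‖φ x‖ ^ 2 := by
    refine Summable.of_nonneg_of_le (fun x => ?_) (fun x => ?_)
      (h.φs.mul_left (z.im + t ^ 2 * C))
    · have := hs0 x
      positivity
    · have := hle x
      gcongr
  refine s4.tsum_pos (fun x => ?_) x0 ?_
  · have := hs0 x
    positivity
  · have := hs0 x0
    have := norm_pos_iff.2 hx0
    positivity

theorem psi_pos (h : Shd d V z t s g a C c φ ψ) : 0 < (ψ a).im := by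
  have hz := h.z0
  have ht := h.t0
  have hg := h.g0
  have h1 := im_psi h
  have hψ0 : ∃ x, ψ x ≠ 0 := by
    by_contra hcon
    push Not at hcon
    have h2 := h.ψe a
    have h3 : S ψ a = 0 := by
      unfold S
      simp [hcon]
    rw [h3, hcon a] at h2
    simp at h2
  obtain ⟨x0, hx0⟩ := hψ0
  rw [← h1]
  have h2 : 0 < ∑' x, ‖ψ x‖ ^ 2 := by
    refine h.ψs.tsum_pos (fun x => by positivity) x0 ?_
    have := norm_pos_iff.2 hx0
    positivity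
  positivity

/-- **the second bound** -/
theorem bound2 (h : Shd d V z t s g a C c φ ψ) :
    ‖φ a - ψ a - ∑' x, (t : ℂ) ^ 2 * (ψ x ^ 2 * (s x - g))‖ ≤ NN t s g ψ := by
  have hC := C_nonneg h
  obtain ⟨χ, hχ⟩ : ∃ χ : (Fin d → ℤ) → ℂ, χ = fun x => φ x - ψ x := ⟨_, rfl⟩
  have hχs : Summable fun x => ‖χ x‖ ^ 2 := by
    refine Summable.of_nonneg_of_le (fun x => by positivity) (fun x => ?_)
      ((h.φs.mul_left 2).add (h.ψs.mul_left 2))
    rw [hχ]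
    have h1 := norm_sub_le (φ x) (ψ x)
    have h2 : ‖φ x - ψ x‖ ^ 2 ≤ (‖φ x‖ + ‖ψ x‖) ^ 2 := by gcongr
    nlinarith [sq_nonneg (‖φ x‖ - ‖ψ x‖)]
  obtain ⟨k1, k2⟩ := cs_w h χ hχs
  have hfs : Summable fun x => ‖((t : ℂ) ^ 2 * s x - (t : ℂ) ^ 2 * g) * ψ x‖ ^ 2 := by
    refine Summable.of_nonneg_of_le (fun x => by positivity) (fun x => ?_)
      (h.ψs.mul_left ((t ^ 2 * (C + ‖g‖)) ^ 2))
    rw [← mul_sub, norm_mul, norm_mul, norm_pow, Complex.norm_real, Real.norm_eq_abs, sq_abs,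
      mul_pow]
    have := diff_le h x
    gcongr
  have heq : ∀ x, -S χ x + ((V x : ℂ) - z - (t : ℂ) ^ 2 * s x) * χ x =
      ((t : ℂ) ^ 2 * s x - (t : ℂ) ^ 2 * g) * ψ x := by
    intro x
    have hS : S χ x = S φ x - S ψ x := by
      rw [hχ]
      unfold S
      rw [← Finset.sum_sub_distrib]
      exact Finset.sum_congr rfl fun i _ => by ring
    rw [hS, hχ]
    linear_combination (h.φe x) - (h.ψe x)
  have h1 := energy V z (fun x => (t : ℂ) ^ 2 * s x) (t ^ 2 * C) (fun x => by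
    rw [norm_mul, norm_pow, Complex.norm_real, Real.norm_eq_abs, sq_abs]
    have := h.sC x
    gcongr) χ _ hχs hfs heq
  simp only [t2_im] at h1
  obtain ⟨A, hA⟩ : ∃ A, A = ∑' x, ‖ψ x * ((t : ℂ) ^ 2 * s x - (t : ℂ) ^ 2 * g) * χ x‖ := ⟨_, rfl⟩
  have hA0 : 0 ≤ A := by rw [hA]; exact tsum_nonneg fun x => norm_nonneg _
  have h2 : ∑' x, (z.im + t ^ 2 * (s x).im) * ‖χ x‖ ^ 2 ≤ A := by
    rw [h1]
    refine (neg_le_abs _).trans ?_
    refine (Complex.abs_im_le_norm _).trans ?_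
    have h3 : ∀ x, ‖(starRingEnd ℂ) (χ x) * (((t : ℂ) ^ 2 * s x - (t : ℂ) ^ 2 * g) * ψ x)‖ =
        ‖ψ x * ((t : ℂ) ^ 2 * s x - (t : ℂ) ^ 2 * g) * χ x‖ := by
      intro x
      rw [norm_mul, norm_mul, norm_mul, norm_mul, Complex.norm_conj]
      ring
    have h4 := norm_tsum_le_tsum_norm (f := fun x =>
      (starRingEnd ℂ) (χ x) * (((t : ℂ) ^ 2 * s x - (t : ℂ) ^ 2 * g) * ψ x)) (by
      simp only [h3]
      exact k1)
    simp only [h3] at h4
    rw [hA]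
    exact h4
  rw [← hA] at k2
  have hN := NN_nonneg h
  have h3 : A ≤ NN t s g ψ := by
    rcases hA0.eq_or_lt with h4 | h4
    · rw [← h4]
      exact hN
    · have h5 : A * A ≤ NN t s g ψ * A := by
        calc A * A = A ^ 2 := by ring
          _ ≤ _ := k2
          _ ≤ NN t s g ψ * A := by gcongr
      exact le_of_mul_le_mul_right h5 h4
  refine le_trans ?_ h3
  have s1 : Summable fun x => ψ x * ((t : ℂ) ^ 2 * s x - (t : ℂ) ^ 2 * g) * φ x :=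
    (cs_w h φ h.φs).1.of_norm
  have s2 : Summable fun x => ψ x * ((t : ℂ) ^ 2 * s x - (t : ℂ) ^ 2 * g) * χ x := k1.of_norm
  have h4 : φ a - ψ a - ∑' x, (t : ℂ) ^ 2 * (ψ x ^ 2 * (s x - g)) =
      ∑' x, ψ x * ((t : ℂ) ^ 2 * s x - (t : ℂ) ^ 2 * g) * χ x := by
    have h5 : ∀ x, (t : ℂ) ^ 2 * (ψ x ^ 2 * (s x - g)) =
        ψ x * ((t : ℂ) ^ 2 * s x - (t : ℂ) ^ 2 * g) * φ x -
        ψ x * ((t : ℂ) ^ 2 * s x - (t : ℂ) ^ 2 * g) * χ x := by
      intro x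
      rw [hχ]
      ring
    rw [diff_eq h, tsum_congr h5, s1.tsum_sub s2]
    ring
  rw [h4, hA]
  exact norm_tsum_le_tsum_norm k1

end main

end Pool.Agent.Y662.TR
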