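import Pool.Agent.Y662.TR.Cmp
import Pool.Agent.Y662.TR.Ind
import Pool.Agent.TH369.MU.SM
import Pool.Agent.TH794.LL2.Fin2

/-! Consequences of the comparison for resolvents. -/

set_option autoImplicit false
set_option linter.unusedSectionVars false

open scoped BigOperators InnerProductSpace Topology
open MeasureTheory Filter

namespace Pool.Agent.Y662.TR

open Pool.Agent.TH369.AN (Rz rz_eq rz_uniq rz_norm)
open Pool.Agent.TH369.MU (SpM spm_exists)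
open Pool.Agent.TH794.LL2 (Po Po_int Po_im Res)
open Pool.Agent.W788.LD.Spec (S)

section gen

variable {X Y : Type} [NormedAddCommGroup X] [InnerProductSpace ℂ X] [CompleteSpace X]
  [NormedAddCommGroup Y] [InnerProductSpace ℂ Y] [CompleteSpace Y]

/-- the spectral measure, with the Poisson integrals -/
theorem spm_po (T : X →L[ℂ] X) (hT : IsSelfAdjoint T) (φ : X) :
    ∃ m : Measure ℝ, IsFiniteMeasure m ∧ m.real Set.univ = ‖φ‖ ^ 2 ∧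
      (∀ z : ℂ, z.im ≠ 0 → ⟪φ, Rz T z φ⟫_ℂ = ∫ x : ℝ, ((x : ℂ) - z)⁻¹ ∂m) ∧
      ∀ E η : ℝ, 0 < η → Po m E η = (⟪φ, Rz T ((E : ℂ) + (η : ℂ) * Complex.I) φ⟫_ℂ).im := by
  obtain ⟨m, ⟨hf, hm⟩, hu⟩ := spm_exists T hT φ
  refine ⟨m, hf, ?_, hm, fun E η hη => ?_⟩
  · rw [measureReal_def, hu, ENNReal.toReal_ofReal (by positivity)]
  · rw [hm _ (by simp [hη.ne']), Po_im m E η hη]

/-- **comparison of two resolvents** -/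
theorem cmpT (T : X →L[ℂ] X) (hT : IsSelfAdjoint T) (φ : X) (T' : Y →L[ℂ] Y)
    (hT' : IsSelfAdjoint T') (φ' : Y) (η : ℝ) (hη : 0 < η) (ζ : ℂ) (hζ : η < ζ.im) (ε B : ℝ)
    (hB : 0 < B)
    (h : ∀ E : ℝ, |(⟪φ, Rz T ((E : ℂ) + (η : ℂ) * Complex.I) φ⟫_ℂ).im -
      (⟪φ', Rz T' ((E : ℂ) + (η : ℂ) * Complex.I) φ'⟫_ℂ).im| ≤ ε) :
    ‖⟪φ, Rz T ζ φ⟫_ℂ - ⟪φ', Rz T' ζ φ'⟫_ℂ‖ ≤
      ε * (2 * Real.log (1 + 2 * (B / (ζ.im - η)))) + (‖φ‖ ^ 2 + ‖φ'‖ ^ 2) / B := by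
  obtain ⟨m, hf, hu, hm, hp⟩ := spm_po T hT φ
  obtain ⟨m', hf', hu', hm', hp'⟩ := spm_po T' hT' φ'
  have h1 := cmp m m' η hη (ζ - η * Complex.I) (by simp; linarith) ε B hB (fun E => by
    rw [hp E η hη, hp' E η hη]
    exact h E)
  have h2 : ζ - η * Complex.I + η * Complex.I = ζ := by ring
  have h3 : (ζ - η * Complex.I).im = ζ.im - η := by simp
  have hz : ζ.im ≠ 0 := (hη.trans hζ).ne'
  rw [h2, h3, hu, hu', ← hm ζ hz, ← hm' ζ hz] at h1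
  exact h1

/-- **a resolvent is bounded if its imaginary part is bounded at a smaller height** -/
theorem bddT (T : X →L[ℂ] X) (hT : IsSelfAdjoint T) (φ : X) (η : ℝ) (hη : 0 < η) (ζ : ℂ)
    (hζ : η < ζ.im) (K B : ℝ) (hB : 0 < B)
    (h : ∀ E : ℝ, (⟪φ, Rz T ((E : ℂ) + (η : ℂ) * Complex.I) φ⟫_ℂ).im ≤ K) :
    ‖⟪φ, Rz T ζ φ⟫_ℂ‖ ≤
      K * (2 * Real.log (1 + 2 * (B / (ζ.im - η)))) + ‖φ‖ ^ 2 / B := by
  obtain ⟨m, hf, hu, hm, hp⟩ := spm_po T hT φ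
  have h0 : ∀ E, Po (0 : Measure ℝ) E η = 0 := by
    intro E
    unfold Po
    simp
  have h1 := cmp m 0 η hη (ζ - η * Complex.I) (by simp; linarith) K B hB (fun E => by
    rw [hp E η hη, h0, sub_zero, abs_of_nonneg]
    · exact h E
    · rw [← hp E η hη]
      exact po_nonneg m E η hη)
  have h2 : ζ - η * Complex.I + η * Complex.I = ζ := by ring
  have h3 : (ζ - η * Complex.I).im = ζ.im - η := by simp
  have hz : ζ.im ≠ 0 := (hη.trans hζ).ne'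
  rw [h2, h3, hu, ← hm ζ hz, integral_zero_measure, sub_zero] at h1
  simpa using h1

/-- **the off-diagonal elements** -/
theorem offT (T : X →L[ℂ] X) (hT : IsSelfAdjoint T) (φ ψ : X) (hφ : ‖φ‖ = 1) (hψ : ‖ψ‖ = 1)
    (hs : ∀ z : ℂ, z.im ≠ 0 → ⟪φ, Rz T z ψ⟫_ℂ = ⟪ψ, Rz T z φ⟫_ℂ) (η : ℝ) (hη : 0 < η) (ζ : ℂ)
    (hζ : η < ζ.im) (K B : ℝ) (hB : 0 < B)
    (h1 : ∀ E : ℝ, (⟪φ, Rz T ((E : ℂ) + (η : ℂ) * Complex.I) φ⟫_ℂ).im ≤ K)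
    (h2 : ∀ E : ℝ, (⟪ψ, Rz T ((E : ℂ) + (η : ℂ) * Complex.I) ψ⟫_ℂ).im ≤ K) :
    ‖⟪φ, Rz T ζ ψ⟫_ℂ‖ ≤ 4 * K * Real.log (1 + 2 * (B / (ζ.im - η))) + 2 / B := by
  have e1 : ∀ z : ℂ, z.im ≠ 0 → ⟪φ + ψ, Rz T z (φ + ψ)⟫_ℂ =
      ⟪φ, Rz T z φ⟫_ℂ + ⟪ψ, Rz T z ψ⟫_ℂ + 2 * ⟪φ, Rz T z ψ⟫_ℂ := by
    intro z hz
    rw [map_add, inner_add_left, inner_add_right, inner_add_right, ← hs z hz]
    ring
  have e2 : ∀ z : ℂ, z.im ≠ 0 → ⟪φ - ψ, Rz T z (φ - ψ)⟫_ℂ =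
      ⟪φ, Rz T z φ⟫_ℂ + ⟪ψ, Rz T z ψ⟫_ℂ - 2 * ⟪φ, Rz T z ψ⟫_ℂ := by
    intro z hz
    rw [map_sub, inner_sub_left, inner_sub_right, inner_sub_right, ← hs z hz]
    ring
  have hpos : ∀ (χ : X) (E : ℝ), 0 ≤ (⟪χ, Rz T ((E : ℂ) + (η : ℂ) * Complex.I) χ⟫_ℂ).im := by
    intro χ E
    obtain ⟨m, hf, hu, hm, hp⟩ := spm_po T hT χ
    rw [← hp E η hη]
    exact po_nonneg m E η hη
  have him : ∀ E : ℝ, ((E : ℂ) + (η : ℂ) * Complex.I).im ≠ 0 := fun E => by simp [hη.ne']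
  have k1 : ∀ E : ℝ, (⟪φ + ψ, Rz T ((E : ℂ) + (η : ℂ) * Complex.I) (φ + ψ)⟫_ℂ).im ≤ 4 * K := by
    intro E
    have a1 := hpos (φ - ψ) E
    rw [e2 _ (him E)] at a1
    rw [e1 _ (him E)]
    have := h1 E
    have := h2 E
    simp only [Complex.add_im, Complex.sub_im] at a1 ⊢
    linarith
  have k2 : ∀ E : ℝ, (⟪φ - ψ, Rz T ((E : ℂ) + (η : ℂ) * Complex.I) (φ - ψ)⟫_ℂ).im ≤ 4 * K := by
    intro E
    have a1 := hpos (φ + ψ) E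
    rw [e1 _ (him E)] at a1
    rw [e2 _ (him E)]
    have := h1 E
    have := h2 E
    simp only [Complex.add_im, Complex.sub_im] at a1 ⊢
    linarith
  have b1 := bddT T hT (φ + ψ) η hη ζ hζ (4 * K) B hB k1
  have b2 := bddT T hT (φ - ψ) η hη ζ hζ (4 * K) B hB k2
  have hz : ζ.im ≠ 0 := (hη.trans hζ).ne'
  have h3 : 4 * ⟪φ, Rz T ζ ψ⟫_ℂ = ⟪φ + ψ, Rz T ζ (φ + ψ)⟫_ℂ - ⟪φ - ψ, Rz T ζ (φ - ψ)⟫_ℂ := by
    rw [e1 ζ hz, e2 ζ hz]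
    ring
  have h4 : 4 * ‖⟪φ, Rz T ζ ψ⟫_ℂ‖ ≤ ‖⟪φ + ψ, Rz T ζ (φ + ψ)⟫_ℂ‖ + ‖⟪φ - ψ, Rz T ζ (φ - ψ)⟫_ℂ‖ := by
    have : 4 * ‖⟪φ, Rz T ζ ψ⟫_ℂ‖ = ‖4 * ⟪φ, Rz T ζ ψ⟫_ℂ‖ := by
      rw [norm_mul]
      norm_num
    rw [this, h3]
    exact norm_sub_le _ _
  have n1 : ‖φ + ψ‖ ^ 2 ≤ 4 := by
    have := norm_add_le φ ψ
    rw [hφ, hψ] at this
    nlinarith [norm_nonneg (φ + ψ)]
  have n2 : ‖φ - ψ‖ ^ 2 ≤ 4 := by
    have := norm_sub_le φ ψ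
    rw [hφ, hψ] at this
    nlinarith [norm_nonneg (φ - ψ)]
  have n3 : ‖φ + ψ‖ ^ 2 / B ≤ 4 / B := by gcongr
  have n4 : ‖φ - ψ‖ ^ 2 / B ≤ 4 / B := by gcongr
  have n5 : 2 / B = (4 / B) / 2 := by ring
  rw [n5]
  linarith

end gen

section sheet

variable {d : ℕ}

/-- the spectral data of one sheet are those of the library -/
theorem res_of (B lam : ℝ) (v : (Fin d → ℤ) → ℝ) (hv : ∀ x, |lam * v x| ≤ |B|)
    (a : Fin d → ℤ) (m : Measure ℝ)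
    (hm : ∀ z : ℂ, z.im ≠ 0 → Ps B lam z v a a = ∫ x : ℝ, ((x : ℂ) - z)⁻¹ ∂m) :
    Res d (fun x => 2 * d + lam * v x) a m := by
  intro z hz
  refine ⟨Ps B lam z v a, coord_sq B _ _ z a, fun x => ?_, ?_⟩
  · have h1 := ps_eq B lam z hz v a x
    rw [clp_eq (hv x)] at h1
    rw [Pi.single_apply, ← h1]
    ring
  · rw [tsum_eq_single a]
    · rw [Pi.single_eq_same, map_one, one_mul]
      exact (hm z hz).symm
    · intro x hx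
      rw [Pi.single_eq_of_ne hx]
      simp

theorem ps_inner (B lam : ℝ) (z : ℂ) (v : (Fin d → ℤ) → ℝ) (a x : Fin d → ℤ) :
    Ps B lam z v a x = ⟪dv (([], x) : Vt d), Rz (TT B (Vr lam v) (fun _ => 0)) z
      (dv ([], a))⟫_ℂ := by
  rw [inner_dv]
  rfl

/-- the local law for one sheet -/
theorem law_sheet (B lam η : ℝ) (hη : 0 < η) (v : (Fin d → ℤ) → ℝ)
    (hv : ∀ x, |lam * v x| ≤ |B|) (F : ℝ → ℝ) (e : ℝ) (a : Fin d → ℤ)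
    (h : ∀ m : Measure ℝ, IsFiniteMeasure m → Res d (fun x => 2 * d + lam * v x) a m →
      ∀ E : ℝ, |Po m E η - F E| ≤ e) (E : ℝ) :
    |(Ps B lam ((E : ℂ) + (η : ℂ) * Complex.I) v a a).im - F E| ≤ e := by
  obtain ⟨m, hf, hu, hm, hp⟩ := spm_po (TT B (Vr lam v) (fun _ => 0)) (TT_sa _ _ _)
    (dv (([], a) : Vt d))
  have h1 := h m hf (res_of B lam v hv a m (fun z hz => by
    rw [ps_inner]
    exact hm z hz)) E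
  rw [hp E η hη, ← ps_inner] at h1
  exact h1

theorem vr_zero (lam : ℝ) : Vr (d := d) lam (fun _ => 0) = fun _ => 0 := by
  funext a
  unfold Vr
  simp

theorem ps_zero (B lam : ℝ) (z : ℂ) : Ps (d := d) B lam z (fun _ => 0) 0 0 = gg d B z := by
  unfold Ps gg
  rw [vr_zero]
  rfl

end sheet

end Pool.Agent.Y662.TR
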