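import Pool.Agent.Y662.TR.Sheet
import Pool.Agent.Y662.TR.Prob

/-! One step of the recursion for the moments, for a fixed root sheet. -/

set_option autoImplicit false
set_option linter.unusedSectionVars false

open scoped BigOperators Topology ENNReal
open MeasureTheory Filter ProbabilityTheory

namespace Pool.Agent.Y662.TR

variable {d : ℕ} {Ω : Type} [MeasurableSpace Ω] {P : Measure Ω} [IsProbabilityMeasure P]

/-- a bounded random variable in the upper half-plane -/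
structure RV (P : Measure Ω) (Γ : Ω → ℂ) (g : ℂ) (C c : ℝ) : Prop where
  meas : Measurable Γ
  le : ∀ ω, ‖Γ ω‖ ≤ C
  ge : ∀ ω, c ≤ (Γ ω).im
  c0 : 0 < c
  g0 : 0 < g.im

theorem hu_meas (g : ℂ) : Measurable fun a : ℂ => hu a g := by
  unfold hu
  fun_prop

section rv

variable {Γ : Ω → ℂ} {g : ℂ} {C c : ℝ}

theorem RV.nonneg (h : RV P Γ g C c) (ω : Ω) : 0 ≤ hu (Γ ω) g :=
  hu_nonneg (h.c0.trans_le (h.ge ω)) h.g0

/-- the bound of the functional -/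
noncomputable def UU (g : ℂ) (C c : ℝ) : ℝ := (C + ‖g‖) ^ 2 / (c * g.im)

theorem RV.huU (h : RV P Γ g C c) (ω : Ω) : hu (Γ ω) g ≤ UU g C c := by
  unfold hu UU
  have h1 := h.ge ω
  have h2 := h.c0
  have h3 := h.g0
  have h4 : ‖Γ ω - g‖ ≤ C + ‖g‖ := (norm_sub_le _ _).trans (by have := h.le ω; linarith)
  gcongr

theorem RV.abs (h : RV P Γ g C c) (ω : Ω) : |hu (Γ ω) g| ≤ UU g C c := by
  rw [abs_of_nonneg (h.nonneg ω)]
  exact h.huU ω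

theorem RV.int1 (h : RV P Γ g C c) : Integrable (fun ω => hu (Γ ω) g) P :=
  bdd_int_real P _ ((hu_meas g).comp h.meas) _ h.abs

theorem RV.int2 (h : RV P Γ g C c) : Integrable (fun ω => hu (Γ ω) g ^ 2) P :=
  bdd_int_real P _ (((hu_meas g).comp h.meas).pow_const 2) (UU g C c ^ 2) (fun ω => by
    rw [abs_of_nonneg (sq_nonneg _)]
    have := h.nonneg ω
    have := h.huU ω
    gcongr)

/-- Jensen -/
theorem sq_int_le (X : Ω → ℝ) (h1 : Integrable X P) (h2 : Integrable (fun ω => X ω ^ 2) P) :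
    (∫ ω, X ω ∂P) ^ 2 ≤ ∫ ω, X ω ^ 2 ∂P := by
  obtain ⟨a, ha⟩ : ∃ a, a = ∫ ω, X ω ∂P := ⟨_, rfl⟩
  have h0 : 0 ≤ ∫ ω, (X ω - a) ^ 2 ∂P := integral_nonneg fun ω => sq_nonneg _
  have i3 : Integrable (fun ω => 2 * a * X ω - a ^ 2) P :=
    (h1.const_mul (2 * a)).sub (integrable_const _)
  have h3 : ∫ ω, (X ω - a) ^ 2 ∂P = ∫ ω, X ω ^ 2 ∂P - (2 * a * ∫ ω, X ω ∂P - a ^ 2) := by
    have h4 : (fun ω => (X ω - a) ^ 2) = fun ω => X ω ^ 2 - (2 * a * X ω - a ^ 2) := by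
      funext ω
      ring
    rw [h4, integral_sub h2 i3, integral_sub (h1.const_mul (2 * a)) (integrable_const _),
      integral_const_mul, integral_const]
    simp
  rw [h3, ← ha] at h0
  rw [← ha]
  nlinarith

theorem RV.sq_le (h : RV P Γ g C c) : (∫ ω, hu (Γ ω) g ∂P) ^ 2 ≤ ∫ ω, hu (Γ ω) g ^ 2 ∂P :=
  sq_int_le _ h.int1 h.int2

/-- the second moment of the difference -/
theorem RV.diff2 (h : RV P Γ g C c) : ∫ ω, ‖Γ ω - g‖ ^ 2 ∂P ≤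
    (∫ ω, hu (Γ ω) g ^ 2 ∂P + 2 * ∫ ω, hu (Γ ω) g ∂P) * g.im ^ 2 := by
  have h1 : ∀ ω, ‖Γ ω - g‖ ^ 2 ≤ (hu (Γ ω) g ^ 2 + 2 * hu (Γ ω) g) * g.im ^ 2 := by
    intro ω
    refine (hu_sq (h.c0.trans_le (h.ge ω)) h.g0).trans (le_of_eq ?_)
    ring
  have h2 : Integrable (fun ω => (hu (Γ ω) g ^ 2 + 2 * hu (Γ ω) g) * g.im ^ 2) P :=
    (h.int2.add (h.int1.const_mul 2)).mul_const _
  refine (integral_mono_of_nonneg (Eventually.of_forall fun ω => by positivity) h2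
    (Eventually.of_forall h1)).trans (le_of_eq ?_)
  rw [integral_mul_const, integral_add h.int2 (h.int1.const_mul 2), integral_const_mul]

theorem RV.mean (h : RV P Γ g C c) : ‖∫ ω, (Γ ω - g) ∂P‖ ^ 2 ≤ ∫ ω, ‖Γ ω - g‖ ^ 2 ∂P := by
  have hb : ∀ ω, ‖Γ ω - g‖ ≤ C + ‖g‖ := fun ω =>
    (norm_sub_le _ _).trans (by have := h.le ω; linarith)
  have hm : Measurable fun ω => ‖Γ ω - g‖ := (h.meas.sub_const g).norm
  have i1 : Integrable (fun ω => ‖Γ ω - g‖) P :=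
    bdd_int_real P _ hm (C + ‖g‖) (fun ω => by rw [abs_of_nonneg (norm_nonneg _)]; exact hb ω)
  have i2 : Integrable (fun ω => ‖Γ ω - g‖ ^ 2) P :=
    bdd_int_real P _ (hm.pow_const 2) ((C + ‖g‖) ^ 2) (fun ω => by
      rw [abs_of_nonneg (by positivity)]
      have := hb ω
      gcongr)
  have h0 : ‖∫ ω, (Γ ω - g) ∂P‖ ≤ ∫ ω, ‖Γ ω - g‖ ∂P := norm_integral_le_integral_norm _
  refine le_trans ?_ (sq_int_le _ i1 i2)
  gcongr

end rv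

section step

variable {Γ : Ω → ℂ} {g z : ℂ} {C c t : ℝ} {V : (Fin d → ℤ) → ℝ} {ψ : (Fin d → ℤ) → ℂ}
  {φ : ((Fin d → ℤ) → Ω) → (Fin d → ℤ) → ℂ}

/-- the weights -/
noncomputable def wt (t : ℝ) (g : ℂ) (ψ : (Fin d → ℤ) → ℂ) (x : Fin d → ℤ) : ℝ :=
  t ^ 2 * ‖ψ x‖ ^ 2 * g.im / (ψ 0).im

/-- the weighted mean of the functional -/
noncomputable def WW (t : ℝ) (g : ℂ) (ψ : (Fin d → ℤ) → ℂ) (Γ : Ω → ℂ)
    (w : (Fin d → ℤ) → Ω) : ℝ := ∑' x, wt t g ψ x * hu (Γ (w x)) g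

theorem NN_eq (hS : ∀ w, Shd d V z t (fun x => Γ (w x)) g 0 C c (φ w) ψ)
    (w : (Fin d → ℤ) → Ω) :
    NN t (fun x => Γ (w x)) g ψ = (ψ 0).im * WW t g ψ Γ w := by
  have h1 := psi_pos (hS w)
  unfold NN WW
  rw [← tsum_mul_left]
  refine tsum_congr fun x => ?_
  unfold wt hu
  have h2 := (hS w).c0.trans_le ((hS w).sc x)
  have h3 := (hS w).g0
  field_simp

theorem wt_nonneg (hS : ∀ w, Shd d V z t (fun x => Γ (w x)) g 0 C c (φ w) ψ)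
    (w : (Fin d → ℤ) → Ω) (x : Fin d → ℤ) : 0 ≤ wt t g ψ x := by
  have h1 := psi_pos (hS w)
  have h3 := (hS w).g0
  unfold wt
  positivity

theorem wt_sum (hS : ∀ w, Shd d V z t (fun x => Γ (w x)) g 0 C c (φ w) ψ)
    (w : (Fin d → ℤ) → Ω) : (Summable fun x => wt t g ψ x) ∧ ∑' x, wt t g ψ x ≤ 1 := by
  have h1 := psi_pos (hS w)
  have h2 := im_psi (hS w)
  have h3 : ∀ x, wt t g ψ x = (t ^ 2 * g.im / (ψ 0).im) * ‖ψ x‖ ^ 2 := by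
    intro x
    unfold wt
    ring
  have h4 : Summable fun x => wt t g ψ x := by
    simp only [h3]
    exact (hS w).ψs.mul_left _
  refine ⟨h4, ?_⟩
  simp only [h3]
  rw [tsum_mul_left, div_mul_eq_mul_div, div_le_one h1, ← h2]
  have h5 : 0 ≤ ∑' x, ‖ψ x‖ ^ 2 := tsum_nonneg fun x => by positivity
  have h6 := (hS w).z0
  gcongr
  linarith

theorem WW_nonneg (hR : RV P Γ g C c) (hS : ∀ w, Shd d V z t (fun x => Γ (w x)) g 0 C c (φ w) ψ)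
    (w : (Fin d → ℤ) → Ω) : 0 ≤ WW t g ψ Γ w := by
  unfold WW
  exact tsum_nonneg fun x => mul_nonneg (wt_nonneg hS w x) (hR.nonneg (w x))

/-- the functional at the root is at most the weighted mean -/
theorem hu_le (hS : ∀ w, Shd d V z t (fun x => Γ (w x)) g 0 C c (φ w) ψ)
    (w : (Fin d → ℤ) → Ω) : hu (φ w 0) (ψ 0) ≤ WW t g ψ Γ w := by
  have h1 := bound1 (hS w)
  have h2 := phi_pos (hS w)
  have h3 := psi_pos (hS w)
  rw [NN_eq hS w] at h1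
  unfold hu
  rw [div_le_iff₀ (by positivity)]
  linarith

theorem WW_meas (hR : RV P Γ g C c) (hS : ∀ w, Shd d V z t (fun x => Γ (w x)) g 0 C c (φ w) ψ)
    (w0 : (Fin d → ℤ) → Ω) : Measurable (WW t g ψ Γ) := by
  have h1 := wsum_meas (ι := Fin d → ℤ) (fun ω => ((hu (Γ ω) g : ℝ) : ℂ))
    (Complex.measurable_ofReal.comp ((hu_meas g).comp hR.meas)) (UU g C c)
    (fun ω => by rw [Complex.norm_real, Real.norm_eq_abs]; exact hR.abs ω)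
    (fun x => ((wt t g ψ x : ℝ) : ℂ)) (by
      have h2 := (wt_sum hS w0).1
      refine h2.congr fun x => ?_
      rw [Complex.norm_real, Real.norm_of_nonneg (wt_nonneg hS w0 x)])
  have h2 : (fun w : (Fin d → ℤ) → Ω => ∑' x, ((wt t g ψ x : ℝ) : ℂ) *
      ((hu (Γ (w x)) g : ℝ) : ℂ)) = fun w => ((WW t g ψ Γ w : ℝ) : ℂ) := by
    funext w
    unfold WW
    push_cast
    rfl
  rw [h2] at h1
  have h3 := Complex.measurable_re.comp h1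
  exact h3

theorem WW_le (hR : RV P Γ g C c) (hS : ∀ w, Shd d V z t (fun x => Γ (w x)) g 0 C c (φ w) ψ)
    (w : (Fin d → ℤ) → Ω) : WW t g ψ Γ w ≤ UU g C c := by
  obtain ⟨h1, h2⟩ := wt_sum hS w
  have hU : 0 ≤ UU g C c := (hR.nonneg (w 0)).trans (hR.huU (w 0))
  unfold WW
  have h3 : ∀ x, wt t g ψ x * hu (Γ (w x)) g ≤ wt t g ψ x * UU g C c := fun x =>
    mul_le_mul_of_nonneg_left (hR.huU _) (wt_nonneg hS w x)
  have h4 : Summable fun x => wt t g ψ x * hu (Γ (w x)) g :=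
    Summable.of_nonneg_of_le (fun x => mul_nonneg (wt_nonneg hS w x) (hR.nonneg _)) h3
      (h1.mul_right _)
  refine (h4.tsum_le_tsum h3 (h1.mul_right _)).trans ?_
  rw [tsum_mul_right]
  nlinarith

/-- the second moment of the weighted mean -/
theorem WW_two (hR : RV P Γ g C c) (hS : ∀ w, Shd d V z t (fun x => Γ (w x)) g 0 C c (φ w) ψ)
    (w0 : (Fin d → ℤ) → Ω) (δ : ℝ) (hδ : ∀ x, wt t g ψ x ≤ δ) :
    ∫ w, WW t g ψ Γ w ^ 2 ∂(Measure.infinitePi fun _ : Fin d → ℤ => P) ≤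
      (∫ ω, hu (Γ ω) g ∂P) ^ 2 + δ * ∫ ω, hu (Γ ω) g ^ 2 ∂P := by
  obtain ⟨k1, k2⟩ := wt_sum hS w0
  have k0 := wt_nonneg hS w0
  have h1 := wsum P (ι := Fin d → ℤ) (fun ω => ((hu (Γ ω) g : ℝ) : ℂ))
    (Complex.measurable_ofReal.comp ((hu_meas g).comp hR.meas)) (UU g C c)
    (fun ω => by rw [Complex.norm_real, Real.norm_eq_abs]; exact hR.abs ω)
    (fun x => ((wt t g ψ x : ℝ) : ℂ)) (by
      refine k1.congr fun x => ?_
      rw [Complex.norm_real, Real.norm_of_nonneg (k0 x)])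
  have e1 : ∀ w : (Fin d → ℤ) → Ω, ‖∑' x, ((wt t g ψ x : ℝ) : ℂ) *
      ((hu (Γ (w x)) g : ℝ) : ℂ)‖ ^ 2 = WW t g ψ Γ w ^ 2 := by
    intro w
    have : ∑' x, ((wt t g ψ x : ℝ) : ℂ) * ((hu (Γ (w x)) g : ℝ) : ℂ) =
        ((WW t g ψ Γ w : ℝ) : ℂ) := by
      unfold WW
      push_cast
      rfl
    rw [this, Complex.norm_real, Real.norm_eq_abs, sq_abs]
  have e2 : ‖∫ ω, ((hu (Γ ω) g : ℝ) : ℂ) ∂P‖ ^ 2 = (∫ ω, hu (Γ ω) g ∂P) ^ 2 := by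
    rw [integral_complex_ofReal, Complex.norm_real, Real.norm_eq_abs, sq_abs]
  have e3 : ‖∑' x, ((wt t g ψ x : ℝ) : ℂ)‖ ^ 2 = (∑' x, wt t g ψ x) ^ 2 := by
    rw [← Complex.ofReal_tsum, Complex.norm_real, Real.norm_eq_abs, sq_abs]
  have e4 : ∀ ω, ‖((hu (Γ ω) g : ℝ) : ℂ)‖ ^ 2 = hu (Γ ω) g ^ 2 := by
    intro ω
    rw [Complex.norm_real, Real.norm_eq_abs, sq_abs]
  have e5 : ∀ x, ‖((wt t g ψ x : ℝ) : ℂ)‖ ^ 2 = wt t g ψ x ^ 2 := by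
    intro x
    rw [Complex.norm_real, Real.norm_eq_abs, sq_abs]
  simp only [e1, e2, e3, e4, e5] at h1
  refine h1.trans ?_
  have h2 : (∑' x, wt t g ψ x) ^ 2 ≤ 1 := by
    have h3 : 0 ≤ ∑' x, wt t g ψ x := tsum_nonneg k0
    nlinarith
  have h3 : ∑' x, wt t g ψ x ^ 2 ≤ δ := by
    have h4 : ∀ x, wt t g ψ x ^ 2 ≤ δ * wt t g ψ x := by
      intro x
      have := k0 x
      have := hδ x
      nlinarith
    have h5 : Summable fun x => wt t g ψ x ^ 2 :=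
      Summable.of_nonneg_of_le (fun x => sq_nonneg _) h4 (k1.mul_left δ)
    refine (h5.tsum_le_tsum h4 (k1.mul_left δ)).trans ?_
    rw [tsum_mul_left]
    have hδ0 : 0 ≤ δ := (k0 0).trans (hδ 0)
    nlinarith
  have h4 : 0 ≤ ∫ ω, hu (Γ ω) g ^ 2 ∂P := integral_nonneg fun ω => sq_nonneg _
  have h5 : 0 ≤ (∫ ω, hu (Γ ω) g ∂P) ^ 2 := sq_nonneg _
  nlinarith

/-- the linear term -/
noncomputable def LLn (t : ℝ) (g : ℂ) (ψ : (Fin d → ℤ) → ℂ) (Γ : Ω → ℂ)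
    (w : (Fin d → ℤ) → Ω) : ℂ := ∑' x, (t : ℂ) ^ 2 * (ψ x ^ 2 * (Γ (w x) - g))

theorem LL_sum (hψ : Summable fun x => ‖ψ x‖ ^ 2) :
    Summable fun x => ‖(t : ℂ) ^ 2 * ψ x ^ 2‖ := by
  refine (hψ.mul_left (t ^ 2)).congr fun x => ?_
  rw [norm_mul, norm_pow, norm_pow, Complex.norm_real, Real.norm_eq_abs, sq_abs]

theorem LL_meas (hR : RV P Γ g C c) (hψ : Summable fun x => ‖ψ x‖ ^ 2) :
    Measurable (LLn t g ψ Γ) := by
  have h1 := wsum_meas (ι := Fin d → ℤ) (fun ω => Γ ω - g) (hR.meas.sub_const g) (C + ‖g‖)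
    (fun ω => (norm_sub_le _ _).trans (by have := hR.le ω; linarith))
    (fun x => (t : ℂ) ^ 2 * ψ x ^ 2) (LL_sum hψ)
  have h2 : (fun w : (Fin d → ℤ) → Ω => ∑' x, (t : ℂ) ^ 2 * ψ x ^ 2 * (Γ (w x) - g)) =
      LLn t g ψ Γ := by
    funext w
    unfold LLn
    refine tsum_congr fun x => ?_
    ring
  rwa [h2] at h1

/-- the second moment of the linear term -/
theorem LL_two (hR : RV P Γ g C c) (hψ : Summable fun x => ‖ψ x‖ ^ 2) (a b : ℝ) (hb : 0 ≤ b)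
    (h1 : ‖∑' x, (t : ℂ) ^ 2 * ψ x ^ 2‖ ≤ a) (h2 : ∀ x, t ^ 2 * ‖ψ x‖ ^ 2 ≤ b) (S0 : ℝ)
    (h3 : t ^ 2 * ∑' x, ‖ψ x‖ ^ 2 ≤ S0) :
    ∫ w, ‖LLn t g ψ Γ w‖ ^ 2 ∂(Measure.infinitePi fun _ : Fin d → ℤ => P) ≤
      (a ^ 2 + b * S0) * ∫ ω, ‖Γ ω - g‖ ^ 2 ∂P := by
  have k1 := wsum P (ι := Fin d → ℤ) (fun ω => Γ ω - g) (hR.meas.sub_const g) (C + ‖g‖)
    (fun ω => (norm_sub_le _ _).trans (by have := hR.le ω; linarith))
    (fun x => (t : ℂ) ^ 2 * ψ x ^ 2) (LL_sum hψ)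
  have e1 : ∀ w : (Fin d → ℤ) → Ω, ∑' x, (t : ℂ) ^ 2 * ψ x ^ 2 * (Γ (w x) - g) =
      LLn t g ψ Γ w := by
    intro w
    unfold LLn
    refine tsum_congr fun x => ?_
    ring
  simp only [e1] at k1
  refine k1.trans ?_
  have k2 := hR.mean
  have k3 : 0 ≤ ∫ ω, ‖Γ ω - g‖ ^ 2 ∂P := integral_nonneg fun ω => by positivity
  have k4 : ‖∑' x, (t : ℂ) ^ 2 * ψ x ^ 2‖ ^ 2 ≤ a ^ 2 := by gcongr
  have e2 : ∀ x, ‖(t : ℂ) ^ 2 * ψ x ^ 2‖ ^ 2 = (t ^ 2 * ‖ψ x‖ ^ 2) ^ 2 := by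
    intro x
    rw [norm_mul, norm_pow, norm_pow, Complex.norm_real, Real.norm_eq_abs, sq_abs]
  have k5 : ∑' x, ‖(t : ℂ) ^ 2 * ψ x ^ 2‖ ^ 2 ≤ b * S0 := by
    simp only [e2]
    have k6 : ∀ x, (t ^ 2 * ‖ψ x‖ ^ 2) ^ 2 ≤ b * (t ^ 2 * ‖ψ x‖ ^ 2) := by
      intro x
      have k7 : 0 ≤ t ^ 2 * ‖ψ x‖ ^ 2 := by positivity
      have := h2 x
      nlinarith
    have k8 : Summable fun x => b * (t ^ 2 * ‖ψ x‖ ^ 2) := (hψ.mul_left _).mul_left _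
    have k9 : Summable fun x => (t ^ 2 * ‖ψ x‖ ^ 2) ^ 2 :=
      Summable.of_nonneg_of_le (fun x => sq_nonneg _) k6 k8
    refine (k9.tsum_le_tsum k6 k8).trans ?_
    rw [tsum_mul_left, tsum_mul_left]
    gcongr
  have k10 : 0 ≤ ∑' x, ‖(t : ℂ) ^ 2 * ψ x ^ 2‖ ^ 2 := tsum_nonneg fun x => by positivity
  calc _ ≤ (∫ ω, ‖Γ ω - g‖ ^ 2 ∂P) * a ^ 2 + (∫ ω, ‖Γ ω - g‖ ^ 2 ∂P) * (b * S0) := by
        gcongr
    _ = _ := by ring

end step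

end Pool.Agent.Y662.TR
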